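import Pool.Agent.H45F.Base

set_option autoImplicit false

open scoped ContDiff NNReal commutatorElement
open Set

namespace Pool.Agent.H45F

theorem isChart_ball (c : ℂ) {r : ℝ} (hr : 0 < r) : IsChart (Metric.ball c r) := by
  refine ⟨Metric.isOpen_ball, (OpenPartialHomeomorph.univBall c r).symm,
    OpenPartialHomeomorph.univBall c r, OpenPartialHomeomorph.contDiffOn_univBall_symm,
    OpenPartialHomeomorph.contDiff_univBall, ?_, ?_, ?_⟩
  · intro w
    have h := (OpenPartialHomeomorph.univBall c r).map_source (x := w)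
      (by rw [OpenPartialHomeomorph.univBall_source]; exact mem_univ _)
    rwa [OpenPartialHomeomorph.univBall_target c hr] at h
  · intro w
    exact (OpenPartialHomeomorph.univBall c r).left_inv
      (by rw [OpenPartialHomeomorph.univBall_source]; exact mem_univ _)
  · intro z hz
    exact (OpenPartialHomeomorph.univBall c r).right_inv
      (by rw [OpenPartialHomeomorph.univBall_target c hr]; exact hz)

theorem comm_prod_aux {E : Type*} [Group E] (a b X Y : E) (c1 : b * X = X * b)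
    (c2 : a * Y = Y * a) (c3 : a * X = X * a) (c4 : b * Y = Y * b) :
    ⁅a * X, b * Y⁆ = ⁅a, b⁆ * ⁅X, Y⁆ := by
  have inv_comm : ∀ u v : E, u * v = v * u → v * u⁻¹ = u⁻¹ * v := by
    intro u v h
    calc v * u⁻¹ = u⁻¹ * (u * v) * u⁻¹ := by group
      _ = u⁻¹ * (v * u) * u⁻¹ := by rw [h]
      _ = u⁻¹ * v := by group
  have d2 := inv_comm a Y c2
  have d7 := inv_comm a X c3
  have d8 := inv_comm b Y c4
  have d9 := inv_comm b X c1
  rw [commutatorElement_def, commutatorElement_def, commutatorElement_def, mul_inv_rev, mul_inv_rev]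
  calc a * X * (b * Y) * (X⁻¹ * a⁻¹) * (Y⁻¹ * b⁻¹)
      = a * (X * b) * Y * (a * X)⁻¹ * (b * Y)⁻¹ := by group
    _ = a * (b * X) * Y * (X * a)⁻¹ * (Y * b)⁻¹ := by rw [c1, c3, c4]
    _ = a * b * X * (Y * a⁻¹) * X⁻¹ * b⁻¹ * Y⁻¹ := by group
    _ = a * b * (X * a⁻¹) * Y * (X⁻¹ * b⁻¹) * Y⁻¹ := by rw [d2]; group
    _ = a * b * (a⁻¹ * X) * Y * (b * X)⁻¹ * Y⁻¹ := by rw [d7]; group
    _ = a * b * a⁻¹ * X * (Y * b⁻¹) * X⁻¹ * Y⁻¹ := by rw [c1]; group
    _ = a * b * a⁻¹ * (X * b⁻¹) * Y * X⁻¹ * Y⁻¹ := by rw [d8]; group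
    _ = a * b * a⁻¹ * b⁻¹ * (X * Y * X⁻¹ * Y⁻¹) := by rw [d9]; group

/-- the telescoping argument -/
theorem two_commutators {E : Type*} [Group E] (S H : Subgroup E) (t : E) (hSH : S ≤ H)
    (htH : ∀ h ∈ H, t * h * t⁻¹ ∈ H)
    (hcomm : ∀ s ∈ S, ∀ h ∈ H, s * (t * h * t⁻¹) = (t * h * t⁻¹) * s)
    (L : List (E × E)) (hL : ∀ q ∈ L, q.1 ∈ S ∧ q.2 ∈ S) :
    (L.map (fun q => ⁅q.1, q.2⁆)).prod ∈ S ∧ ∃ A ∈ H, ∃ B ∈ H, ∃ F ∈ H, ∃ F' ∈ H,
      ⁅A, B⁆ = F * F'⁻¹ ∧ F = (L.map (fun q => ⁅q.1, q.2⁆)).prod * (t * F' * t⁻¹) := by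
  induction L with
  | nil =>
    refine ⟨by simp, 1, H.one_mem, 1, H.one_mem, 1, H.one_mem, 1, H.one_mem, ?_, ?_⟩
    · simp
    · simp
  | cons q L ih =>
    obtain ⟨hP, A, hA, B, hB, F, hF, F', hF', h1, h2⟩ := ih (fun q hq => hL q (List.mem_cons_of_mem _ hq))
    obtain ⟨ha, hb⟩ := hL q List.mem_cons_self
    set P := (L.map (fun q => ⁅q.1, q.2⁆)).prod with hPdef
    have hab : ⁅q.1, q.2⁆ ∈ S := by
      rw [commutatorElement_def]
      exact S.mul_mem (S.mul_mem (S.mul_mem ha hb) (S.inv_mem ha)) (S.inv_mem hb)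
    have hprod : (List.map (fun q => ⁅q.1, q.2⁆) (q :: L)).prod = ⁅q.1, q.2⁆ * P := by
      simp [hPdef]
    rw [hprod]
    refine ⟨S.mul_mem hab hP, q.1 * (t * A * t⁻¹), H.mul_mem (hSH ha) (htH A hA),
      q.2 * (t * B * t⁻¹), H.mul_mem (hSH hb) (htH B hB),
      ⁅q.1, q.2⁆ * P * (t * F * t⁻¹), ?_, F, hF, ?_, rfl⟩
    · exact H.mul_mem (hSH (S.mul_mem hab hP)) (htH F hF)
    · have e1 : ⁅q.1 * (t * A * t⁻¹), q.2 * (t * B * t⁻¹)⁆ =
          ⁅q.1, q.2⁆ * (t * ⁅A, B⁆ * t⁻¹) := by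
        rw [comm_prod_aux q.1 q.2 _ _ (hcomm q.2 hb A hA) (hcomm q.1 ha B hB)
          (hcomm q.1 ha A hA) (hcomm q.2 hb B hB)]
        congr 1
        rw [commutatorElement_def, commutatorElement_def]; group
      rw [e1, h1]
      have c5 : P * (t * (F * F'⁻¹) * t⁻¹) = (t * (F * F'⁻¹) * t⁻¹) * P :=
        hcomm P hP _ (H.mul_mem hF (H.inv_mem hF'))
      calc ⁅q.1, q.2⁆ * (t * (F * F'⁻¹) * t⁻¹)
          = ⁅q.1, q.2⁆ * ((t * (F * F'⁻¹) * t⁻¹) * P) * P⁻¹ := by group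
        _ = ⁅q.1, q.2⁆ * (P * (t * (F * F'⁻¹) * t⁻¹)) * P⁻¹ := by rw [c5]
        _ = ⁅q.1, q.2⁆ * P * (t * F * t⁻¹) * (P * (t * F' * t⁻¹))⁻¹ := by group
        _ = ⁅q.1, q.2⁆ * P * (t * F * t⁻¹) * F⁻¹ := by rw [← h2]

theorem exists_list_of_commutator_top {E : Type*} [Group E] (hE : commutator E = ⊤) (z : E) :
    ∃ L : List (E × E), z = (L.map (fun q => ⁅q.1, q.2⁆)).prod := by
  have hz : z ∈ commutator E := by rw [hE]; exact Subgroup.mem_top z
  rw [commutator_eq_closure] at hz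
  induction hz using Subgroup.closure_induction with
  | mem x hx =>
    obtain ⟨a, b, rfl⟩ := hx
    exact ⟨[(a, b)], by simp⟩
  | one => exact ⟨[], by simp⟩
  | mul x y _ _ hx hy =>
    obtain ⟨L, rfl⟩ := hx
    obtain ⟨M, rfl⟩ := hy
    exact ⟨L ++ M, by simp⟩
  | inv x _ hx =>
    obtain ⟨L, rfl⟩ := hx
    refine ⟨(L.reverse).map (fun q => (q.2, q.1)), ?_⟩
    rw [List.prod_inv_reverse, List.map_map, List.map_map, ← List.map_reverse]
    congr 1
    apply List.map_congr_left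
    intro q _
    simp [commutatorElement_inv]

/-- Small multiples of a smooth compactly supported field give compactly supported
diffeomorphisms. -/
theorem exists_small (v : ℂ → ℂ) (hv : ContDiff ℝ ∞ v) (R : ℝ)
    (hR : ∀ z : ℂ, R ≤ ‖z‖ → v z = 0) :
    ∃ δ₀ : ℝ, 0 < δ₀ ∧ ∀ δ : ℝ, |δ| ≤ δ₀ → ∃ f : Equiv.Perm ℂ, f ∈ DiffC ∧
      ∀ z, f z = z + δ • v z := by
  have hcs : HasCompactSupport v := by
    refine HasCompactSupport.intro (isCompact_closedBall (0 : ℂ) R) (fun z hz => hR z ?_)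
    have : ¬ ‖z‖ ≤ R := by simpa using hz
    exact le_of_lt (not_le.mp this)
  obtain ⟨C, hC⟩ := ContDiff.lipschitzWith_of_hasCompactSupport hcs hv (by simp)
  refine ⟨1 / (2 * (C + 1)), by positivity, fun δ hδ => ?_⟩
  have hL : LipschitzWith (Real.nnabs δ * C) (fun z => δ • v z) := by
    refine LipschitzWith.of_dist_le_mul (fun x y => ?_)
    rw [dist_eq_norm, ← smul_sub, norm_smul, Real.norm_eq_abs]
    have h1 := hC.dist_le_mul x y
    rw [dist_eq_norm] at h1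
    push_cast
    rw [mul_assoc]
    exact mul_le_mul_of_nonneg_left h1 (abs_nonneg _)
  have hlt : Real.nnabs δ * C < 1 := by
    rw [← NNReal.coe_lt_coe]
    push_cast
    have hC0 : (0 : ℝ) ≤ C := C.coe_nonneg
    calc |δ| * C ≤ 1 / (2 * (C + 1)) * C := mul_le_mul_of_nonneg_right hδ hC0
      _ < 1 := by
        rw [div_mul_eq_mul_div, one_mul, div_lt_one (by positivity)]
        linarith
  exact exists_diffC_of_lipschitz (fun z => δ • v z) (hv.const_smul δ) _ hlt hL R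
    (fun z hz => by simp [hR z hz])

/-- Every bounded set can be moved into a given open set by a compactly supported
diffeomorphism. -/
theorem exists_contraction (c : ℂ) (r : ℝ) (hr : 0 < r) (R : ℝ) :
    ∃ g : Equiv.Perm ℂ, g ∈ DiffC ∧ ∀ z : ℂ, ‖z‖ ≤ R → g z ∈ Metric.ball c r := by
  set B : ℝ := |R| + ‖c‖ + 1 with hB
  have hBpos : 0 < B := by positivity
  let χ : ContDiffBump c := ⟨B, B + 1, hBpos, by linarith⟩
  let v : ℂ → ℂ := fun z => χ z • (c - z)
  have hv : ContDiff ℝ ∞ v := by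
    exact (χ.contDiff).smul (contDiff_const.sub contDiff_id)
  have hvR : ∀ z : ℂ, B + 1 + ‖c‖ ≤ ‖z‖ → v z = 0 := by
    intro z hz
    have h1 : χ z = 0 := by
      apply χ.zero_of_le_dist
      rw [dist_eq_norm]
      have := norm_sub_norm_le z c
      change B + 1 ≤ ‖z - c‖
      linarith
    simp [v, h1]
  obtain ⟨δ₀, hδ₀, hδ⟩ := exists_small v hv _ hvR
  set δ : ℝ := min δ₀ (1 / 2) with hδdef
  have hδpos : 0 < δ := lt_min hδ₀ (by norm_num)
  have hδle : δ ≤ 1 / 2 := min_le_right _ _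
  obtain ⟨f, hf, hfz⟩ := hδ δ (by rw [abs_of_pos hδpos]; exact min_le_left _ _)
  have hstep : ∀ z : ℂ, ‖z - c‖ ≤ B → f z - c = (1 - δ) • (z - c) := by
    intro z hz
    have h1 : χ z = 1 := by
      apply χ.one_of_mem_closedBall
      rw [Metric.mem_closedBall, dist_eq_norm]
      exact hz
    rw [hfz z]
    simp only [v, h1, one_smul]
    rw [sub_smul, one_smul, Complex.real_smul, Complex.real_smul]
    ring
  have hiter : ∀ n : ℕ, ∀ z : ℂ, ‖z - c‖ ≤ B → (f ^ n) z - c = ((1 - δ) ^ n) • (z - c) := by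
    intro n
    induction n with
    | zero => intro z _; simp
    | succ n ih =>
      intro z hz
      rw [pow_succ', Equiv.Perm.mul_apply]
      have h2 := ih z hz
      have h3 : ‖(f ^ n) z - c‖ ≤ B := by
        rw [h2, norm_smul, Real.norm_eq_abs, abs_of_nonneg (by apply pow_nonneg; linarith)]
        have : (1 - δ) ^ n ≤ 1 := pow_le_one₀ (by linarith) (by linarith)
        calc (1 - δ) ^ n * ‖z - c‖ ≤ 1 * ‖z - c‖ :=
              mul_le_mul_of_nonneg_right this (norm_nonneg _)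
          _ ≤ B := by rw [one_mul]; exact hz
      rw [hstep _ h3, h2, smul_smul, pow_succ']
  obtain ⟨n, hn⟩ := exists_pow_lt_of_lt_one (show 0 < r / B by positivity)
    (show 1 - δ < 1 by linarith)
  refine ⟨f ^ n, DiffC.pow_mem hf n, fun z hz => ?_⟩
  have h4 : ‖z - c‖ ≤ B := by
    have h5 := norm_sub_le z c
    have h6 : R ≤ |R| := le_abs_self R
    linarith
  rw [Metric.mem_ball, dist_eq_norm, hiter n z h4, norm_smul, Real.norm_eq_abs,
    abs_of_nonneg (by apply pow_nonneg; linarith)]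
  calc (1 - δ) ^ n * ‖z - c‖ ≤ (1 - δ) ^ n * B :=
        mul_le_mul_of_nonneg_left h4 (by apply pow_nonneg; linarith)
    _ < r / B * B := mul_lt_mul_of_pos_right hn hBpos
    _ = r := by field_simp

theorem exists_radius_list (L : List DiffC) :
    ∃ R : ℝ, ∀ f ∈ L, ∀ z : ℂ, R ≤ ‖z‖ → (f : Equiv.Perm ℂ) z = z := by
  induction L with
  | nil => exact ⟨0, fun f hf => by simp at hf⟩
  | cons g L ih =>
    obtain ⟨R, hR⟩ := ih
    obtain ⟨g, hg, hg', S, hS⟩ := g
    refine ⟨max R S, fun f hf z hz => ?_⟩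
    rcases List.mem_cons.mp hf with rfl | hf
    · exact hS z (le_trans (le_max_right _ _) hz)
    · exact hR f hf z (le_trans (le_max_left _ _) hz)

/-- elements of the extension whose image is supported in a compact subset of `U` -/
def suppSubgroup {E : Type*} [Group E] (p : E →* DiffC) (U : Set ℂ) : Subgroup E where
  carrier := {e | SuppIn U (p e : Equiv.Perm ℂ)}
  mul_mem' := by
    rintro a b ⟨C, hC, hCU, hCf⟩ ⟨D, hD, hDU, hDf⟩
    refine ⟨C ∪ D, hC.union hD, union_subset hCU hDU, fun z hz => ?_⟩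
    rw [map_mul, Subgroup.coe_mul, Equiv.Perm.mul_apply,
      hDf z (fun h => hz (Or.inr h)), hCf z (fun h => hz (Or.inl h))]
  one_mem' := ⟨∅, isCompact_empty, empty_subset _, fun z _ => by simp⟩
  inv_mem' := by
    rintro a ⟨C, hC, hCU, hCf⟩
    refine ⟨C, hC, hCU, fun z hz => ?_⟩
    rw [map_inv, Subgroup.coe_inv, Equiv.Perm.inv_eq_iff_eq, hCf z hz]

/-- elements of the extension whose image fixes the complement of `V` -/
def fixSubgroup {E : Type*} [Group E] (p : E →* DiffC) (V : Set ℂ) : Subgroup E where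
  carrier := {e | ∀ z, z ∉ V → (p e : Equiv.Perm ℂ) z = z}
  mul_mem' := by
    intro a b ha hb z hz
    rw [map_mul, Subgroup.coe_mul, Equiv.Perm.mul_apply, hb z hz, ha z hz]
  one_mem' := by intro z _; simp
  inv_mem' := by
    intro a ha z hz
    rw [map_inv, Subgroup.coe_inv, Equiv.Perm.inv_eq_iff_eq, ha z hz]

theorem genus_two (t : DiffC) (W : Set ℂ) (hWo : IsOpen W) (hWn : W.Nonempty)
    (hW : ∀ n : ℕ, 1 ≤ n → ∀ z ∈ W, ((t ^ n : DiffC) : Equiv.Perm ℂ) z ∉ W)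
    {E : Type*} [Group E] (p : E →* DiffC) (hp : Function.Surjective p)
    (hc : p.ker ≤ Subgroup.center E) (hE : commutator E = ⊤) (e : E) (t' : E)
    (ht' : p t' = t) : ∃ g A B F : E, e = g * (⁅A, B⁆ * ⁅F, t'⁆) * g⁻¹ := by
  obtain ⟨L, hL⟩ := exists_list_of_commutator_top hE e
  obtain ⟨R, hR⟩ := exists_radius_list ((L.map (fun q => p q.1)) ++ (L.map (fun q => p q.2)))
  obtain ⟨c, hcW⟩ := hWn
  obtain ⟨r, hr, hrW⟩ := Metric.isOpen_iff.mp hWo c hcW
  obtain ⟨g, hg, hgR⟩ := exists_contraction c r hr R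
  obtain ⟨g', hg'⟩ := hp ⟨g, hg⟩
  set U : Set ℂ := Metric.ball c r with hU
  set V : Set ℂ := {z | ∃ n : ℕ, ∃ w ∈ U, ((t ^ n : DiffC) : Equiv.Perm ℂ) w = z} with hV
  have hUV : U ⊆ V := fun z hz => ⟨0, z, hz, by simp⟩
  have htpow : ∀ (n : ℕ) (z : ℂ), ((t : DiffC) : Equiv.Perm ℂ) (((t ^ n : DiffC) : Equiv.Perm ℂ) z) =
      ((t ^ (n + 1) : DiffC) : Equiv.Perm ℂ) z := by
    intro n z
    rw [pow_succ', Subgroup.coe_mul, Equiv.Perm.mul_apply]
  -- conjugates by `g'` are supported in `U`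
  have hconj : ∀ a : E, (∀ z : ℂ, R ≤ ‖z‖ → (p a : Equiv.Perm ℂ) z = z) →
      g' * a * g'⁻¹ ∈ suppSubgroup p U := by
    intro a ha
    refine ⟨g '' (Metric.closedBall (0 : ℂ) R), ?_, ?_, ?_⟩
    · exact (isCompact_closedBall (0 : ℂ) R).image hg.1.continuous
    · rintro _ ⟨w, hw, rfl⟩
      exact hgR w (by simpa using hw)
    · intro z hz
      have h1 : ((p (g' * a * g'⁻¹) : DiffC) : Equiv.Perm ℂ) z =
          g ((p a : Equiv.Perm ℂ) (g.symm z)) := by
        rw [map_mul, map_mul, map_inv, hg']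
        rfl
      rw [h1]
      have h2 : R ≤ ‖g.symm z‖ := by
        by_contra h
        exact hz ⟨g.symm z, by simpa using (le_of_lt (not_le.mp h)), Equiv.apply_symm_apply g z⟩
      rw [ha _ h2, Equiv.apply_symm_apply]
  have hkey := two_commutators (suppSubgroup p U) (fixSubgroup p V) t' ?_ ?_ ?_
    (L.map (fun q => (g' * q.1 * g'⁻¹, g' * q.2 * g'⁻¹))) ?_
  · obtain ⟨-, A, -, B, -, F, -, F', -, h1, h2⟩ := hkey
    refine ⟨g'⁻¹, A, B, F', ?_⟩
    have h3 : (List.map (fun q : E × E => ⁅q.1, q.2⁆)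
        (L.map (fun q => (g' * q.1 * g'⁻¹, g' * q.2 * g'⁻¹)))).prod = g' * e * g'⁻¹ := by
      rw [hL, List.map_map]
      have h4 := map_list_prod (MulAut.conj g') (L.map (fun q => ⁅q.1, q.2⁆))
      rw [MulAut.conj_apply] at h4
      rw [h4, List.map_map]
      congr 1
      apply List.map_congr_left
      intro q _
      simp only [Function.comp_apply, MulAut.conj_apply, commutatorElement_def]
      group
    rw [h3] at h2
    have h5 : ⁅A, B⁆ * ⁅F', t'⁆ = g' * e * g'⁻¹ := by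
      rw [h1, commutatorElement_def, h2]
      group
    rw [h5]
    group
  · intro x hx z hz
    exact hx.fix (fun h => hz (hUV h))
  · intro h hh z hz
    have h1 : ((p (t' * h * t'⁻¹) : DiffC) : Equiv.Perm ℂ) z =
          (t : Equiv.Perm ℂ) ((p h : Equiv.Perm ℂ) ((t : Equiv.Perm ℂ).symm z)) := by
      rw [map_mul, map_mul, map_inv, ht']
      rfl
    rw [h1, hh, Equiv.apply_symm_apply]
    rintro ⟨n, w, hw, hwz⟩
    refine hz ⟨n + 1, w, hw, ?_⟩
    rw [← htpow, hwz, Equiv.apply_symm_apply]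
  · intro s hs h hh
    refine commute_of_chart p hp hc hE (isChart_ball c hr) s _ hs ?_
    intro z hz
    have h1 : ((p (t' * h * t'⁻¹) : DiffC) : Equiv.Perm ℂ) z =
          (t : Equiv.Perm ℂ) ((p h : Equiv.Perm ℂ) ((t : Equiv.Perm ℂ).symm z)) := by
      rw [map_mul, map_mul, map_inv, ht']
      rfl
    rw [h1, hh, Equiv.apply_symm_apply]
    rintro ⟨n, w, hw, hwz⟩
    have h2 : ((t ^ (n + 1) : DiffC) : Equiv.Perm ℂ) w = z := by
      rw [← htpow, hwz, Equiv.apply_symm_apply]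
    have h3 := hW (n + 1) (by omega) w (hrW hw)
    rw [h2] at h3
    exact h3 (hrW hz)
  · intro q hq
    rw [List.mem_map] at hq
    obtain ⟨q', hq', rfl⟩ := hq
    exact ⟨hconj _ (hR _ (List.mem_append_left _ (List.mem_map_of_mem hq'))),
      hconj _ (hR _ (List.mem_append_right _ (List.mem_map_of_mem hq')))⟩

/-- There are compactly supported diffeomorphisms with a wandering open set. -/
theorem exists_wandering : ∃ (t : DiffC) (W : Set ℂ), IsOpen W ∧ W.Nonempty ∧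
    ∀ n : ℕ, 1 ≤ n → ∀ z ∈ W, ((t ^ n : DiffC) : Equiv.Perm ℂ) z ∉ W := by
  let χ : ContDiffBump (0 : ℂ) := ⟨1, 2, by norm_num, by norm_num⟩
  let v : ℂ → ℂ := fun z => χ z • (1 : ℂ)
  have hv : ContDiff ℝ ∞ v := χ.contDiff.smul contDiff_const
  have hvR : ∀ z : ℂ, 2 ≤ ‖z‖ → v z = 0 := by
    intro z hz
    have h1 : χ z = 0 := by
      apply χ.zero_of_le_dist
      rw [dist_zero_right]
      exact hz
    simp [v, h1]
  obtain ⟨δ₀, hδ₀, hδ⟩ := exists_small v hv _ hvR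
  obtain ⟨f, hf, hfz⟩ := hδ δ₀ (by rw [abs_of_pos hδ₀])
  have hmono : ∀ z : ℂ, z.re ≤ (f z).re := by
    intro z
    rw [hfz z]
    have h1 : 0 ≤ χ z := χ.nonneg
    have h2 : (δ₀ • v z).re = δ₀ * χ z := by simp [v]
    rw [Complex.add_re, h2]
    have : 0 ≤ δ₀ * χ z := mul_nonneg hδ₀.le h1
    linarith
  have hpow : ∀ (n : ℕ) (z : ℂ), (f z).re ≤ ((f ^ (n + 1)) z).re := by
    intro n
    induction n with
    | zero => intro z; simp
    | succ n ih =>
      intro z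
      rw [pow_succ', Equiv.Perm.mul_apply]
      exact le_trans (ih z) (hmono _)
  set r : ℝ := min (δ₀ / 2) 1 with hr
  have hrpos : 0 < r := lt_min (by linarith) one_pos
  refine ⟨⟨f, hf⟩, Metric.ball 0 r, Metric.isOpen_ball, ⟨0, by simpa using hrpos⟩, ?_⟩
  intro n hn z hz hz'
  obtain ⟨m, rfl⟩ : ∃ m, n = m + 1 := ⟨n - 1, by omega⟩
  rw [Metric.mem_ball, dist_zero_right] at hz hz'
  have h1 : χ z = 1 := by
    apply χ.one_of_mem_closedBall
    rw [Metric.mem_closedBall, dist_zero_right]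
    exact le_trans hz.le (min_le_right _ _)
  have h2 : (f z).re = z.re + δ₀ := by
    rw [hfz z]
    simp [v, h1]
  have h3 := hpow m z
  have h4 : |z.re| ≤ ‖z‖ := Complex.abs_re_le_norm z
  have h5 : |((f ^ (m + 1)) z).re| ≤ ‖(f ^ (m + 1)) z‖ := Complex.abs_re_le_norm _
  have h6 : ‖(f ^ (m + 1)) z‖ < r := hz'
  have h7 : r ≤ δ₀ / 2 := min_le_left _ _
  have h8 := abs_le.mp h4
  have h9 := abs_le.mp h5
  linarith [h8.1, h9.2]

end Pool.Agent.H45F
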