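import Mathlib

set_option autoImplicit false

namespace Pool.Agent.H45F

/-- powers of a relation with a central error -/
theorem pow_comm_aux {F : Type*} [Group F] {a b z : F} (hz : ∀ x, x * z = z * x)
    (h : a * b = z * (b * a)) (n : ℕ) : a ^ n * b = z ^ n * (b * a ^ n) := by
  induction n with
  | zero => simp
  | succ n ih =>
    have hzn : a * z ^ n = z ^ n * a := Commute.pow_right (show Commute a z from hz a) n
    have h1 : a ^ (n + 1) * b = a * (a ^ n * b) := by rw [pow_succ', mul_assoc]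
    rw [h1, ih, ← mul_assoc, hzn, mul_assoc, ← mul_assoc a b, h, pow_succ, pow_succ' a n]
    simp only [mul_assoc]

/-- over the abelian part all lifts commute -/
theorem lifts_commute {R F : Type*} [Group R] [Group F] (q : F →* R)
    (hq : Function.Surjective q) (hc : ∀ κ, q κ = 1 → ∀ x, x * κ = κ * x) (Ψ : F →* F)
    (σ ρ : R →* R) (h1 : ∀ f, q (Ψ f) = σ (q f)) (h2 : ∀ κ, q κ = 1 → Ψ κ = κ * κ)
    (hcomm : ∀ v w, ρ v = 1 → ρ w = 1 → v * w = w * v)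
    (hhalf : ∀ v, ρ v = 1 → σ v * σ v = v)
    (h7 : ∀ v, ρ v = 1 → ∃ w, ρ w = 1 ∧ w ^ 7 = v) (f g : F) (hf : ρ (q f) = 1)
    (hg : ρ (q g) = 1) : f * g = g * f := by
  -- the seventh power of the error is trivial
  have key : ∀ f g : F, ρ (q f) = 1 → ρ (q g) = 1 → ∀ z, f * g = z * (g * f) → q z = 1 →
      z ^ 7 = 1 := by
    intro f g hf hg z hz hqz
    have hcz := hc z hqz
    have e1 : Ψ f * Ψ g = (z * z) * (Ψ g * Ψ f) := by
      rw [← map_mul, hz, map_mul, map_mul, h2 z hqz]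
    have hczz : ∀ x, x * (z * z) = (z * z) * x := by
      intro x
      exact Commute.mul_right (show Commute x z from hcz x) (show Commute x z from hcz x)
    have e2 := pow_comm_aux hczz e1 2
    have e3 : Ψ g * Ψ f ^ 2 = ((z * z) ^ 2)⁻¹ * (Ψ f ^ 2 * Ψ g) := by
      rw [e2, inv_mul_cancel_left]
    have hczz' : ∀ x, x * ((z * z) ^ 2)⁻¹ = ((z * z) ^ 2)⁻¹ * x := by
      intro x
      exact (Commute.pow_right (show Commute x (z * z) from hczz x) 2).inv_right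
    have e4 := pow_comm_aux hczz' e3 2
    -- squares are lifts
    have hf2 : q ((Ψ f) ^ 2 * f⁻¹) = 1 := by
      rw [map_mul, map_pow, map_inv, h1, pow_two, hhalf _ hf, mul_inv_cancel]
    have hg2 : q ((Ψ g) ^ 2 * g⁻¹) = 1 := by
      rw [map_mul, map_pow, map_inv, h1, pow_two, hhalf _ hg, mul_inv_cancel]
    set k := (Ψ f) ^ 2 * f⁻¹ with hk
    set l := (Ψ g) ^ 2 * g⁻¹ with hl
    have ef : Ψ f ^ 2 = k * f := by rw [hk, inv_mul_cancel_right]
    have eg : Ψ g ^ 2 = l * g := by rw [hl, inv_mul_cancel_right]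
    have hck := hc k hf2
    have hcl := hc l hg2
    rw [ef, eg] at e4
    have e5 : l * g * (k * f) = (k * l) * (g * f) := by
      calc l * g * (k * f) = l * (g * k) * f := by simp only [mul_assoc]
        _ = l * (k * g) * f := by rw [hck g]
        _ = (l * k) * (g * f) := by simp only [mul_assoc]
        _ = (k * l) * (g * f) := by rw [hck l]
    have e6 : k * f * (l * g) = (k * l) * (f * g) := by
      calc k * f * (l * g) = k * (f * l) * g := by simp only [mul_assoc]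
        _ = k * (l * f) * g := by rw [hcl f]
        _ = (k * l) * (f * g) := by simp only [mul_assoc]
    rw [e5, e6, hz] at e4
    have hzkl : z * (k * l) = (k * l) * z := (hcz (k * l)).symm
    have e7 : (k * l) * (g * f) = (((z * z) ^ 2)⁻¹) ^ 2 * ((k * l) * (z * (g * f))) := e4
    have e8 : (k * l) * (z * (g * f)) = z * ((k * l) * (g * f)) := by
      rw [← mul_assoc, ← hzkl, mul_assoc]
    have e9 : (((z * z) ^ 2)⁻¹) ^ 2 * z = 1 := by
      have h9 : (((z * z) ^ 2)⁻¹) ^ 2 * z * ((k * l) * (g * f)) = (k * l) * (g * f) := by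
        rw [mul_assoc, ← e8]
        exact e7.symm
      exact mul_eq_right.mp h9
    have e10 : (((z * z) ^ 2)⁻¹) ^ 2 * z = (z ^ 7)⁻¹ := by
      rw [← pow_two z]
      group
    rw [e10] at e9
    exact inv_eq_one.mp e9
  obtain ⟨w, hw1, hw2⟩ := h7 _ hf
  obtain ⟨f₇, rfl⟩ := hq w
  have hz1 : q (f₇ * g * (g * f₇)⁻¹) = 1 := by
    rw [map_mul, map_inv, map_mul, map_mul, hcomm _ _ hw1 hg, mul_inv_cancel]
  have e1 := key f₇ g hw1 hg (f₇ * g * (g * f₇)⁻¹) (by rw [inv_mul_cancel_right]) hz1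
  have e2 := pow_comm_aux (a := f₇) (b := g) (hc _ hz1) (by rw [inv_mul_cancel_right]) 7
  rw [e1, one_mul] at e2
  have hk : q (f * (f₇ ^ 7)⁻¹) = 1 := by rw [map_mul, map_inv, map_pow, hw2, mul_inv_cancel]
  have hck := hc _ hk
  have ef : f = f * (f₇ ^ 7)⁻¹ * f₇ ^ 7 := by rw [inv_mul_cancel_right]
  calc f * g = (f * (f₇ ^ 7)⁻¹) * f₇ ^ 7 * g := by rw [← ef]
    _ = (f * (f₇ ^ 7)⁻¹) * (f₇ ^ 7 * g) := by rw [mul_assoc]
    _ = (f * (f₇ ^ 7)⁻¹) * (g * f₇ ^ 7) := by rw [e2]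
    _ = (f * (f₇ ^ 7)⁻¹) * g * f₇ ^ 7 := (mul_assoc _ _ _).symm
    _ = g * (f * (f₇ ^ 7)⁻¹) * f₇ ^ 7 := by rw [hck g]
    _ = g * ((f * (f₇ ^ 7)⁻¹) * f₇ ^ 7) := by rw [mul_assoc]
    _ = g * f := by rw [← ef]

theorem conj_pow_aux {F : Type*} [Group F] (a f : F) (n : ℕ) :
    (a⁻¹ * f * a) ^ n = a⁻¹ * f ^ n * a := by
  have h := conj_pow (a := a⁻¹) (b := f) (i := n)
  rwa [inv_inv] at h

/-- the abstract splitting principle -/
theorem split_aux {R F : Type*} [Group R] [Group F] (q : F →* R)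
    (hq : Function.Surjective q) (hc : ∀ κ, q κ = 1 → ∀ x, x * κ = κ * x) (Ψ : F →* F)
    (σ ρ : R →* R) (h1 : ∀ f, q (Ψ f) = σ (q f)) (h2 : ∀ κ, q κ = 1 → Ψ κ = κ * κ)
    (hσρ : ∀ x, σ (ρ x) = ρ x) (hρρ : ∀ x, ρ (ρ x) = ρ x) (hρσ : ∀ x, ρ (σ x) = ρ x)
    (hcomm : ∀ v w, ρ v = 1 → ρ w = 1 → v * w = w * v)
    (hhalf : ∀ v, ρ v = 1 → σ v * σ v = v)
    (h7 : ∀ v, ρ v = 1 → ∃ w, ρ w = 1 ∧ w ^ 7 = v)
    (h3 : ∀ v, ρ v = 1 → ∃ w, ρ w = 1 ∧ w ^ 3 = v)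
    (h3u : ∀ v w, ρ v = 1 → ρ w = 1 → v ^ 3 = w ^ 3 → v = w) :
    ∃ s : R →* F, ∀ x, q (s x) = x := by
  have hlc := lifts_commute q hq hc Ψ σ ρ h1 h2 hcomm hhalf h7
  let A : Subgroup F := (ρ.comp q).ker
  have hA : ∀ f : F, f ∈ A ↔ ρ (q f) = 1 := fun f => MonoidHom.mem_ker
  let _ : CommGroup A := { (inferInstance : Group A) with
    mul_comm := fun f g => Subtype.ext (hlc _ _ ((hA _).mp f.2) ((hA _).mp g.2)) }
  let ΨA : A →* A := (Ψ.comp A.subtype).codRestrict A (fun f => by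
    rw [hA]
    change ρ (q (Ψ f)) = 1
    rw [h1, hρσ]
    exact (hA _).mp f.2)
  have hΨA : ∀ f : A, ((ΨA f : A) : F) = Ψ f := fun f => rfl
  let T : A → A := fun f => f ^ 3 * (ΨA f ^ 2 * f⁻¹)⁻¹
  have hT : ∀ f, T f = f ^ 3 * (ΨA f ^ 2 * f⁻¹)⁻¹ := fun f => rfl
  have hTmul : ∀ f g, T (f * g) = T f * T g := by
    intro f g
    rw [hT, hT, hT, map_mul, mul_pow, mul_pow]
    simp only [mul_inv, inv_inv]
    rw [mul_mul_mul_comm (ΨA f ^ 2)⁻¹, mul_mul_mul_comm (f ^ 3)]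
  have hTq : ∀ f : A, q (T f) = q f ^ 3 := by
    intro f
    have e : ((T f : A) : F) = (f : F) ^ 3 * (Ψ f ^ 2 * (f : F)⁻¹)⁻¹ := rfl
    rw [e, map_mul, map_inv, map_mul, map_pow, map_pow, map_inv, h1, pow_two,
      hhalf _ ((hA _).mp f.2), mul_inv_cancel, inv_one, mul_one]
  have hTker : ∀ f : A, q f = 1 → T f = 1 := by
    intro f hf
    apply Subtype.ext
    have e : ((T f : A) : F) = (f : F) ^ 3 * (Ψ f ^ 2 * (f : F)⁻¹)⁻¹ := rfl
    rw [e, h2 _ hf, ← pow_two]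
    change (f : F) ^ 3 * (((f : F) ^ 2) ^ 2 * (f : F)⁻¹)⁻¹ = 1
    group
  have hTconj : ∀ (a : F) (f g : A), Ψ a = a → (g : F) = a⁻¹ * f * a →
      ((T g : A) : F) = a⁻¹ * (T f : A) * a := by
    intro a f g ha hg
    have e : ∀ f : A, ((T f : A) : F) = (f : F) ^ 3 * (Ψ f ^ 2 * (f : F)⁻¹)⁻¹ := fun _ => rfl
    rw [e, e, hg, map_mul, map_mul, map_inv, ha, conj_pow_aux, conj_pow_aux]
    group
  let Good : R → F → Prop := fun x e => ∃ (a : F) (f : A), q a = ρ x ∧ Ψ a = a ∧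
    (q f) ^ 3 = (ρ x)⁻¹ * x ∧ e = a * (T f : A)
  have hex : ∀ x, ∃ e, Good x e := by
    intro x
    obtain ⟨a₀, ha₀⟩ := hq (ρ x)
    obtain ⟨w, hw1, hw2⟩ := h3 ((ρ x)⁻¹ * x) (by rw [map_mul, map_inv, hρρ, inv_mul_cancel])
    obtain ⟨f, rfl⟩ := hq w
    refine ⟨_, a₀ * (a₀⁻¹ * Ψ a₀)⁻¹, ⟨f, (hA _).mpr hw1⟩, ?_, ?_, hw2, rfl⟩
    · rw [map_mul, map_inv, map_mul, map_inv, h1, ha₀, hσρ, inv_mul_cancel, inv_one, mul_one]
    · have hk : q (a₀⁻¹ * Ψ a₀) = 1 := by rw [map_mul, map_inv, h1, ha₀, hσρ, inv_mul_cancel]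
      rw [map_mul, map_inv, h2 _ hk]
      group
  have hun : ∀ x e e', Good x e → Good x e' → e = e' := by
    rintro x e e' ⟨a, f, ha1, ha2, hf, rfl⟩ ⟨a', f', ha1', ha2', hf', rfl⟩
    have hka : q (a⁻¹ * a') = 1 := by rw [map_mul, map_inv, ha1, ha1', inv_mul_cancel]
    have hkk := h2 _ hka
    rw [map_mul, map_inv, ha2, ha2'] at hkk
    have e1 : a⁻¹ * a' = 1 := (left_eq_mul.mp hkk)
    have e2 : a = a' := inv_mul_eq_one.mp e1
    have e3 : q f = q f' := h3u _ _ ((hA _).mp f.2) ((hA _).mp f'.2) (by rw [hf, hf'])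
    have e4 : f' = f * (f⁻¹ * f') := by group
    have e5 : q ((f⁻¹ * f' : A) : F) = 1 := by
      change q ((f : F)⁻¹ * f') = 1
      rw [map_mul, map_inv, e3, inv_mul_cancel]
    rw [e2, e4, hTmul, hTker _ e5, mul_one]
  have hmul : ∀ x y e e', Good x e → Good y e' → Good (x * y) (e * e') := by
    rintro x y e e' ⟨a, f, ha1, ha2, hf, rfl⟩ ⟨a', f', ha1', ha2', hf', rfl⟩
    have hn : a'⁻¹ * (f : F) * a' ∈ A := by
      rw [hA]
      simp only [map_mul, map_inv]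
      rw [(hA _).mp f.2, mul_one, inv_mul_cancel]
    refine ⟨a * a', ⟨a'⁻¹ * (f : F) * a', hn⟩ * f', ?_, ?_, ?_, ?_⟩
    · rw [map_mul, ha1, ha1', map_mul]
    · rw [map_mul, ha2, ha2']
    · change q (a'⁻¹ * (f : F) * a' * f') ^ 3 = _
      rw [map_mul]
      have hc1 : Commute (q (a'⁻¹ * (f : F) * a')) (q (f' : F)) :=
        hcomm _ _ ((hA _).mp hn) ((hA _).mp f'.2)
      rw [hc1.mul_pow, hf', map_mul, map_mul, map_inv, ha1']
      rw [conj_pow_aux, hf, map_mul]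
      group
    · have e1 := hTconj a' f ⟨a'⁻¹ * (f : F) * a', hn⟩ ha2' rfl
      rw [hTmul]
      change _ = a * a' * (((T ⟨a'⁻¹ * (f : F) * a', hn⟩ : A) : F) * ((T f' : A) : F))
      rw [e1]
      group
  choose s hs using hex
  refine ⟨MonoidHom.mk' s fun x y => ?_, fun x => ?_⟩
  · exact hun _ _ _ (hs _) (hmul _ _ _ _ (hs x) (hs y))
  · obtain ⟨a, f, ha1, -, hf, he⟩ := hs x
    change q (s x) = x
    rw [he, map_mul, ha1, hTq, hf, mul_inv_cancel_left]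

end Pool.Agent.H45F
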