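import Pool.Agent.H45F.Defs

set_option autoImplicit false

open scoped ContDiff NNReal commutatorElement
open Set

namespace Pool.Agent.H45F

/-- A smooth map `z ↦ z + u z` with `u` compactly supported and of Lipschitz constant `< 1` is a
compactly supported diffeomorphism. -/
theorem exists_diffC_of_lipschitz (u : ℂ → ℂ) (hu : ContDiff ℝ ∞ u) (c : ℝ≥0) (hc : c < 1)
    (hL : LipschitzWith c u) (R : ℝ) (hR : ∀ z : ℂ, R ≤ ‖z‖ → u z = 0) :
    ∃ f : Equiv.Perm ℂ, f ∈ DiffC ∧ ∀ z, f z = z + u z := by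
  have happ : ApproximatesLinearOn (fun z => z + u z)
      ((ContinuousLinearEquiv.refl ℝ ℂ : ℂ ≃L[ℝ] ℂ) : ℂ →L[ℝ] ℂ) univ c := by
    intro x _ y _
    have h := hL.dist_le_mul x y
    rw [dist_eq_norm, dist_eq_norm] at h
    have e : (fun z => z + u z) x - (fun z => z + u z) y -
        ((ContinuousLinearEquiv.refl ℝ ℂ : ℂ ≃L[ℝ] ℂ) : ℂ →L[ℝ] ℂ) (x - y) = u x - u y := by
      simp only [ContinuousLinearEquiv.coe_refl, ContinuousLinearMap.coe_id', id_eq]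
      ring
    rw [e]
    exact h
  have hcc : Subsingleton ℂ ∨ c < ‖((ContinuousLinearEquiv.refl ℝ ℂ).symm : ℂ →L[ℝ] ℂ)‖₊⁻¹ := by
    right
    have : ‖((ContinuousLinearEquiv.refl ℝ ℂ).symm : ℂ →L[ℝ] ℂ)‖₊ = 1 := by
      have h1 : (((ContinuousLinearEquiv.refl ℝ ℂ).symm : ℂ ≃L[ℝ] ℂ) : ℂ →L[ℝ] ℂ) =
        ContinuousLinearMap.id ℝ ℂ := rfl
      rw [h1]
      exact ContinuousLinearMap.nnnorm_id
    rw [this]
    simpa using hc
  let F : ℂ ≃ₜ ℂ := happ.toHomeomorph _ hcc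
  have hF : ∀ z, F z = z + u z := fun z => rfl
  have hdiff : ∀ a, HasFDerivAt (fun z => z + u z)
      (ContinuousLinearMap.id ℝ ℂ + fderiv ℝ u a) a := by
    intro a
    exact (hasFDerivAt_id a).add ((hu.differentiable (by simp)) a).hasFDerivAt
  have hnorm : ∀ a, ‖fderiv ℝ u a‖ < 1 := by
    intro a
    have h1 : ‖fderiv ℝ u a‖ ≤ c := norm_fderiv_le_of_lipschitz ℝ hL
    exact lt_of_le_of_lt h1 (by exact_mod_cast hc)
  have hnorm' : ∀ a, ‖-(fderiv ℝ u a)‖ < 1 := by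
    intro a; rw [norm_neg]; exact hnorm a
  let Eq : ∀ a, ℂ ≃L[ℝ] ℂ := fun a =>
    ContinuousLinearEquiv.ofUnit (Units.oneSub (-(fderiv ℝ u a)) (hnorm' a))
  have hEq : ∀ a, ((Eq a : ℂ ≃L[ℝ] ℂ) : ℂ →L[ℝ] ℂ) =
      ContinuousLinearMap.id ℝ ℂ + fderiv ℝ u a := by
    intro a
    ext z
    simp [Eq, ContinuousLinearEquiv.ofUnit]
  have hsymm : ContDiff ℝ ∞ (F.symm : ℂ → ℂ) := by
    refine Homeomorph.contDiff_symm F (f₀' := Eq) ?_ ?_
    · intro a
      rw [hEq a]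
      exact hdiff a
    · exact contDiff_id.add hu
  refine ⟨F.toEquiv, ⟨contDiff_id.add hu, hsymm, R, fun z hz => ?_⟩, fun z => rfl⟩
  change z + u z = z
  rw [hR z hz, add_zero]

/-- The support of `f` is contained in a compact subset of `U`. -/
def SuppIn (U : Set ℂ) (f : Equiv.Perm ℂ) : Prop :=
  ∃ C : Set ℂ, IsCompact C ∧ C ⊆ U ∧ ∀ z, z ∉ C → f z = z

/-- `U` is open and smoothly diffeomorphic to the plane. -/
def IsChart (U : Set ℂ) : Prop :=
  IsOpen U ∧ ∃ Φ Ψ : ℂ → ℂ, ContDiffOn ℝ ∞ Φ U ∧ ContDiff ℝ ∞ Ψ ∧ (∀ w, Ψ w ∈ U) ∧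
    (∀ w, Φ (Ψ w) = w) ∧ ∀ z ∈ U, Ψ (Φ z) = z

theorem SuppIn.fix {U : Set ℂ} {f : Equiv.Perm ℂ} (h : SuppIn U f) {z : ℂ} (hz : z ∉ U) :
    f z = z := by
  obtain ⟨C, _, hCU, hC⟩ := h
  exact hC z (fun h => hz (hCU h))

theorem perm_comm_of_fix (U : Set ℂ) (f g : Equiv.Perm ℂ) (hf : ∀ z, z ∉ U → f z = z)
    (hg : ∀ z ∈ U, g z = z) : f * g = g * f := by
  ext1 z
  rw [Equiv.Perm.mul_apply, Equiv.Perm.mul_apply]
  by_cases hz : z ∈ U
  · have h1 : f z ∈ U := by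
      by_contra h
      have h2 := hf _ h
      have h3 := f.injective h2
      rw [h3] at h
      exact h hz
    rw [hg z hz, hg _ h1]
  · have h1 : g z ∉ U := by
      intro h
      have h2 := hg _ h
      have h3 := g.injective h2
      rw [h3] at h
      exact hz h
    rw [hf z hz, hf _ h1]

section transport

open Classical in
/-- conjugate a permutation of the plane by a chart `Φ : U → ℂ` with inverse `Ψ` -/
noncomputable def trFun (U : Set ℂ) (Φ Ψ : ℂ → ℂ) (g : ℂ → ℂ) (z : ℂ) : ℂ :=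
  if z ∈ U then Ψ (g (Φ z)) else z

theorem trFun_smooth {U : Set ℂ} {Φ Ψ : ℂ → ℂ} (hU : IsOpen U) (hΦ : ContDiffOn ℝ ∞ Φ U)
    (hΨ : ContDiff ℝ ∞ Ψ) (hm : ∀ w, Ψ w ∈ U) (h2 : ∀ z ∈ U, Ψ (Φ z) = z)
    (g : ℂ → ℂ) (hg : ContDiff ℝ ∞ g) (R : ℝ) (hR : ∀ z : ℂ, R ≤ ‖z‖ → g z = z) :
    ContDiff ℝ ∞ (trFun U Φ Ψ g) ∧
      ∀ z, z ∉ Ψ '' (Metric.closedBall (0 : ℂ) R) → trFun U Φ Ψ g z = z := by
  have hfix : ∀ z, z ∉ Ψ '' (Metric.closedBall (0 : ℂ) R) → trFun U Φ Ψ g z = z := by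
    intro z hz
    unfold trFun
    split_ifs with hzU
    · have h3 : ¬ ‖Φ z‖ ≤ R := by
        intro h
        exact hz ⟨Φ z, by simpa using h, h2 z hzU⟩
      rw [hR _ (le_of_lt (not_le.mp h3)), h2 z hzU]
    · rfl
  refine ⟨?_, hfix⟩
  rw [contDiff_iff_contDiffAt]
  intro z
  by_cases hz : z ∈ U
  · have h1 : ContDiffAt ℝ ∞ (fun z => Ψ (g (Φ z))) z :=
      (hΨ.contDiffAt).comp z ((hg.contDiffAt).comp z (hΦ.contDiffAt (hU.mem_nhds hz)))
    refine h1.congr_of_eventuallyEq ?_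
    filter_upwards [hU.mem_nhds hz] with w hw
    simp [trFun, hw]
  · have hcomp : IsClosed (Ψ '' (Metric.closedBall (0 : ℂ) R)) :=
      ((isCompact_closedBall (0 : ℂ) R).image hΨ.continuous).isClosed
    have hz' : z ∉ Ψ '' (Metric.closedBall (0 : ℂ) R) := by
      rintro ⟨w, _, rfl⟩
      exact hz (hm w)
    refine (contDiffAt_id).congr_of_eventuallyEq ?_
    filter_upwards [hcomp.isOpen_compl.mem_nhds hz'] with w hw
    exact hfix w hw

/-- the permutation obtained by transport -/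
noncomputable def trPerm (U : Set ℂ) (Φ Ψ : ℂ → ℂ) (hm : ∀ w, Ψ w ∈ U)
    (h1 : ∀ w, Φ (Ψ w) = w) (h2 : ∀ z ∈ U, Ψ (Φ z) = z) (g : Equiv.Perm ℂ) :
    Equiv.Perm ℂ where
  toFun := trFun U Φ Ψ g
  invFun := trFun U Φ Ψ g.symm
  left_inv := by
    intro z
    by_cases hz : z ∈ U
    · simp [trFun, hz, hm, h1, h2 z hz]
    · simp [trFun, hz]
  right_inv := by
    intro z
    by_cases hz : z ∈ U
    · simp [trFun, hz, hm, h1, h2 z hz]
    · simp [trFun, hz]

theorem trPerm_mul (U : Set ℂ) (Φ Ψ : ℂ → ℂ) (hm : ∀ w, Ψ w ∈ U)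
    (h1 : ∀ w, Φ (Ψ w) = w) (h2 : ∀ z ∈ U, Ψ (Φ z) = z) (g h : Equiv.Perm ℂ) :
    trPerm U Φ Ψ hm h1 h2 (g * h) = trPerm U Φ Ψ hm h1 h2 g * trPerm U Φ Ψ hm h1 h2 h := by
  ext1 z
  change trFun U Φ Ψ (fun w => g (h w)) z = trFun U Φ Ψ g (trFun U Φ Ψ h z)
  by_cases hz : z ∈ U
  · simp [trFun, hz, hm, h1]
  · simp [trFun, hz]

end transport

theorem exists_transport {U : Set ℂ} (hU : IsChart U) :
    ∃ T : DiffC →* DiffC, (∀ g, SuppIn U (T g : Equiv.Perm ℂ)) ∧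
      ∀ x : DiffC, SuppIn U (x : Equiv.Perm ℂ) → ∃ g, T g = x := by
  obtain ⟨hUo, Φ, Ψ, hΦ, hΨ, hm, h1, h2⟩ := hU
  have hmem : ∀ g : DiffC, trPerm U Φ Ψ hm h1 h2 g ∈ DiffC ∧
      SuppIn U (trPerm U Φ Ψ hm h1 h2 g) := by
    rintro ⟨g, hg, hg', R, hR⟩
    have hR' : ∀ z : ℂ, R ≤ ‖z‖ → g.symm z = z := by
      intro z hz
      rw [Equiv.symm_apply_eq, hR z hz]
    obtain ⟨hs, hfix⟩ := trFun_smooth hUo hΦ hΨ hm h2 g hg R hR
    obtain ⟨hs', hfix'⟩ := trFun_smooth hUo hΦ hΨ hm h2 g.symm hg' R hR'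
    have hcomp : IsCompact (Ψ '' (Metric.closedBall (0 : ℂ) R)) :=
      (isCompact_closedBall (0 : ℂ) R).image hΨ.continuous
    refine ⟨⟨hs, hs', ?_⟩, ⟨_, hcomp, ?_, fun z hz => hfix z hz⟩⟩
    · obtain ⟨S, hS⟩ := hcomp.isBounded.exists_norm_le
      refine ⟨S + 1, fun z hz => hfix z (fun h => ?_)⟩
      have := hS z h
      linarith
    · rintro _ ⟨w, _, rfl⟩
      exact hm w
  refine ⟨⟨⟨fun g => ⟨trPerm U Φ Ψ hm h1 h2 g, (hmem g).1⟩, ?_⟩, ?_⟩, ?_, ?_⟩
  · ext1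
    ext1 z
    change trFun U Φ Ψ (1 : Equiv.Perm ℂ) z = z
    by_cases hz : z ∈ U
    · simp [trFun, hz, h2 z hz]
    · simp [trFun, hz]
  · intro g h
    ext1
    exact trPerm_mul U Φ Ψ hm h1 h2 g h
  · intro g
    exact (hmem g).2
  · rintro ⟨x, hx, hx', R, hR⟩ ⟨C, hC, hCU, hCf⟩
    have hxU : ∀ z ∈ U, x z ∈ U := by
      intro z hz
      by_contra h
      have h3 := hCf (x z) (fun h' => h (hCU h'))
      have h4 := x.injective h3
      rw [h4] at h
      exact h hz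
    have hCf' : ∀ z, z ∉ C → x.symm z = z := by
      intro z hz
      rw [Equiv.symm_apply_eq, hCf z hz]
    have hxU' : ∀ z ∈ U, x.symm z ∈ U := by
      intro z hz
      by_contra h
      have h3 := hCf' (x.symm z) (fun h' => h (hCU h'))
      have h4 := x.symm.injective h3
      rw [h4] at h
      exact h hz
    let g : Equiv.Perm ℂ :=
      { toFun := fun w => Φ (x (Ψ w))
        invFun := fun w => Φ (x.symm (Ψ w))
        left_inv := by
          intro w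
          change Φ (x.symm (Ψ (Φ (x (Ψ w))))) = w
          rw [h2 _ (hxU _ (hm w)), Equiv.symm_apply_apply, h1]
        right_inv := by
          intro w
          change Φ (x (Ψ (Φ (x.symm (Ψ w))))) = w
          rw [h2 _ (hxU' _ (hm w)), Equiv.apply_symm_apply, h1] }
    have hgs : ContDiff ℝ ∞ (fun w => g w) := by
      have : ContDiffOn ℝ ∞ (fun w => Φ (x (Ψ w))) univ :=
        hΦ.comp (hx.comp hΨ).contDiffOn (fun w _ => hxU _ (hm w))
      exact contDiffOn_univ.mp this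
    have hgs' : ContDiff ℝ ∞ (fun w => g.symm w) := by
      have : ContDiffOn ℝ ∞ (fun w => Φ (x.symm (Ψ w))) univ :=
        hΦ.comp (hx'.comp hΨ).contDiffOn (fun w _ => hxU' _ (hm w))
      exact contDiffOn_univ.mp this
    have hbd : Bornology.IsBounded (Φ '' C) :=
      (hC.image_of_continuousOn (hΦ.continuousOn.mono hCU)).isBounded
    obtain ⟨S, hS⟩ := hbd.exists_norm_le
    have hgR : ∀ w : ℂ, S + 1 ≤ ‖w‖ → g w = w := by
      intro w hw
      change Φ (x (Ψ w)) = w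
      rw [hCf, h1]
      intro h
      have := hS (Φ (Ψ w)) ⟨_, h, rfl⟩
      rw [h1] at this
      linarith
    refine ⟨⟨g, hgs, hgs', S + 1, hgR⟩, ?_⟩
    ext1
    ext1 z
    change trFun U Φ Ψ g z = x z
    by_cases hz : z ∈ U
    · simp only [trFun, hz, if_true]
      change Ψ (Φ (x (Ψ (Φ z)))) = x z
      rw [h2 z hz, h2 _ (hxU z hz)]
    · simp only [trFun, hz, if_false]
      exact (hCf z (fun h => hz (hCU h))).symm

theorem commutator_diffC_eq_top {E : Type*} [Group E] (p : E →* DiffC)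
    (hp : Function.Surjective p) (hE : commutator E = ⊤) : commutator DiffC = ⊤ := by
  rw [eq_top_iff]
  have h := Subgroup.map_commutator (⊤ : Subgroup E) ⊤ p
  rw [← commutator_def, hE, ← MonoidHom.range_eq_map, MonoidHom.range_eq_top.mpr hp] at h
  rw [commutator_def, ← h]

theorem hom_eq_one_of_perfect {G A : Type*} [Group G] [Group A] (χ : G →* A)
    (hcomm : ∀ a b, χ a * χ b = χ b * χ a) (hG : commutator G = ⊤) (g : G) : χ g = 1 := by
  have h1 : commutator G ≤ χ.ker := by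
    rw [commutator_eq_closure, Subgroup.closure_le]
    rintro x ⟨a, b, rfl⟩
    simp only [SetLike.mem_coe, MonoidHom.mem_ker, map_commutatorElement]
    exact commutatorElement_eq_one_iff_mul_comm.mpr (hcomm a b)
  rw [hG] at h1
  exact MonoidHom.mem_ker.mp (h1 (Subgroup.mem_top g))

/-- In a perfect central extension of `DiffC`, lifts of elements supported in a chart `U` commute
with lifts of elements which fix `U` pointwise. -/
theorem commute_of_chart {E : Type*} [Group E] (p : E →* DiffC)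
    (hp : Function.Surjective p) (hc : p.ker ≤ Subgroup.center E) (hE : commutator E = ⊤)
    {U : Set ℂ} (hU : IsChart U) (x y : E) (hx : SuppIn U (p x : Equiv.Perm ℂ))
    (hy : ∀ z ∈ U, (p y : Equiv.Perm ℂ) z = z) : x * y = y * x := by
  obtain ⟨T, hT1, hT2⟩ := exists_transport hU
  have hcomm : ∀ e : E, SuppIn U (p e : Equiv.Perm ℂ) → ⁅e, y⁆ ∈ p.ker := by
    intro e he
    rw [MonoidHom.mem_ker, map_commutatorElement, commutatorElement_eq_one_iff_mul_comm]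
    ext1
    exact perm_comm_of_fix U _ _ (fun z hz => he.fix hz) hy
  have hcent : ∀ e : E, SuppIn U (p e : Equiv.Perm ℂ) → ∀ a : E, a * ⁅e, y⁆ = ⁅e, y⁆ * a := by
    intro e he a
    exact (Subgroup.mem_center_iff.mp (hc (hcomm e he)) a)
  choose l hl using fun g : DiffC => hp (T g)
  have hker : ∀ a b : E, p a = p b → ∃ k : E, (∀ c, c * k = k * c) ∧ a = k * b := by
    intro a b hab
    refine ⟨a * b⁻¹, fun c => ?_, by group⟩
    have : a * b⁻¹ ∈ p.ker := by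
      rw [MonoidHom.mem_ker, map_mul, map_inv, hab, mul_inv_cancel]
    exact Subgroup.mem_center_iff.mp (hc this) c
  have hkc : ∀ k a : E, (∀ c, c * k = k * c) → ⁅k * a, y⁆ = ⁅a, y⁆ := by
    intro k a hk
    rw [commutatorElement_def, commutatorElement_def, mul_inv_rev]
    calc k * a * y * (a⁻¹ * k⁻¹) * y⁻¹ = k * (a * y * a⁻¹) * k⁻¹ * y⁻¹ := by group
      _ = (a * y * a⁻¹) * k * k⁻¹ * y⁻¹ := by rw [hk]
      _ = a * y * a⁻¹ * y⁻¹ := by group
  let χ : DiffC →* E :=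
    { toFun := fun g => ⁅l g, y⁆
      map_one' := by
        obtain ⟨k, hk, hk'⟩ := hker (l 1) 1 (by rw [hl, map_one, map_one])
        rw [hk', hkc k 1 hk, commutatorElement_one_left]
      map_mul' := by
        intro g h
        obtain ⟨k, hk, hk'⟩ := hker (l (g * h)) (l g * l h) (by rw [map_mul, hl, hl, hl, map_mul])
        rw [hk', hkc k _ hk]
        have h3 := hcent (l h) (by rw [hl]; exact hT1 h)
        have h4 : ⁅l g * l h, y⁆ = l g * ⁅l h, y⁆ * (l g)⁻¹ * ⁅l g, y⁆ := by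
          simp only [commutatorElement_def]; group
        rw [h4, h3 (l g)]
        have h5 := h3 ⁅l g, y⁆
        rw [h5]; group }
  have hχ : ∀ g, ⁅l g, y⁆ = 1 := by
    intro g
    refine hom_eq_one_of_perfect χ ?_ (commutator_diffC_eq_top p hp hE) g
    intro a b
    exact hcent (l b) (by rw [hl]; exact hT1 b) _
  obtain ⟨g, hg⟩ := hT2 (p x) hx
  obtain ⟨k, hk, hk'⟩ := hker x (l g) (by rw [hl, hg])
  have h6 : ⁅x, y⁆ = 1 := by
    rw [hk', hkc k _ hk, hχ g]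
  exact commutatorElement_eq_one_iff_mul_comm.mp h6

end Pool.Agent.H45F
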