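import Pool.Agent.H45F.Rot

set_option autoImplicit false

open scoped ContDiff NNReal commutatorElement Manifold
open Set

namespace Pool.Agent.H45F

/-- the closed bounded sector -/
def KSec (ζ : ℂ) (a b φ : ℝ) : Set ℂ := {z | a ≤ ‖z‖ ∧ ‖z‖ ≤ b ∧ |Complex.arg (z / ζ)| ≤ φ}

theorem arg_polar {r y : ℝ} (hr : 0 < r) (hy : |y| < Real.pi) :
    Complex.arg ((r : ℂ) * Complex.exp (y * Complex.I)) = y := by
  rw [abs_lt] at hy
  rw [Complex.exp_mul_I]
  exact Complex.arg_mul_cos_add_sin_mul_I hr ⟨hy.1, hy.2.le⟩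

theorem norm_polar {r y : ℝ} (hr : 0 ≤ r) :
    ‖(r : ℂ) * Complex.exp (y * Complex.I)‖ = r := by
  rw [norm_mul, Complex.norm_exp_ofReal_mul_I, mul_one, Complex.norm_real, Real.norm_eq_abs,
    abs_of_nonneg hr]

theorem polar_eq (z : ℂ) : ((‖z‖ : ℝ) : ℂ) * Complex.exp (Complex.arg z * Complex.I) = z :=
  Complex.norm_mul_exp_arg_mul_I z

theorem isCompact_kSec {ζ : ℂ} {a b φ : ℝ} (hζ : ‖ζ‖ = 1) (ha : 0 < a) (hφ : φ < Real.pi) :
    IsCompact (KSec ζ a b φ) := by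
  have hζ0 := ne_zero_of_norm_one hζ
  have h : KSec ζ a b φ = (fun q : ℝ × ℝ => ζ * ((q.1 : ℂ) * Complex.exp (q.2 * Complex.I))) ''
      (Icc a b ×ˢ Icc (-φ) φ) := by
    ext z
    constructor
    · rintro ⟨h1, h2, h3⟩
      refine ⟨(‖z‖, Complex.arg (z / ζ)), ⟨⟨h1, h2⟩, abs_le.mp h3⟩, ?_⟩
      have h4 := polar_eq (z / ζ)
      rw [norm_div, hζ, div_one] at h4
      change ζ * (((‖z‖ : ℝ) : ℂ) * Complex.exp (Complex.arg (z / ζ) * Complex.I)) = z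
      rw [h4, mul_div_cancel₀ _ hζ0]
    · rintro ⟨⟨r, y⟩, ⟨⟨h1, h2⟩, h3⟩, rfl⟩
      simp only at h1 h2 h3
      have hr : 0 < r := lt_of_lt_of_le ha h1
      have hy : |y| ≤ φ := abs_le.mpr h3
      refine ⟨?_, ?_, ?_⟩
      · change a ≤ ‖ζ * ((r : ℂ) * Complex.exp (y * Complex.I))‖
        rw [norm_mul, hζ, one_mul, norm_polar hr.le]; exact h1
      · change ‖ζ * ((r : ℂ) * Complex.exp (y * Complex.I))‖ ≤ b
        rw [norm_mul, hζ, one_mul, norm_polar hr.le]; exact h2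
      · change |Complex.arg (ζ * ((r : ℂ) * Complex.exp (y * Complex.I)) / ζ)| ≤ φ
        rw [mul_div_cancel_left₀ _ hζ0, arg_polar hr (lt_of_le_of_lt hy hφ)]
        exact hy
  rw [h]
  apply (isCompact_Icc.prod isCompact_Icc).image
  fun_prop

theorem contDiffAt_arg {z : ℂ} (hz : z ∈ Complex.slitPlane) :
    ContDiffAt ℝ ∞ (fun w : ℂ => Complex.arg w) z := by
  have h3 : ContDiffAt ℝ ∞ Complex.log z := (Complex.contDiffAt_log hz).restrict_scalars ℝ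
  have h4 : ContDiffAt ℝ ∞ (fun w : ℂ => (Complex.log w).im) z :=
    Complex.imCLM.contDiff.contDiffAt.comp z h3
  refine h4.congr_of_eventuallyEq ?_
  filter_upwards with w
  rw [Complex.log_im]

theorem exists_cutoff {a b φ : ℝ} (ha : 0 < a) (hφ0 : 0 < φ) (hφ : φ < Real.pi) :
    ∃ (χ : ℂ → ℝ) (φ' : ℝ), φ' < Real.pi ∧ ContDiff ℝ ∞ χ ∧
      (∀ z ∈ KSec 1 a b φ, χ z = 1) ∧ ∀ z, z ∉ KSec 1 (a / 2) (b + 1) φ' → χ z = 0 := by
  obtain ⟨φ', h1, h2⟩ := exists_between hφ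
  have hs : IsClosed (Sec 1 (a / 2) (b + 1) φ')ᶜ :=
    (isOpen_sec norm_one (by positivity) h2.le).isClosed_compl
  have ht : IsClosed (KSec 1 a b φ) := (isCompact_kSec norm_one ha hφ).isClosed
  have hd : Disjoint (Sec 1 (a / 2) (b + 1) φ')ᶜ (KSec 1 a b φ) := by
    rw [Set.disjoint_left]
    intro z hz hz'
    exact hz ⟨by linarith [hz'.1], by linarith [hz'.2.1], lt_of_le_of_lt hz'.2.2 h1⟩
  obtain ⟨χ, hχ, -, hχ0, hχ1⟩ :=
    exists_contMDiff_zero_iff_one_iff_of_isClosed (𝓘(ℝ, ℂ)) hs ht hd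
  refine ⟨χ, φ', h2, hχ.contDiff, fun z hz => (hχ1 z).mp hz, fun z hz => ?_⟩
  refine (hχ0 z).mp (fun h => hz ⟨h.1.le, h.2.1.le, h.2.2.le⟩)

theorem exists_half {a b φ : ℝ} (ha : 0 < a) (hφ0 : 0 < φ) (hφ : φ < Real.pi) :
    ∃ f : Equiv.Perm ℂ, f ∈ DiffC ∧
      ∀ z ∈ KSec 1 a b φ, f z = ‖z‖ * Complex.exp ((Complex.arg z / 2 : ℝ) * Complex.I) := by
  obtain ⟨χ, φ', hφ', hχ, hχ1, hχ0⟩ := exists_cutoff (b := b) ha hφ0 hφ
  let Λ : ℂ → ℂ := fun z => ((χ z : ℝ) : ℂ) * (((-Complex.arg z : ℝ) : ℂ) * Complex.I)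
  have hΛ : ContDiff ℝ ∞ Λ := by
    rw [contDiff_iff_contDiffAt]
    intro z
    by_cases hz : z ∈ KSec 1 (a / 2) (b + 1) φ'
    · have hsl : z ∈ Complex.slitPlane := by
        rw [Complex.mem_slitPlane_iff_arg]
        refine ⟨fun h => ?_, fun h => ?_⟩
        · have h1 := hz.2.2
          rw [div_one, h, abs_of_pos Real.pi_pos] at h1
          linarith
        · have h1 := hz.1
          rw [h, norm_zero] at h1
          linarith
      have h1 : ContDiffAt ℝ ∞ (fun w : ℂ => ((χ w : ℝ) : ℂ)) z :=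
        Complex.ofRealCLM.contDiff.contDiffAt.comp z hχ.contDiffAt
      have h2 : ContDiffAt ℝ ∞ (fun w : ℂ => ((-Complex.arg w : ℝ) : ℂ)) z :=
        Complex.ofRealCLM.contDiff.contDiffAt.comp z (contDiffAt_arg hsl).neg
      exact h1.mul (h2.mul contDiffAt_const)
    · have hcl : IsClosed (KSec 1 (a / 2) (b + 1) φ') :=
        (isCompact_kSec norm_one (by positivity) hφ').isClosed
      refine (contDiffAt_const (c := (0 : ℂ))).congr_of_eventuallyEq ?_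
      filter_upwards [hcl.isOpen_compl.mem_nhds hz] with w hw
      simp [Λ, hχ0 w hw]
  have hΛ0 : ∀ z : ℂ, b + 2 ≤ ‖z‖ → Λ z = 0 := by
    intro z hz
    have h1 : χ z = 0 := hχ0 z (fun h => by linarith [h.2.1])
    simp [Λ, h1]
  obtain ⟨δ₀, hδ₀, hδ⟩ := exists_expMap Λ hΛ (b + 2) hΛ0
  set δ₁ : ℝ := min δ₀ (1 / 2) with hδ₁
  have hδ₁0 : 0 < δ₁ := lt_min hδ₀ (by norm_num)
  have hδ₁h : δ₁ ≤ 1 / 2 := min_le_right _ _
  obtain ⟨n, hn⟩ := exists_pow_lt_of_lt_one (show (0 : ℝ) < 1 / 2 by norm_num)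
    (show 1 - δ₁ < 1 by linarith)
  have hn0 : n ≠ 0 := by
    rintro rfl
    rw [pow_zero] at hn
    linarith
  have hnR : (n : ℝ) ≠ 0 := by exact_mod_cast hn0
  set ρ : ℝ := (1 / 2 : ℝ) ^ (1 / (n : ℝ)) with hρ
  have hρ0 : 0 < ρ := by rw [hρ]; positivity
  have hρn : ρ ^ n = 1 / 2 := by
    rw [hρ, ← Real.rpow_natCast, ← Real.rpow_mul (by norm_num), one_div_mul_cancel hnR,
      Real.rpow_one]
  have hρ1 : ρ < 1 := by
    by_contra h
    have := one_le_pow₀ (n := n) (not_lt.mp h)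
    rw [hρn] at this
    linarith
  have hρδ : 1 - δ₁ ≤ ρ := by
    by_contra h
    have := pow_lt_pow_left₀ (not_le.mp h) hρ0.le hn0
    rw [hρn] at this
    linarith
  obtain ⟨f, hf, hfz⟩ := hδ (1 - ρ) (by
    rw [abs_of_pos (by linarith)]
    exact le_trans (by linarith) (min_le_left δ₀ (1 / 2)))
  -- one step
  have hstep : ∀ r y : ℝ, a ≤ r → r ≤ b → |y| ≤ φ →
      f ((r : ℂ) * Complex.exp (y * Complex.I)) = (r : ℂ) * Complex.exp ((ρ * y : ℝ) * Complex.I) := by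
    intro r y h1 h2 h3
    have hr : 0 < r := lt_of_lt_of_le ha h1
    have harg : Complex.arg ((r : ℂ) * Complex.exp (y * Complex.I)) = y :=
      arg_polar hr (lt_of_le_of_lt h3 hφ)
    have hmem : (r : ℂ) * Complex.exp (y * Complex.I) ∈ KSec 1 a b φ := by
      refine ⟨by rw [norm_polar hr.le]; exact h1, by rw [norm_polar hr.le]; exact h2, ?_⟩
      rw [div_one, harg]; exact h3
    rw [hfz]
    simp only [Λ]
    rw [hχ1 _ hmem, harg, mul_assoc, ← Complex.exp_add]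
    congr 2
    push_cast
    ring
  have hiter : ∀ k : ℕ, ∀ r y : ℝ, a ≤ r → r ≤ b → |y| ≤ φ →
      (f ^ k) ((r : ℂ) * Complex.exp (y * Complex.I)) =
        (r : ℂ) * Complex.exp ((ρ ^ k * y : ℝ) * Complex.I) := by
    intro k
    induction k with
    | zero => intro r y _ _ _; simp
    | succ k ih =>
      intro r y h1 h2 h3
      have h4 : |ρ ^ k * y| ≤ φ := by
        rw [abs_mul, abs_of_pos (pow_pos hρ0 k)]
        calc ρ ^ k * |y| ≤ 1 * |y| :=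
              mul_le_mul_of_nonneg_right (pow_le_one₀ hρ0.le hρ1.le) (abs_nonneg _)
          _ ≤ φ := by rw [one_mul]; exact h3
      rw [pow_succ', Equiv.Perm.mul_apply, ih r y h1 h2 h3, hstep r _ h1 h2 h4]
      congr 3
      push_cast
      ring
  refine ⟨f ^ n, DiffC.pow_mem hf n, fun z hz => ?_⟩
  have h5 := hiter n ‖z‖ (Complex.arg z) hz.1 hz.2.1 (by simpa using hz.2.2)
  rw [polar_eq, hρn] at h5
  rw [h5]
  congr 3
  push_cast
  ring

/-- the branch map -/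
theorem exists_branch {ζ η : ℂ} (hζ : ‖ζ‖ = 1) (hη : ‖η‖ = 1) {a b φ : ℝ} (ha : 0 < a)
    (hφ0 : 0 < φ) (hφ : φ < Real.pi) :
    ∃ f : Equiv.Perm ℂ, f ∈ DiffC ∧
      ∀ z ∈ KSec ζ a b φ, f z = η * (‖z‖ * Complex.exp ((Complex.arg (z / ζ) / 2 : ℝ) * Complex.I)) := by
  have hζ0 := ne_zero_of_norm_one hζ
  obtain ⟨f, hf, hfz⟩ := exists_half (b := b) ha hφ0 hφ
  obtain ⟨g, hg, hgz⟩ := exists_rotation (Complex.arg ζ⁻¹) b
  obtain ⟨h, hh, hhz⟩ := exists_rotation (Complex.arg η) b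
  refine ⟨h * f * g, DiffC.mul_mem (DiffC.mul_mem hh hf) hg, fun z hz => ?_⟩
  have e1 : Complex.exp (Complex.arg ζ⁻¹ * Complex.I) = ζ⁻¹ := by
    have := polar_eq ζ⁻¹
    rw [norm_inv, hζ, inv_one, Complex.ofReal_one, one_mul] at this
    exact this
  have e2 : Complex.exp (Complex.arg η * Complex.I) = η := by
    have := polar_eq η
    rw [hη, Complex.ofReal_one, one_mul] at this
    exact this
  have h1 : g z = z / ζ := by
    rw [hgz z hz.2.1, e1, div_eq_mul_inv]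
  have h2 : z / ζ ∈ KSec 1 a b φ := by
    refine ⟨?_, ?_, ?_⟩
    · rw [norm_div, hζ, div_one]; exact hz.1
    · rw [norm_div, hζ, div_one]; exact hz.2.1
    · rw [div_one]; exact hz.2.2
  rw [Equiv.Perm.mul_apply, Equiv.Perm.mul_apply, h1, hfz _ h2, norm_div, hζ, div_one]
  rw [hhz _ (by rw [norm_polar (norm_nonneg _)]; exact hz.2.1), e2]
  ring

end Pool.Agent.H45F
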