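import Mathlib

set_option autoImplicit false

open scoped ContDiff

namespace Pool.Agent.H45F

/-- The group of compactly supported smooth diffeomorphisms of the plane `ℂ = ℝ²`, as a
subgroup of the group of all permutations of the plane. -/
def DiffC : Subgroup (Equiv.Perm ℂ) where
  carrier := {f | ContDiff ℝ ∞ (fun z => f z) ∧ ContDiff ℝ ∞ (fun z => f.symm z) ∧
    ∃ R : ℝ, ∀ z : ℂ, R ≤ ‖z‖ → f z = z}
  mul_mem' := by
    rintro f g ⟨hf, hf', R, hR⟩ ⟨hg, hg', S, hS⟩
    refine ⟨hf.comp hg, hg'.comp hf', max R S, fun z hz => ?_⟩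
    rw [Equiv.Perm.mul_apply, hS z (le_trans (le_max_right _ _) hz),
      hR z (le_trans (le_max_left _ _) hz)]
  one_mem' := by
    refine ⟨contDiff_id, contDiff_id, 0, fun z _ => rfl⟩
  inv_mem' := by
    rintro f ⟨hf, hf', R, hR⟩
    refine ⟨hf', hf, R, fun z hz => ?_⟩
    rw [Equiv.Perm.inv_eq_iff_eq, hR z hz]

end Pool.Agent.H45F
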