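import Pool.Agent.H45F.Twist

set_option autoImplicit false

open scoped ContDiff NNReal commutatorElement
open Set

namespace Pool.Agent.H45F

/-- the diffeomorphisms which commute with all rotations about the origin and are the identity off
the annulus `a ≤ |z| ≤ b` -/
def Equi (a b : ℝ) : Subgroup DiffC where
  carrier := {f | (∀ c z : ℂ, ‖c‖ = 1 → (f : Equiv.Perm ℂ) (c * z) = c * (f : Equiv.Perm ℂ) z) ∧
    ∀ z : ℂ, ¬ (a ≤ ‖z‖ ∧ ‖z‖ ≤ b) → (f : Equiv.Perm ℂ) z = z}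
  mul_mem' := by
    rintro f g ⟨hf1, hf2⟩ ⟨hg1, hg2⟩
    refine ⟨fun c z hc => ?_, fun z hz => ?_⟩
    · change (f : Equiv.Perm ℂ) ((g : Equiv.Perm ℂ) (c * z)) =
        c * (f : Equiv.Perm ℂ) ((g : Equiv.Perm ℂ) z)
      rw [hg1 c z hc, hf1 c _ hc]
    · change (f : Equiv.Perm ℂ) ((g : Equiv.Perm ℂ) z) = z
      rw [hg2 z hz, hf2 z hz]
  one_mem' := ⟨fun _ _ _ => rfl, fun _ _ => rfl⟩
  inv_mem' := by
    rintro f ⟨hf1, hf2⟩
    refine ⟨fun c z hc => ?_, fun z hz => ?_⟩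
    · change ((f : Equiv.Perm ℂ)⁻¹) (c * z) = c * ((f : Equiv.Perm ℂ)⁻¹) z
      rw [Equiv.Perm.inv_eq_iff_eq, hf1 c _ hc]
      change c * z = c * (f : Equiv.Perm ℂ) ((f : Equiv.Perm ℂ).symm z)
      rw [Equiv.apply_symm_apply]
    · change ((f : Equiv.Perm ℂ)⁻¹) z = z
      rw [Equiv.Perm.inv_eq_iff_eq, hf2 z hz]

theorem Equi.zero {a b : ℝ} (ha : 0 < a) {f : DiffC} (hf : f ∈ Equi a b) :
    (f : Equiv.Perm ℂ) 0 = 0 := by
  apply hf.2
  rw [norm_zero]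
  intro h
  linarith [h.1]

theorem Equi.polar {a b : ℝ} {f : DiffC} (hf : f ∈ Equi a b) {z : ℂ} (hz : z ≠ 0) :
    (f : Equiv.Perm ℂ) z = z * ((f : Equiv.Perm ℂ) (‖z‖ : ℂ) / (‖z‖ : ℂ)) := by
  have hn : (‖z‖ : ℂ) ≠ 0 := by exact_mod_cast (norm_ne_zero_iff.mpr hz)
  have h1 := hf.1 (z / (‖z‖ : ℂ)) (‖z‖ : ℂ) (by
    rw [norm_div, Complex.norm_real, norm_norm, div_self (norm_ne_zero_iff.mpr hz)])
  rw [div_mul_cancel₀ _ hn] at h1
  rw [h1]
  field_simp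

theorem Equi.norm_eq {a b : ℝ} {f : DiffC} (hf : f ∈ Equi a b) {z : ℂ} (hz : z ≠ 0) :
    ‖(f : Equiv.Perm ℂ) z‖ = ‖(f : Equiv.Perm ℂ) (‖z‖ : ℂ)‖ := by
  have hn : ‖z‖ ≠ 0 := norm_ne_zero_iff.mpr hz
  rw [Equi.polar hf hz, norm_mul, norm_div, Complex.norm_real, norm_norm]
  field_simp

/-- the radial function of an equivariant diffeomorphism, in logarithmic coordinates -/
noncomputable def lr (f : DiffC) (t : ℝ) : ℝ := Real.log ‖(f : Equiv.Perm ℂ) (Real.exp t : ℂ)‖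

theorem exp_ne (t : ℝ) : (Real.exp t : ℂ) ≠ 0 := by exact_mod_cast (Real.exp_pos t).ne'

theorem Equi.ne_zero {a b : ℝ} (ha : 0 < a) {f : DiffC} (hf : f ∈ Equi a b) {z : ℂ}
    (hz : z ≠ 0) : (f : Equiv.Perm ℂ) z ≠ 0 := by
  intro h
  rw [← Equi.zero ha hf] at h
  exact hz ((f : Equiv.Perm ℂ).injective h)

theorem smooth_exp_ray (f : DiffC) :
    ContDiff ℝ ∞ (fun t : ℝ => (f : Equiv.Perm ℂ) (Real.exp t : ℂ)) :=
  f.2.1.comp (Complex.ofRealCLM.contDiff.comp Real.contDiff_exp)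

theorem lr_smooth {a b : ℝ} (ha : 0 < a) {f : DiffC} (hf : f ∈ Equi a b) :
    ContDiff ℝ ∞ (lr f) := by
  rw [contDiff_iff_contDiffAt]
  intro t
  have h0 := Equi.ne_zero ha hf (exp_ne t)
  have h1 : ContDiffAt ℝ ∞ (fun w : ℂ => ‖w‖) ((f : Equiv.Perm ℂ) (Real.exp t : ℂ)) :=
    contDiffAt_norm ℝ h0
  have h2 := ContDiffAt.comp t h1 (smooth_exp_ray f).contDiffAt
  exact ContDiffAt.comp t (Real.contDiffAt_log.mpr (norm_ne_zero_iff.mpr h0)) h2

theorem lr_lr {a b : ℝ} (ha : 0 < a) {f : DiffC} (hf : f ∈ Equi a b) (t : ℝ) :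
    lr f⁻¹ (lr f t) = t := by
  have h0 := Equi.ne_zero ha hf (exp_ne t)
  have hf' : f⁻¹ ∈ Equi a b := (Equi a b).inv_mem hf
  unfold lr
  rw [Real.exp_log (norm_pos_iff.mpr h0), ← Equi.norm_eq hf' h0]
  have h1 : ((f⁻¹ : DiffC) : Equiv.Perm ℂ) ((f : Equiv.Perm ℂ) (Real.exp t : ℂ)) =
      (Real.exp t : ℂ) := by
    change (f : Equiv.Perm ℂ).symm _ = _
    rw [Equiv.symm_apply_apply]
  rw [h1, Complex.norm_real, Real.norm_eq_abs, abs_of_pos (Real.exp_pos t), Real.log_exp]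

theorem lr_out {a b : ℝ} {f : DiffC} (hf : f ∈ Equi a b) (t : ℝ)
    (ht : ¬ (a ≤ Real.exp t ∧ Real.exp t ≤ b)) : lr f t = t := by
  unfold lr
  rw [hf.2 _ (by rwa [Complex.norm_real, Real.norm_eq_abs, abs_of_pos (Real.exp_pos t)]),
    Complex.norm_real, Real.norm_eq_abs, abs_of_pos (Real.exp_pos t), Real.log_exp]

theorem lr_deriv_pos {a b : ℝ} (ha : 0 < a) {f : DiffC} (hf : f ∈ Equi a b) (t : ℝ) :
    0 < deriv (lr f) t := by
  have hs := lr_smooth ha hf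
  have hs' := lr_smooth ha ((Equi a b).inv_mem hf)
  have hne : ∀ t, deriv (lr f) t ≠ 0 := by
    intro t h0
    have h1 : HasDerivAt (lr f) (deriv (lr f) t) t := (hs.differentiable (by simp) t).hasDerivAt
    have h2 : HasDerivAt (lr f⁻¹) (deriv (lr f⁻¹) (lr f t)) (lr f t) :=
      (hs'.differentiable (by simp) _).hasDerivAt
    have h3 := h2.comp t h1
    have h4 : lr f⁻¹ ∘ lr f = id := by ext s; exact lr_lr ha hf s
    rw [h4] at h3
    have h5 := h3.unique (hasDerivAt_id t)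
    rw [h0, mul_zero] at h5
    exact zero_ne_one h5
  by_contra hcon
  push Not at hcon
  have hcont : Continuous (deriv (lr f)) := hs.continuous_deriv (by simp)
  set B : ℝ := max (Real.log b) 0 + 1 with hB
  have hout : ∀ s, B - 1 < s → lr f s = s := by
    intro s hs
    apply lr_out hf
    rintro ⟨-, h2⟩
    have h3 : s ≤ Real.log b := by
      rw [Real.le_log_iff_exp_le (lt_of_lt_of_le (Real.exp_pos s) h2)]
      exact h2
    have h4 := le_max_left (Real.log b) 0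
    linarith
  have h1 : deriv (lr f) B = 1 := by
    have h2 : lr f =ᶠ[nhds B] id := by
      filter_upwards [lt_mem_nhds (show B - 1 < B by linarith)] with s hs
      exact hout s hs
    rw [h2.deriv_eq, deriv_id]
  obtain ⟨s, hs⟩ := mem_range_of_exists_le_of_exists_ge hcont ⟨t, hcon⟩
    ⟨B, by rw [h1]; exact zero_le_one⟩
  exact hne s hs

end Pool.Agent.H45F
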