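import Pool.Agent.H45F.Equi

set_option autoImplicit false

open scoped ContDiff NNReal commutatorElement
open Set

namespace Pool.Agent.H45F

/-- a logarithm of the ray function -/
theorem equi_log {a b : ℝ} (ha : 0 < a) {f : DiffC} (hf : f ∈ Equi a b) :
    ∃ (n : ℤ) (l : ℝ → ℂ), ContDiff ℝ ∞ l ∧
      (∀ t, t < Real.log a → l t = n * (2 * Real.pi * Complex.I)) ∧
      (∀ t, b < Real.exp t → l t = 0) ∧
      ∀ t, (f : Equiv.Perm ℂ) (Real.exp t : ℂ) = (Real.exp t : ℂ) * Complex.exp (l t) := by
  set F : ℝ → ℂ := fun t => (f : Equiv.Perm ℂ) (Real.exp t : ℂ) / (Real.exp t : ℂ) with hF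
  have hFs : ContDiff ℝ ∞ F := by
    rw [contDiff_iff_contDiffAt]
    intro t
    have h1 : ContDiff ℝ ∞ (fun t : ℝ => (Real.exp t : ℂ)) :=
      Complex.ofRealCLM.contDiff.comp Real.contDiff_exp
    have h2 := (smooth_exp_ray f).contDiffAt.mul (h1.contDiffAt.inv (x := t) (exp_ne t))
    exact h2
  have hFne : ∀ t, F t ≠ 0 := fun t => div_ne_zero (Equi.ne_zero ha hf (exp_ne t)) (exp_ne t)
  have hFout : ∀ t, ¬ (a ≤ Real.exp t ∧ Real.exp t ≤ b) → F t = 1 := by
    intro t ht
    rw [hF]
    change (f : Equiv.Perm ℂ) (Real.exp t : ℂ) / (Real.exp t : ℂ) = 1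
    rw [hf.2 _ (by rwa [Complex.norm_real, Real.norm_eq_abs, abs_of_pos (Real.exp_pos t)]),
      div_self (exp_ne t)]
  have hF's : ContDiff ℝ ∞ (deriv F) := (contDiff_infty_iff_deriv.mp hFs).2
  set G : ℝ → ℂ := fun t => deriv F t / F t with hG
  have hGs : ContDiff ℝ ∞ G := by
    rw [contDiff_iff_contDiffAt]
    intro t
    exact hF's.contDiffAt.mul (hFs.contDiffAt.inv (hFne t))
  have hG0 : ∀ U : Set ℝ, IsOpen U → (∀ t ∈ U, F t = 1) → ∀ t ∈ U, G t = 0 := by
    intro U hU hU1 t ht
    have h1 : F =ᶠ[nhds t] fun _ => 1 := by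
      filter_upwards [hU.mem_nhds ht] with s hs
      exact hU1 s hs
    rw [hG]
    change deriv F t / F t = 0
    rw [h1.deriv_eq, deriv_const, zero_div]
  set A := Real.log a with hA
  have hexpA : Real.exp A = a := Real.exp_log ha
  set T : ℝ := max (Real.log b) A + 1 with hT
  have hR : ∀ t, b < Real.exp t → F t = 1 := fun t ht => hFout t (fun h => by linarith [h.2])
  have hL : ∀ t, t < A → F t = 1 := fun t ht => hFout t (fun h => by
    have := Real.exp_lt_exp.mpr ht
    rw [hexpA] at this
    linarith [h.1])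
  have hRo : IsOpen {t : ℝ | b < Real.exp t} := isOpen_lt continuous_const Real.continuous_exp
  have hTb : b < Real.exp T := by
    by_cases hb : 0 < b
    · rw [← Real.log_lt_iff_lt_exp hb]
      linarith [le_max_left (Real.log b) A]
    · exact lt_of_le_of_lt (not_lt.mp hb) (Real.exp_pos T)
  set l : ℝ → ℂ := fun t => ∫ s in T..t, G s with hl
  have hGc : Continuous G := hGs.continuous
  have hld : ∀ t, HasDerivAt l (G t) t := fun t => (hGc.integral_hasStrictDerivAt T t).hasDerivAt
  have hls : ContDiff ℝ ∞ l := by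
    rw [contDiff_infty_iff_deriv]
    refine ⟨fun t => (hld t).differentiableAt, ?_⟩
    have : deriv l = G := funext fun t => (hld t).deriv
    rw [this]
    exact hGs
  have hlT : l T = 0 := by rw [hl]; exact intervalIntegral.integral_same
  have hexp : ∀ t, F t = Complex.exp (l t) := by
    intro t
    have h1 : ∀ s t, F s * Complex.exp (-l s) = F t * Complex.exp (-l t) := by
      apply is_const_of_deriv_eq_zero (f := fun s => F s * Complex.exp (-l s))
      · intro s
        exact ((hFs.differentiable (by simp) s)).mul (hld s).neg.cexp.differentiableAt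
      · intro s
        have h2 : HasDerivAt F (deriv F s) s := (hFs.differentiable (by simp) s).hasDerivAt
        have h3 := h2.mul (hld s).neg.cexp
        have h4 : deriv F s * Complex.exp (-l s) + F s * (Complex.exp (-l s) * -G s) = 0 := by
          rw [hG]
          change deriv F s * Complex.exp (-l s) +
            F s * (Complex.exp (-l s) * -(deriv F s / F s)) = 0
          have := hFne s
          field_simp
          ring
        exact h3.deriv.trans h4
    have h2 := h1 t T
    rw [hlT, neg_zero, Complex.exp_zero, hR T hTb, mul_one, Complex.exp_neg] at h2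
    exact (mul_inv_eq_one₀ (Complex.exp_ne_zero _)).mp h2
  have hlR : ∀ t, b < Real.exp t → l t = 0 := by
    intro t ht
    rw [hl]
    change ∫ s in T..t, G s = 0
    rw [intervalIntegral.integral_congr (g := fun _ => 0)]
    · exact intervalIntegral.integral_zero
    · intro s hs
      apply hG0 _ hRo hR
      change b < Real.exp s
      have h1 : min T t ≤ s := hs.1
      refine lt_of_lt_of_le ?_ (Real.exp_le_exp.mpr h1)
      rcases min_choice T t with h | h <;> rw [h]
      · exact hTb
      · exact ht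
  obtain ⟨n, hn⟩ : ∃ n : ℤ, l (A - 1) = n * (2 * Real.pi * Complex.I) := by
    apply Complex.exp_eq_one_iff.mp
    rw [← hexp, hL _ (by linarith)]
  refine ⟨n, l, hls, ?_, hlR, ?_⟩
  · intro t ht
    rw [← hn]
    have h1 : l t = l (A - 1) + ∫ s in (A - 1)..t, G s :=
      (intervalIntegral.integral_add_adjacent_intervals (hGc.intervalIntegrable _ _)
        (hGc.intervalIntegrable _ _)).symm
    rw [h1, intervalIntegral.integral_congr (g := fun _ => 0)]
    · rw [intervalIntegral.integral_zero, add_zero]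
    · intro s hs
      apply hG0 (Iio A) isOpen_Iio (fun t ht => hL t ht)
      change s < A
      refine lt_of_le_of_lt hs.2 ?_
      exact max_lt (by linarith) ht
  · intro t
    rw [← hexp]
    rw [hF]
    change _ = (Real.exp t : ℂ) * ((f : Equiv.Perm ℂ) (Real.exp t : ℂ) / (Real.exp t : ℂ))
    rw [mul_div_cancel₀]
    exact exp_ne t

/-- every rotation equivariant diffeomorphism of the annulus is a product of one with an exponent
and of a power of a Dehn twist -/
theorem equi_decomp {a b : ℝ} (ha : 0 < a) (hab : a < b) (D : DiffC)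
    (hD : (D : Equiv.Perm ℂ) = twP (hD (Real.log a) (Real.log b))) {f : DiffC}
    (hf : f ∈ Equi a b) :
    ∃ (n : ℤ) (x : Rad (Real.log a) (Real.log b)), f = Rad.toGr x * D ^ n := by
  obtain ⟨n, l, hls, hlL, hlR, hexp⟩ := equi_log ha hf
  have hb : 0 < b := lt_trans ha hab
  have hAB : Real.log a < Real.log b := Real.log_lt_log ha hab
  have hT := hD_tw hAB
  set h := Pool.Agent.H45F.hD (Real.log a) (Real.log b) with hh
  set x₁ : ℝ → ℂ := fun t => l t - ((n * h t : ℝ) : ℂ) * Complex.I with hx₁
  have hxs : ContDiff ℝ ∞ x₁ := hls.sub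
    ((Complex.ofRealCLM.contDiff.comp (contDiff_const.mul hT.smooth)).mul contDiff_const)
  have hgg : gg x₁ = lr f := by
    funext t
    unfold gg lr
    rw [hexp, norm_mul, Complex.norm_exp, Real.log_mul (norm_ne_zero_iff.mpr (exp_ne t))
      (Real.exp_pos _).ne', Real.log_exp, Complex.norm_real, Real.norm_eq_abs,
      abs_of_pos (Real.exp_pos t), Real.log_exp, hx₁]
    change t + (l t - ((n * h t : ℝ) : ℂ) * Complex.I).re = _
    rw [Complex.sub_re, Complex.re_ofReal_mul, Complex.I_re]
    ring
  have hX : XP (Real.log a) (Real.log b) x₁ := by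
    refine XP.of_deriv hxs ?_ ?_
    · intro t ht
      rw [hx₁]
      change l t - ((n * h t : ℝ) : ℂ) * Complex.I = 0
      rcases lt_or_ge t (Real.log a) with h1 | h1
      · rw [hlL t h1, hT.left t h1]
        push_cast
        ring
      · have h2 : Real.log b < t := by
          by_contra h3
          exact ht ⟨h1, not_lt.mp h3⟩
        rw [hlR t (by rwa [← Real.log_lt_iff_lt_exp hb]), hT.right t h2]
        simp
    · intro t
      rw [hgg]
      exact lr_deriv_pos ha hf t
  obtain ⟨x₂, hx₂⟩ : ∃ x : Rad (Real.log a) (Real.log b), x.1 = x₁ := ⟨⟨x₁, hX⟩, rfl⟩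
  refine ⟨n, x₂, ?_⟩
  apply diffC_ext
  intro z
  have h2 : ((D ^ n : DiffC) : Equiv.Perm ℂ) = twP (fun t => n * h t) := by
    rw [← twP_zpow, ← hD]
    exact SubgroupClass.coe_zpow D n
  have h3 : ((Rad.toGr x₂ * D ^ n : DiffC) : Equiv.Perm ℂ) z =
      ((Rad.toGr x₂ : DiffC) : Equiv.Perm ℂ) (((D ^ n : DiffC) : Equiv.Perm ℂ) z) := rfl
  rw [h3, h2, twP_apply, Rad.toGr_apply, hx₂]
  by_cases hz : z = 0
  · rw [hz, Equi.zero ha hf]
    unfold tw
    rw [zero_mul, zero_mul]
  · have hnz : ‖z‖ ≠ 0 := norm_ne_zero_iff.mpr hz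
    have hnz' : (‖z‖ : ℂ) ≠ 0 := by exact_mod_cast hnz
    have h4 := norm_tw (fun t => n * h t) z
    have h5 : tw (fun t => n * h t) z ≠ 0 := by
      rw [← norm_ne_zero_iff, h4]; exact hnz
    unfold radL
    rw [if_neg h5, h4, Equi.polar hf hz]
    have h6 := hexp (Real.log ‖z‖)
    rw [Real.exp_log (norm_pos_iff.mpr hz)] at h6
    rw [h6, mul_div_cancel_left₀ _ hnz']
    unfold tw
    change _ = z * Complex.exp (((n * h (Real.log ‖z‖) : ℝ) : ℂ) * Complex.I) *
      Complex.exp (l (Real.log ‖z‖) - ((n * h (Real.log ‖z‖) : ℝ) : ℂ) * Complex.I)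
    rw [mul_assoc, ← Complex.exp_add]
    congr 2
    ring

end Pool.Agent.H45F
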