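import Pool.Agent.H45F.Equi2

set_option autoImplicit false

open scoped ContDiff NNReal commutatorElement
open Set

namespace Pool.Agent.H45F

/-- enlarging the annulus -/
def Rad.incl {A B B' : ℝ} (h : B ≤ B') (x : Rad A B) : Rad A B' :=
  ⟨x.1, ⟨x.2.smooth, fun t ht => x.2.supp t (fun h' => ht ⟨h'.1, h'.2.trans h⟩), x.2.pos⟩⟩

theorem Rad.toGr_incl {A B B' : ℝ} (h : B ≤ B') (x : Rad A B) :
    Rad.toGr (Rad.incl h x) = Rad.toGr x := by
  apply diffC_ext
  intro z
  rfl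

theorem Equi.mono {a b b' : ℝ} (h : b ≤ b') : Equi a b ≤ Equi a b' := by
  rintro f ⟨h1, h2⟩
  exact ⟨h1, fun z hz => h2 z (fun h' => hz ⟨h'.1, h'.2.trans h⟩)⟩

theorem equi_split_aux {E : Type*} [Group E] (p : E →* DiffC) (hp : Function.Surjective p)
    (hc : p.ker ≤ Subgroup.center E) (hE : commutator E = ⊤) {a b : ℝ} (ha : 0 < a)
    (hab : a < b) : ∃ s : Equi a b →* E, ∀ f, p (s f) = f := by
  have hb : 0 < b := lt_trans ha hab
  set A := Real.log a with hA
  set B := Real.log b with hB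
  set B1 := Real.log (b + 1) with hB1
  set B2 := Real.log (b + 2) with hB2
  have eB : Real.exp B = b := Real.exp_log hb
  have eB1 : Real.exp B1 = b + 1 := Real.exp_log (by linarith)
  have hAB : A < B := Real.log_lt_log ha hab
  have hBB1 : B < B1 := Real.log_lt_log hb (by linarith)
  have hB12 : B1 < B2 := Real.log_lt_log (by linarith) (by linarith)
  have hBB2 : B ≤ B2 := (hBB1.trans hB12).le
  have hT := hD_tw hAB
  have hT1 := hD_tw hB12
  obtain ⟨D, hDv⟩ : ∃ D : DiffC, (D : Equiv.Perm ℂ) = twP (hD A B) := ⟨⟨_, hT.mem⟩, rfl⟩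
  obtain ⟨D1, hD1v⟩ : ∃ D : DiffC, (D : Equiv.Perm ℂ) = twP (hD B1 B2) := ⟨⟨_, hT1.mem⟩, rfl⟩
  -- the difference of the two full turns
  obtain ⟨x0, hx0⟩ : ∃ x : Rad A B2,
      x.1 = fun t => ((hD A B t - hD B1 B2 t : ℝ) : ℂ) * Complex.I := by
    refine ⟨⟨_, XP.of_deriv ?_ ?_ ?_⟩, rfl⟩
    · exact (Complex.ofRealCLM.contDiff.comp (hT.smooth.sub hT1.smooth)).mul contDiff_const
    · intro t ht
      rcases lt_or_ge t A with h1 | h1
      · rw [hT.left t h1, hT1.left t (by linarith)]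
        simp
      · have h2 : B2 < t := by
          by_contra h3
          exact ht ⟨h1, not_lt.mp h3⟩
        rw [hT.right t (by linarith), hT1.right t h2]
        simp
    · intro t
      have h1 : gg (fun t => ((hD A B t - hD B1 B2 t : ℝ) : ℂ) * Complex.I) = id := by
        funext s
        unfold gg
        rw [Complex.re_ofReal_mul, Complex.I_re, mul_zero, add_zero]
        rfl
      rw [h1, deriv_id]
      exact one_pos
  have hx0D : Rad.toGr x0 * D1 = D := by
    apply diffC_ext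
    intro z
    have h1 : ((Rad.toGr x0 * D1 : DiffC) : Equiv.Perm ℂ) z =
      ((Rad.toGr x0 : DiffC) : Equiv.Perm ℂ) ((D1 : Equiv.Perm ℂ) z) := rfl
    rw [h1, hD1v, hDv, twP_apply, twP_apply, Rad.toGr_apply, hx0]
    by_cases hz : z = 0
    · rw [hz]; unfold tw; simp
    · have h4 := norm_tw (hD B1 B2) z
      have h5 : tw (hD B1 B2) z ≠ 0 := by
        rw [← norm_ne_zero_iff, h4]; exact norm_ne_zero_iff.mpr hz
      unfold radL
      rw [if_neg h5, h4]
      unfold tw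
      rw [mul_assoc, ← Complex.exp_add]
      congr 2
      push_cast
      ring
  have hx0D' : Commute (Rad.toGr x0) D1 := by
    have h1 : D * D1 = D1 * D := by
      apply Subtype.ext
      change (D : Equiv.Perm ℂ) * (D1 : Equiv.Perm ℂ) = (D1 : Equiv.Perm ℂ) * (D : Equiv.Perm ℂ)
      rw [hDv, hD1v, twP_comm]
    have h2 : Rad.toGr x0 = D * D1⁻¹ := by rw [← hx0D, mul_inv_cancel_right]
    rw [h2]
    exact (Commute.mul_left (show Commute D D1 from h1) ((Commute.refl D1).inv_left))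
  obtain ⟨s2, hs2⟩ := rad_split p A B2 hp hc hE (by linarith)
  obtain ⟨e1, he1⟩ := hp D1
  have hcomm : ∀ y : Rad A B, s2 (Rad.incl hBB2 y) * e1 = e1 * s2 (Rad.incl hBB2 y) := by
    intro y
    refine commute_of_chart p hp hc hE (isChart_ball 0 (show (0 : ℝ) < b + 1 by linarith)) _ _
      ?_ ?_
    · refine ⟨Metric.closedBall 0 b, isCompact_closedBall 0 b,
        Metric.closedBall_subset_ball (by linarith), fun z hz => ?_⟩
      rw [hs2, Rad.toGr_incl, Rad.toGr_apply, radL_out y.2, Complex.exp_zero, mul_one]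
      rintro ⟨-, h2⟩
      rw [eB] at h2
      exact hz (mem_closedBall_zero_iff.mpr h2)
    · intro z hz
      rw [he1, hD1v, twP_apply]
      apply hT1.fix_left
      rw [eB1]
      exact mem_ball_zero_iff.mp hz
  set eD := s2 x0 * e1 with heD
  have hpD : p eD = D := by rw [heD, map_mul, hs2, he1, hx0D]
  have hconj : ∀ (n : ℤ) (y : Rad A B), eD ^ n * s2 (Rad.incl hBB2 y) * (eD ^ n)⁻¹ =
      s2 (x0 ^ n * Rad.incl hBB2 y * (x0 ^ n)⁻¹) := by
    intro n y
    set Y := s2 (Rad.incl hBB2 y) with hY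
    set M := s2 x0 ^ n * e1 ^ n with hM
    have h1 : p (eD ^ n * M⁻¹) = 1 := by
      rw [map_mul, map_inv, hM, map_mul, map_zpow, map_zpow, map_zpow, hpD, hs2, he1,
        ← hx0D'.mul_zpow, hx0D, mul_inv_cancel]
    have h2 : ∀ x, x * (eD ^ n * M⁻¹) = (eD ^ n * M⁻¹) * x := fun x =>
      Subgroup.mem_center_iff.mp (hc (MonoidHom.mem_ker.mpr h1)) x
    have h3 : e1 ^ n * Y = Y * e1 ^ n :=
      ((show Commute Y e1 from hcomm y).zpow_right n).symm
    have h4 : eD ^ n = (eD ^ n * M⁻¹) * M := by rw [inv_mul_cancel_right]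
    have h5 : eD ^ n * Y * (eD ^ n)⁻¹ = M * Y * M⁻¹ := by
      generalize eD ^ n * M⁻¹ = κ at h2 h4
      rw [h4]
      calc κ * M * Y * (κ * M)⁻¹ = κ * (M * Y * M⁻¹) * κ⁻¹ := by group
        _ = (M * Y * M⁻¹) * κ * κ⁻¹ := by rw [h2]
        _ = M * Y * M⁻¹ := by rw [mul_inv_cancel_right]
    rw [h5, map_mul, map_mul, map_inv, map_zpow, ← hY, hM]
    calc s2 x0 ^ n * e1 ^ n * Y * (s2 x0 ^ n * e1 ^ n)⁻¹
        = s2 x0 ^ n * (e1 ^ n * Y) * (e1 ^ n)⁻¹ * (s2 x0 ^ n)⁻¹ := by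
          rw [mul_inv_rev]; simp only [mul_assoc]
      _ = s2 x0 ^ n * (Y * e1 ^ n) * (e1 ^ n)⁻¹ * (s2 x0 ^ n)⁻¹ := by rw [h3]
      _ = s2 x0 ^ n * Y * (s2 x0 ^ n)⁻¹ := by
          simp only [mul_assoc, mul_inv_cancel_left]
  have hconj' : ∀ (n : ℤ) (y : Rad A B), D ^ n * Rad.toGr y * (D ^ n)⁻¹ =
      Rad.toGr (x0 ^ n * Rad.incl hBB2 y * (x0 ^ n)⁻¹) := by
    intro n y
    have h1 := congrArg p (hconj n y)
    rw [hs2, map_mul, map_mul, map_inv, map_zpow, hpD, hs2, Rad.toGr_incl] at h1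
    exact h1
  have hdec : ∀ f : Equi a b, ∃ (n : ℤ) (x : Rad A B), (f : DiffC) = Rad.toGr x * D ^ n :=
    fun f => equi_decomp ha hab D hDv f.2
  choose N X hNX using hdec
  refine ⟨MonoidHom.mk' (fun f => s2 (Rad.incl hBB2 (X f)) * eD ^ N f) (fun f g => ?_), fun f => ?_⟩
  · have h1 : Rad.toGr (X (f * g)) * D ^ N (f * g) =
        Rad.toGr (X f) * D ^ N f * (Rad.toGr (X g) * D ^ N g) := by
      rw [← hNX, ← hNX, ← hNX]
      rfl
    have h2 := hconj' (N f) (X g)
    have h3 := hconj (N f) (X g)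
    set z := x0 ^ N f * Rad.incl hBB2 (X g) * (x0 ^ N f)⁻¹ with hz
    have h4 : Rad.toGr (X (f * g)) * D ^ N (f * g) =
        Rad.toGr (X f) * Rad.toGr z * D ^ (N f + N g) := by
      rw [h1, ← h2, zpow_add]
      group
    have h5 : Rad.toGr ((Rad.incl hBB2 (X f) * z)⁻¹ * Rad.incl hBB2 (X (f * g))) =
        D ^ (N f + N g - N (f * g)) := by
      rw [map_mul, map_inv, map_mul, Rad.toGr_incl, Rad.toGr_incl, zpow_sub, inv_mul_eq_iff_eq_mul,
        ← mul_assoc, ← h4, mul_inv_cancel_right]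
    obtain ⟨h6, h7⟩ := toGr_eq_zpow hAB D hDv _ _ h5
    have h8 : Rad.incl hBB2 (X (f * g)) = Rad.incl hBB2 (X f) * z := (inv_mul_eq_one.mp h7).symm
    have h9 : N (f * g) = N f + N g := by omega
    change s2 (Rad.incl hBB2 (X (f * g))) * eD ^ N (f * g) =
      s2 (Rad.incl hBB2 (X f)) * eD ^ N f * (s2 (Rad.incl hBB2 (X g)) * eD ^ N g)
    rw [h8, h9, map_mul, ← h3, zpow_add]
    group
  · change p (s2 (Rad.incl hBB2 (X f)) * eD ^ N f) = f
    rw [map_mul, map_zpow, hpD, hs2, Rad.toGr_incl, ← hNX]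

/-- **Splitting**: a perfect central extension of the group of compactly supported diffeomorphisms
of the plane splits over the rotation equivariant diffeomorphisms supported in an annulus. -/
theorem equi_split {E : Type*} [Group E] (p : E →* DiffC) (hp : Function.Surjective p)
    (hc : p.ker ≤ Subgroup.center E) (hE : commutator E = ⊤) {a b : ℝ} (ha : 0 < a) :
    ∃ s : Equi a b →* E, ∀ f, p (s f) = f := by
  obtain ⟨s, hs⟩ := equi_split_aux p hp hc hE (b := max b (a + 1)) ha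
    (lt_of_lt_of_le (by linarith) (le_max_right b (a + 1)))
  refine ⟨s.comp (Subgroup.inclusion (Equi.mono (le_max_left b (a + 1)))), fun f => ?_⟩
  change p (s _) = _
  rw [hs]
  rfl

end Pool.Agent.H45F
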