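import Pool.Agent.H45F.Fam

set_option autoImplicit false

open scoped ContDiff NNReal
open Set

namespace Pool.Agent.H45F

section words

variable {H Q : Type*} [Group H] [Group Q] (c : H → Q)

/-- transport along a discrete path -/
def W (m : ℕ → H) : ℕ → Q
  | 0 => 1
  | n + 1 => W m n * c ((m n)⁻¹ * m (n + 1))

theorem W_congr {m m' : ℕ → H} {n : ℕ} (h : ∀ i ≤ n, m i = m' i) : W c m n = W c m' n := by
  induction n with
  | zero => rfl
  | succ n ih =>
    change W c m n * c _ = W c m' n * c _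
    rw [ih (fun i hi => h i (by omega)), h n (by omega), h (n + 1) le_rfl]

variable {c} {N : Set H}

theorem W_translate (x : H) (m : ℕ → H) (n : ℕ) : W c (fun j => x * m j) n = W c m n := by
  induction n with
  | zero => rfl
  | succ n ih =>
    change W c (fun j => x * m j) n * c _ = W c m n * c _
    rw [ih]
    congr 2
    group

theorem W_const (hc1 : c 1 = 1) (n : ℕ) : W c (fun _ => 1) n = 1 := by
  induction n with
  | zero => rfl
  | succ n ih =>
    change W c (fun _ => 1) n * c _ = 1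
    rw [ih, inv_one, mul_one, hc1, mul_one]

theorem W_grid (hc : ∀ x ∈ N, ∀ y ∈ N, c (x * y) = c x * c y) (M : ℕ → ℕ → H) (n : ℕ)
    (ha : ∀ i < n, ∀ j ≤ n, (M i j)⁻¹ * M (i + 1) j ∈ N)
    (hb : ∀ i ≤ n, ∀ j < n, (M i j)⁻¹ * M i (j + 1) ∈ N) :
    W c (fun i => M i 0) n * W c (fun j => M n j) n =
      W c (fun j => M 0 j) n * W c (fun i => M i n) n := by
  have hcell : ∀ i < n, ∀ j < n, c ((M i j)⁻¹ * M (i + 1) j) * c ((M (i + 1) j)⁻¹ * M (i + 1) (j + 1)) =
      c ((M i j)⁻¹ * M i (j + 1)) * c ((M i (j + 1))⁻¹ * M (i + 1) (j + 1)) := by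
    intro i hi j hj
    rw [← hc _ (ha i hi j (by omega)) _ (hb (i + 1) (by omega) j hj),
      ← hc _ (hb i (by omega) j hj) _ (ha i hi (j + 1) (by omega))]
    congr 1
    group
  have hrow : ∀ j < n, ∀ k ≤ n, W c (fun i => M i j) k * c ((M k j)⁻¹ * M k (j + 1)) =
      c ((M 0 j)⁻¹ * M 0 (j + 1)) * W c (fun i => M i (j + 1)) k := by
    intro j hj k
    induction k with
    | zero => intro _; change 1 * _ = _ * 1; rw [one_mul, mul_one]
    | succ k ih =>
      intro hk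
      change W c (fun i => M i j) k * c ((M k j)⁻¹ * M (k + 1) j) * _ =
        _ * (W c (fun i => M i (j + 1)) k * c ((M k (j + 1))⁻¹ * M (k + 1) (j + 1)))
      rw [mul_assoc, hcell k (by omega) j hj, ← mul_assoc, ih (by omega), mul_assoc]
  have hfin : ∀ l ≤ n, W c (fun i => M i 0) n * W c (fun j => M n j) l =
      W c (fun j => M 0 j) l * W c (fun i => M i l) n := by
    intro l
    induction l with
    | zero => intro _; change _ * 1 = 1 * _; rw [one_mul, mul_one]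
    | succ l ih =>
      intro hl
      change W c (fun i => M i 0) n * (W c (fun j => M n j) l * c ((M n l)⁻¹ * M n (l + 1))) =
        W c (fun j => M 0 j) l * c ((M 0 l)⁻¹ * M 0 (l + 1)) * W c (fun i => M i (l + 1)) n
      rw [← mul_assoc, ih (by omega), mul_assoc, hrow l (by omega) n le_rfl, mul_assoc]
  exact hfin n le_rfl

theorem W_refine (hc : ∀ x ∈ N, ∀ y ∈ N, c (x * y) = c x * c y) (hc1 : c 1 = 1) (m : ℕ → H)
    (n k : ℕ)
    (hN : ∀ i < n, ∀ j ≤ k, (m (k * i))⁻¹ * m (k * i + j) ∈ N)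
    (hN' : ∀ i < n, ∀ j < k, (m (k * i + j))⁻¹ * m (k * i + j + 1) ∈ N) :
    W c m (k * n) = W c (fun i => m (k * i)) n := by
  have hblock : ∀ i < n, ∀ j ≤ k, W c m (k * i + j) =
      W c m (k * i) * c ((m (k * i))⁻¹ * m (k * i + j)) := by
    intro i hi j
    induction j with
    | zero => intro _; rw [add_zero, inv_mul_cancel, hc1, mul_one]
    | succ j ih =>
      intro hj
      change W c m (k * i + j) * c ((m (k * i + j))⁻¹ * m (k * i + j + 1)) = _
      rw [ih (by omega), mul_assoc, ← hc _ (hN i hi j (by omega)) _ (hN' i hi j (by omega))]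
      congr 2
      group
  induction n with
  | zero => rfl
  | succ n ih =>
    have h1 := hblock n (by omega) k le_rfl
    have h2 : k * (n + 1) = k * n + k := by ring
    change _ = W c (fun i => m (k * i)) n * c ((m (k * n))⁻¹ * m (k * (n + 1)))
    rw [h2, h1, ih (fun i hi => hN i (by omega)) (fun i hi => hN' i (by omega))
      (fun i hi => hblock i (by omega))]

end words

namespace Rad

variable {A B : ℝ}

/-- clamping to `[0,1]` -/
noncomputable def cl (s : ℝ) : ℝ := max 0 (min 1 s)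

theorem cl_nonneg (s : ℝ) : 0 ≤ cl s := le_max_left _ _

theorem cl_le (s : ℝ) : cl s ≤ 1 := max_le zero_le_one (min_le_left _ _)

theorem cl_eq {s : ℝ} (hs : s ∈ Icc (0 : ℝ) 1) : cl s = s := by
  unfold cl
  rw [min_eq_right hs.2, max_eq_right hs.1]

/-- clamped scaling -/
noncomputable def scl (s : ℝ) (x : Rad A B) : Rad A B := sc (cl s) (cl_nonneg s) (cl_le s) x

theorem scl_val (s : ℝ) (x : Rad A B) (t : ℝ) : (scl s x).1 t = (cl s : ℂ) * x.1 t := rfl

theorem scl_zero (x : Rad A B) : scl 0 x = 1 := by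
  apply Subtype.ext
  funext t
  rw [scl_val, cl_eq ⟨le_rfl, zero_le_one⟩]
  simp [one_val]

theorem scl_one (x : Rad A B) : scl 1 x = x := by
  apply Subtype.ext
  funext t
  rw [scl_val, cl_eq ⟨zero_le_one, le_rfl⟩]
  simp

/-- the two parameter family -/
noncomputable def fam (x y : Rad A B) (q : ℝ × ℝ) : Rad A B := scl q.1 (x * scl q.2 y)

theorem fam_small (hAB : A < B) (x y : Rad A B) (δ : ℝ) (hδ : 0 < δ) :
    ∃ η : ℝ, 0 < η ∧ ∀ p ∈ sq, ∀ q ∈ sq, dist p q ≤ η → ((fam x y p)⁻¹ * fam x y q).Small δ := by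
  let Φ : (ℝ × ℝ) × ℝ → ℂ := fun w => (w.1.1 : ℂ) * ((w.1.2 : ℂ) * y.1 w.2 +
    x.1 (w.2 + w.1.2 * (y.1 w.2).re))
  have e1 : ContDiff ℝ ∞ (fun w : (ℝ × ℝ) × ℝ => w.1.1) := contDiff_fst.comp contDiff_fst
  have e2 : ContDiff ℝ ∞ (fun w : (ℝ × ℝ) × ℝ => w.1.2) := contDiff_snd.comp contDiff_fst
  have e3 : ContDiff ℝ ∞ (fun w : (ℝ × ℝ) × ℝ => w.2) := contDiff_snd
  have e4 : ContDiff ℝ ∞ (fun w : (ℝ × ℝ) × ℝ => y.1 w.2) := y.2.smooth.comp e3
  have e5 : ContDiff ℝ ∞ (fun w : (ℝ × ℝ) × ℝ => (y.1 w.2).re) := Complex.reCLM.contDiff.comp e4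
  have e6 : ContDiff ℝ ∞ (fun w : (ℝ × ℝ) × ℝ => ((w.1.1 : ℝ) : ℂ)) :=
    Complex.ofRealCLM.contDiff.comp e1
  have e7 : ContDiff ℝ ∞ (fun w : (ℝ × ℝ) × ℝ => ((w.1.2 : ℝ) : ℂ)) :=
    Complex.ofRealCLM.contDiff.comp e2
  have hΦ : ContDiff ℝ ∞ Φ :=
    e6.mul ((e7.mul e4).add (x.2.smooth.comp (e3.add (e2.mul e5))))
  refine family_small hAB Φ hΦ (fam x y) ?_ δ hδ
  rintro ⟨s, t⟩ ⟨hs, ht⟩ u
  simp only at hs ht
  change (scl s (x * scl t y)).1 u = (s : ℂ) * ((t : ℂ) * y.1 u + x.1 (u + t * (y.1 u).re))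
  rw [scl_val, cl_eq hs, mul_val, scl_val, cl_eq ht]
  congr 3
  unfold gg
  rw [scl_val, cl_eq ht, Complex.re_ofReal_mul]

end Rad

section ext

variable {E : Type*} [Group E] {p : E →* DiffC} {A B : ℝ}
  (S : Setup p (Real.exp A) (Real.exp B))

theorem Setup.cr_one : S.cr (1 : Rad A B) = 1 := by
  have h1 : (1 : Rad A B).Small S.thr := by
    intro s t
    rw [Rad.one_val, Rad.one_val, sub_zero, norm_zero]
    exact mul_nonneg S.thr_pos.le (abs_nonneg _)
  have h := S.cr_mul 1 1 h1 h1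
  rw [mul_one] at h
  exact mul_eq_left.mp h.symm

/-- the approximations -/
noncomputable def Setup.Cn (n : ℕ) (x : Rad A B) : S.D.Q :=
  W S.cr (fun i => Rad.scl ((i : ℝ) / n) x) n

theorem frac_mem {n i : ℕ} (hn : 0 < n) (hi : i ≤ n) : ((i : ℝ) / n) ∈ Icc (0 : ℝ) 1 := by
  have hn' : (0 : ℝ) < n := by exact_mod_cast hn
  refine ⟨by positivity, ?_⟩
  rw [div_le_one hn']
  exact_mod_cast hi

theorem Setup.grid_hom (hAB : A < B) (x y : Rad A B) :
    ∃ n₀ : ℕ, 0 < n₀ ∧ ∀ n ≥ n₀, S.Cn n x * S.Cn n y = S.Cn n (x * y) := by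
  obtain ⟨η, hη, hsm⟩ := Rad.fam_small hAB x y S.thr S.thr_pos
  obtain ⟨n₀, hn₀⟩ := exists_nat_gt (1 / η)
  refine ⟨n₀ + 1, by omega, fun n hn => ?_⟩
  have hn0 : 0 < n := by omega
  have hnR : (0 : ℝ) < n := by exact_mod_cast hn0
  have hnη : 1 / (n : ℝ) ≤ η := by
    rw [div_le_iff₀ hnR]
    rw [div_lt_iff₀ hη] at hn₀
    have : (n₀ : ℝ) ≤ n := by exact_mod_cast (by omega : n₀ ≤ n)
    nlinarith
  let M : ℕ → ℕ → Rad A B := fun i j => Rad.fam x y ((i : ℝ) / n, (j : ℝ) / n)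
  have hstep : ∀ i : ℕ, |((i : ℝ) / n) - (((i + 1 : ℕ) : ℝ) / n)| = 1 / n := by
    intro i
    push_cast
    rw [← sub_div, abs_div, abs_of_pos hnR]
    congr 1
    rw [sub_add_cancel_left, abs_neg, abs_one]
  have hgrid := W_grid (c := S.cr) (N := {z : Rad A B | z.Small S.thr})
    (fun a ha b hb => S.cr_mul a b ha hb) M n ?_ ?_
  · -- identify the four sides
    have s1 : W S.cr (fun i => M i 0) n = S.Cn n x := by
      unfold Setup.Cn
      apply W_congr
      intro i _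
      change Rad.scl ((i : ℝ) / n) (x * Rad.scl (((0 : ℕ) : ℝ) / n) y) = _
      rw [Nat.cast_zero, zero_div, Rad.scl_zero, mul_one]
    have s2 : W S.cr (fun j => M n j) n = S.Cn n y := by
      have h1 : W S.cr (fun j => M n j) n =
          W S.cr (fun j => x * Rad.scl ((j : ℝ) / n) y) n := by
        apply W_congr
        intro j _
        change Rad.scl ((n : ℝ) / n) (x * Rad.scl ((j : ℝ) / n) y) = _
        rw [div_self hnR.ne', Rad.scl_one]
      rw [h1, W_translate]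
      rfl
    have s3 : W S.cr (fun j => M 0 j) n = 1 := by
      have h1 : W S.cr (fun j => M 0 j) n = W S.cr (fun _ => 1) n := by
        apply W_congr
        intro j _
        change Rad.scl (((0 : ℕ) : ℝ) / n) (x * Rad.scl ((j : ℝ) / n) y) = 1
        rw [Nat.cast_zero, zero_div, Rad.scl_zero]
      rw [h1, W_const S.cr_one]
    have s4 : W S.cr (fun i => M i n) n = S.Cn n (x * y) := by
      unfold Setup.Cn
      apply W_congr
      intro i _
      change Rad.scl ((i : ℝ) / n) (x * Rad.scl ((n : ℝ) / n) y) = _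
      rw [div_self hnR.ne', Rad.scl_one]
    rw [s1, s2, s3, s4, one_mul] at hgrid
    exact hgrid
  · intro i hi j hj
    refine hsm _ ⟨frac_mem hn0 hi.le, frac_mem hn0 hj⟩ _ ⟨frac_mem hn0 hi, frac_mem hn0 hj⟩ ?_
    rw [Prod.dist_eq, dist_self, Real.dist_eq, max_eq_left (abs_nonneg _)]
    change |((i : ℝ) / n) - (((i + 1 : ℕ) : ℝ) / n)| ≤ η
    rw [hstep]; exact hnη
  · intro i hi j hj
    refine hsm _ ⟨frac_mem hn0 hi, frac_mem hn0 hj.le⟩ _ ⟨frac_mem hn0 hi, frac_mem hn0 hj⟩ ?_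
    rw [Prod.dist_eq, dist_self, Real.dist_eq, max_eq_right (abs_nonneg _)]
    change |((j : ℝ) / n) - (((j + 1 : ℕ) : ℝ) / n)| ≤ η
    rw [hstep]; exact hnη

/-- for fine subdivisions everything is small along a ray -/
theorem Setup.ray_small (hAB : A < B) (x : Rad A B) :
    ∃ η : ℝ, 0 < η ∧ ∀ s ∈ Icc (0 : ℝ) 1, ∀ t ∈ Icc (0 : ℝ) 1, |s - t| ≤ η →
      ((Rad.scl s x)⁻¹ * Rad.scl t x).Small S.thr := by
  obtain ⟨η, hη, hsm⟩ := Rad.fam_small hAB x 1 S.thr S.thr_pos
  refine ⟨η, hη, fun s hs t ht hst => ?_⟩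
  have h := hsm (s, 0) ⟨hs, ⟨le_rfl, zero_le_one⟩⟩ (t, 0) ⟨ht, ⟨le_rfl, zero_le_one⟩⟩ (by
    rw [Prod.dist_eq, dist_self, Real.dist_eq, max_eq_left (abs_nonneg _)]
    exact hst)
  have e : ∀ u : ℝ, Rad.fam x 1 (u, 0) = Rad.scl u x := by
    intro u
    change Rad.scl u (x * Rad.scl 0 1) = _
    rw [Rad.scl_zero, mul_one]
  rwa [e, e] at h

theorem Setup.stable (hAB : A < B) (x : Rad A B) :
    ∃ n₁ : ℕ, 0 < n₁ ∧ (∀ n ≥ n₁, ∀ k, 0 < k → S.Cn (k * n) x = S.Cn n x) ∧
      ∀ n ≥ n₁, S.Spec x (S.Cn n x) := by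
  obtain ⟨η, hη, hsm⟩ := S.ray_small hAB x
  obtain ⟨n₀, hn₀⟩ := exists_nat_gt (1 / η)
  have hnη : ∀ n : ℕ, n₀ + 1 ≤ n → 1 / (n : ℝ) ≤ η := by
    intro n hn
    have hnR : (0 : ℝ) < n := by exact_mod_cast (by omega : 0 < n)
    rw [div_le_iff₀ hnR]
    rw [div_lt_iff₀ hη] at hn₀
    have : (n₀ : ℝ) ≤ n := by exact_mod_cast (by omega : n₀ ≤ n)
    nlinarith
  refine ⟨n₀ + 1, by omega, ?_, ?_⟩
  · intro n hn k hk
    have hn0 : 0 < n := by omega
    have hkn : 0 < k * n := Nat.mul_pos hk hn0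
    have hnR : (0 : ℝ) < n := by exact_mod_cast hn0
    have hkR : (0 : ℝ) < k := by exact_mod_cast hk
    have hknR : (0 : ℝ) < ((k * n : ℕ) : ℝ) := by exact_mod_cast hkn
    have hfr : ∀ a b : ℕ, a ≤ b → b ≤ a + k → |((a : ℝ) / ((k * n : ℕ) : ℝ)) -
        ((b : ℝ) / ((k * n : ℕ) : ℝ))| ≤ η := by
      intro a b hab hba
      rw [← sub_div, abs_div, abs_of_pos hknR, abs_sub_comm,
        abs_of_nonneg (by have : (a : ℝ) ≤ b := by exact_mod_cast hab
                          linarith)]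
      refine le_trans ?_ (hnη n hn)
      rw [div_le_div_iff₀ hknR hnR]
      have h1 : (b : ℝ) ≤ a + k := by exact_mod_cast hba
      push_cast
      nlinarith
    have h := W_refine (c := S.cr) (N := {z : Rad A B | z.Small S.thr})
      (fun a ha b hb => S.cr_mul a b ha hb) S.cr_one
      (fun i => Rad.scl ((i : ℝ) / ((k * n : ℕ) : ℝ)) x) n k (by
        intro i hi j hj
        have hle : k * i + j ≤ k * n := by
          have : k * (i + 1) ≤ k * n := Nat.mul_le_mul_left k hi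
          rw [Nat.mul_add, Nat.mul_one] at this
          omega
        exact hsm _ (frac_mem hkn (by omega)) _ (frac_mem hkn hle) (hfr _ _ (by omega) (by omega)))
      (by
        intro i hi j hj
        have hle : k * i + j + 1 ≤ k * n := by
          have : k * (i + 1) ≤ k * n := Nat.mul_le_mul_left k hi
          rw [Nat.mul_add, Nat.mul_one] at this
          omega
        exact hsm _ (frac_mem hkn (by omega)) _ (frac_mem hkn hle) (hfr _ _ (by omega) (by omega)))
    unfold Setup.Cn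
    rw [h]
    apply W_congr
    intro i _
    congr 1
    push_cast
    field_simp
  · intro n hn
    have hn0 : 0 < n := by omega
    have hnR : (0 : ℝ) < n := by exact_mod_cast hn0
    have hind : ∀ k ≤ n, S.Spec ((Rad.scl (((0 : ℕ) : ℝ) / n) x)⁻¹ * Rad.scl ((k : ℝ) / n) x)
        (W S.cr (fun i => Rad.scl ((i : ℝ) / n) x) k) := by
      intro k
      induction k with
      | zero =>
        intro _
        rw [inv_mul_cancel]
        exact S.spec_one
      | succ k ih =>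
        intro hk
        have h1 := ih (by omega)
        have h2 : ((Rad.scl ((k : ℝ) / n) x)⁻¹ * Rad.scl (((k + 1 : ℕ) : ℝ) / n) x).Small S.thr := by
          refine hsm _ (frac_mem hn0 (by omega)) _ (frac_mem hn0 hk) ?_
          push_cast
          rw [← sub_div, abs_div, abs_of_pos hnR, sub_add_cancel_left, abs_neg, abs_one]
          exact hnη n hn
        have h3 := S.spec_mul h1 (S.cr_spec _ h2)
        have e : (Rad.scl (((0 : ℕ) : ℝ) / n) x)⁻¹ * Rad.scl ((k : ℝ) / n) x *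
            ((Rad.scl ((k : ℝ) / n) x)⁻¹ * Rad.scl (((k + 1 : ℕ) : ℝ) / n) x) =
            (Rad.scl (((0 : ℕ) : ℝ) / n) x)⁻¹ * Rad.scl (((k + 1 : ℕ) : ℝ) / n) x := by group
        rw [e] at h3
        exact h3
    have h4 := hind n le_rfl
    rw [Nat.cast_zero, zero_div, Rad.scl_zero, div_self hnR.ne', Rad.scl_one, inv_one,
      one_mul] at h4
    exact h4

/-- the global homomorphism -/
theorem Setup.exists_hom (hAB : A < B) :
    ∃ C : Rad A B →* S.D.Q, ∀ x, S.Spec x (C x) := by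
  choose n₁ hn₁ hst hsp using S.stable hAB
  have key : ∀ (x : Rad A B) (n : ℕ), n₁ x ≤ n → S.Cn n x = S.Cn (n₁ x) x := by
    intro x n hn
    have h1 := hst x n hn (n₁ x) (hn₁ x)
    have h2 := hst x (n₁ x) le_rfl n (by have := hn₁ x; omega)
    rw [← h1, mul_comm, h2]
  refine ⟨⟨⟨fun x => S.Cn (n₁ x) x, ?_⟩, ?_⟩, fun x => hsp x _ le_rfl⟩
  · obtain ⟨n₀, h0, h⟩ := S.grid_hom hAB (1 : Rad A B) 1
    set n := max n₀ (n₁ 1) with hn
    have h3 := h n (le_max_left _ _)
    rw [mul_one] at h3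
    have h4 := mul_eq_left.mp h3
    rw [key 1 n (le_max_right _ _)] at h4
    exact h4
  · intro x y
    obtain ⟨n₀, h0, h⟩ := S.grid_hom hAB x y
    set n := max n₀ (max (n₁ x) (max (n₁ y) (n₁ (x * y)))) with hn
    have a1 : n₁ x ≤ n := le_trans (le_max_left _ _) (le_max_right _ _)
    have a2 : n₁ y ≤ n :=
      le_trans (le_max_left _ _) (le_trans (le_max_right _ _) (le_max_right _ _))
    have a3 : n₁ (x * y) ≤ n :=
      le_trans (le_max_right _ _) (le_trans (le_max_right _ _) (le_max_right _ _))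
    have h3 := h n (le_max_left _ _)
    rw [key x n a1, key y n a2, key (x * y) n a3] at h3
    exact h3.symm

end ext

end Pool.Agent.H45F
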