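import Pool.Agent.H45F.Rad2

set_option autoImplicit false

open scoped ContDiff NNReal
open Set

namespace Pool.Agent.H45F

theorem Rad.Small.mono {A B δ δ' : ℝ} {x : Rad A B} (h : x.Small δ) (hd : δ ≤ δ') : x.Small δ' :=
  fun s t => le_trans (h s t) (mul_le_mul_of_nonneg_right hd (abs_nonneg _))

theorem XP.gg_mem {A B : ℝ} {f : ℝ → ℂ} (h : XP A B f) {t : ℝ} (ht : t ∈ Icc A B) :
    gg f t ∈ Icc A B := by
  by_contra hcon
  have h1 : h.gi (gg f t) = gg f t := h.gi_out hcon
  rw [h.gi_gg] at h1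
  rw [← h1] at hcon
  exact hcon ht

theorem XP.gi_mem {A B : ℝ} {f : ℝ → ℂ} (h : XP A B f) {t : ℝ} (ht : t ∈ Icc A B) :
    h.gi t ∈ Icc A B := by
  by_contra hcon
  have h1 : gg f (h.gi t) = h.gi t := h.gg_out hcon
  rw [h.gg_gi] at h1
  rw [← h1] at hcon
  exact hcon ht

theorem inc_small {A B : ℝ} (x y : Rad A B) (m K δ : ℝ) (hm : 0 < m) (hK : 0 ≤ K) (hδ : 0 ≤ δ)
    (h1 : ∀ t ∈ Icc A B, m ≤ 1 + (deriv x.1 t).re)
    (h2 : ∀ t ∈ Icc A B, ‖deriv x.1 t‖ ≤ K)
    (h3 : ∀ s ∈ Icc A B, ∀ t ∈ Icc A B, ‖deriv x.1 s - deriv x.1 t‖ ≤ K * |s - t|)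
    (h4 : ∀ t ∈ Icc A B, ‖y.1 t - x.1 t‖ ≤ δ)
    (h5 : ∀ t ∈ Icc A B, ‖deriv y.1 t - deriv x.1 t‖ ≤ δ) :
    (x⁻¹ * y).Small (δ * (1 + K / m + K * ((1 + K / m) / m))) := by
  set C : ℝ := 1 + K / m + K * ((1 + K / m) / m) with hC
  have hC0 : 0 ≤ C := by positivity
  let u : ℝ → ℝ := fun t => x.2.gi (gg y.1 t)
  have hu : ContDiff ℝ ∞ u := x.2.gi_smooth.comp (contDiff_gg y.2.smooth)
  have hud : ∀ t, HasDerivAt u (deriv u t) t := fun t =>
    (hu.differentiable (by simp) t).hasDerivAt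
  have hxd : ∀ t, HasDerivAt x.1 (deriv x.1 t) t := fun t =>
    (x.2.smooth.differentiable (by simp) t).hasDerivAt
  have hyd : ∀ t, HasDerivAt y.1 (deriv y.1 t) t := fun t =>
    (y.2.smooth.differentiable (by simp) t).hasDerivAt
  have hval : (x⁻¹ * y).1 = fun t => y.1 t - x.1 (u t) := by
    funext t
    exact Rad.inv_mul_val x y t
  have hder : ∀ t, HasDerivAt (fun t => y.1 t - x.1 (u t))
      (deriv y.1 t - (deriv u t) • deriv x.1 (u t)) t := by
    intro t
    exact (hyd t).sub ((hxd (u t)).scomp t (hud t))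
  have hrel : ∀ t, (1 + (deriv x.1 (u t)).re) * deriv u t = 1 + (deriv y.1 t).re := by
    intro t
    have a1 := (hasDerivAt_gg x.2.smooth (u t)).comp t (hud t)
    have a2 : (gg x.1 ∘ u) = gg y.1 := by
      funext s
      exact x.2.gg_gi _
    rw [a2] at a1
    exact a1.unique (hasDerivAt_gg y.2.smooth t)
  have hbound : ∀ t, ‖deriv (fun t => y.1 t - x.1 (u t)) t‖ ≤ δ * C := by
    intro t
    by_cases ht : t ∈ Icc A B
    · have hut : u t ∈ Icc A B := x.2.gi_mem (y.2.gg_mem ht)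
      rw [(hder t).deriv]
      -- distance between u t and t
      have d1 : |u t - t| ≤ δ / m := by
        have e1 : gg x.1 (u t) - gg x.1 t = (y.1 t - x.1 t).re := by
          have : gg x.1 (u t) = gg y.1 t := x.2.gg_gi _
          rw [this]
          unfold gg
          rw [Complex.sub_re]
          ring
        have e2 : |gg x.1 (u t) - gg x.1 t| ≤ δ := by
          rw [e1]
          exact le_trans (Complex.abs_re_le_norm _) (h4 t ht)
        have e3 := Convex.mul_sub_le_image_sub_of_le_deriv (convex_Icc A B)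
          (contDiff_gg x.2.smooth).continuous.continuousOn
          ((contDiff_gg x.2.smooth).differentiable (by simp)).differentiableOn
          (C := m) (by
            intro s hs
            rw [(hasDerivAt_gg x.2.smooth s).deriv]
            exact h1 s (interior_subset hs))
        rw [le_div_iff₀ hm]
        rcases le_total (u t) t with h | h
        · have e4 := e3 (u t) hut t ht h
          rw [abs_sub_comm, abs_of_nonneg (by linarith)]
          rw [abs_sub_comm] at e2
          have := le_trans (le_abs_self _) e2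
          linarith
        · have e4 := e3 t ht (u t) hut h
          rw [abs_of_nonneg (by linarith)]
          have := le_trans (le_abs_self _) e2
          linarith
      have d2 : ‖deriv x.1 t - deriv x.1 (u t)‖ ≤ K * (δ / m) := by
        refine le_trans (h3 t ht (u t) hut) ?_
        rw [abs_sub_comm]
        exact mul_le_mul_of_nonneg_left d1 hK
      have d3 : |deriv u t - 1| ≤ (δ + K * (δ / m)) / m := by
        have e1 : (1 + (deriv x.1 (u t)).re) * (deriv u t - 1) =
            (deriv y.1 t - deriv x.1 t).re + (deriv x.1 t - deriv x.1 (u t)).re := by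
          rw [Complex.sub_re, Complex.sub_re]
          linarith [hrel t]
        have e2 : |(1 + (deriv x.1 (u t)).re) * (deriv u t - 1)| ≤ δ + K * (δ / m) := by
          rw [e1]
          refine le_trans (abs_add_le _ _) ?_
          exact add_le_add (le_trans (Complex.abs_re_le_norm _) (h5 t ht))
            (le_trans (Complex.abs_re_le_norm _) d2)
        rw [abs_mul, abs_of_pos (lt_of_lt_of_le hm (h1 (u t) hut))] at e2
        rw [le_div_iff₀ hm]
        calc |deriv u t - 1| * m ≤ |deriv u t - 1| * (1 + (deriv x.1 (u t)).re) :=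
              mul_le_mul_of_nonneg_left (h1 (u t) hut) (abs_nonneg _)
          _ ≤ δ + K * (δ / m) := by linarith
      have e : deriv y.1 t - (deriv u t) • deriv x.1 (u t) =
          (deriv y.1 t - deriv x.1 t) + (deriv x.1 t - deriv x.1 (u t)) -
            ((deriv u t - 1 : ℝ) : ℂ) * deriv x.1 (u t) := by
        rw [Complex.real_smul]
        push_cast
        ring
      rw [e]
      refine le_trans (norm_sub_le _ _) ?_
      refine le_trans (add_le_add_left (norm_add_le _ _) _) ?_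
      rw [norm_mul, Complex.norm_real, Real.norm_eq_abs]
      have d4 : |deriv u t - 1| * ‖deriv x.1 (u t)‖ ≤ (δ + K * (δ / m)) / m * K :=
        mul_le_mul d3 (h2 (u t) hut) (norm_nonneg _) (by positivity)
      have d5 := h5 t ht
      have e6 : δ * C = δ + K * (δ / m) + (δ + K * (δ / m)) / m * K := by
        rw [hC]; field_simp
      rw [e6]
      linarith
    · have hev : (fun t => y.1 t - x.1 (u t)) =ᶠ[nhds t] fun _ => 0 := by
        have hopen : IsOpen (Icc A B)ᶜ := isClosed_Icc.isOpen_compl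
        filter_upwards [hopen.mem_nhds ht] with s hs
        have e1 : gg y.1 s = s := y.2.gg_out hs
        have e2 : u s = s := by
          change x.2.gi (gg y.1 s) = s
          rw [e1, x.2.gi_out hs]
        rw [e2, y.2.supp s hs, x.2.supp s hs, sub_zero]
      rw [hev.deriv_eq]
      simp only [deriv_const, norm_zero]
      positivity
  intro s t
  rw [hval]
  have hd : ∀ r ∈ (univ : Set ℝ), DifferentiableAt ℝ (fun t => y.1 t - x.1 (u t)) r :=
    fun r _ => (hder r).differentiableAt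
  have := Convex.norm_image_sub_le_of_norm_deriv_le hd (fun r _ => hbound r) convex_univ
    (mem_univ t) (mem_univ s)
  rwa [Real.norm_eq_abs] at this

/-- the unit square -/
def sq : Set (ℝ × ℝ) := Icc 0 1 ×ˢ Icc 0 1

theorem family_small {A B : ℝ} (hAB : A < B) (Φ : (ℝ × ℝ) × ℝ → ℂ) (hΦ : ContDiff ℝ ∞ Φ)
    (r : ℝ × ℝ → Rad A B) (hr : ∀ p ∈ sq, ∀ x, (r p).1 x = Φ (p, x)) (δ : ℝ) (hδ : 0 < δ) :
    ∃ η : ℝ, 0 < η ∧ ∀ p ∈ sq, ∀ q ∈ sq, dist p q ≤ η → ((r p)⁻¹ * r q).Small δ := by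
  let G : (ℝ × ℝ) × ℝ → ℂ := fun w => fderiv ℝ Φ w (0, 1)
  have hG : ContDiff ℝ ∞ G := by
    have h1 : ContDiff ℝ ∞ (fderiv ℝ Φ) := hΦ.fderiv_right (by simp)
    exact h1.clm_apply contDiff_const
  have hder : ∀ (p : ℝ × ℝ) (x : ℝ), HasDerivAt (fun y => Φ (p, y)) (G (p, x)) x := by
    intro p x
    have h1 : HasFDerivAt Φ (fderiv ℝ Φ (p, x)) (p, x) :=
      (hΦ.differentiable (by simp) (p, x)).hasFDerivAt
    have h2 : HasDerivAt (fun y : ℝ => (p, y)) ((0 : ℝ × ℝ), (1 : ℝ)) x :=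
      (hasDerivAt_const x p).prodMk (hasDerivAt_id x)
    exact h1.comp_hasDerivAt x h2
  have hdr : ∀ p ∈ sq, ∀ x, deriv (r p).1 x = G (p, x) := by
    intro p hp x
    have h1 : (r p).1 = fun y => Φ (p, y) := by funext y; exact hr p hp y
    rw [h1, (hder p x).deriv]
  set K₂ : Set ((ℝ × ℝ) × ℝ) := sq ×ˢ Icc A B with hK₂
  have hcomp : IsCompact K₂ := (isCompact_Icc.prod isCompact_Icc).prod isCompact_Icc
  have hconv : Convex ℝ K₂ := ((convex_Icc 0 1).prod (convex_Icc 0 1)).prod (convex_Icc A B)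
  obtain ⟨C₁, hC₁⟩ := ContDiffOn.exists_lipschitzOnWith hΦ.contDiffOn (by simp) hconv hcomp
  obtain ⟨C₂, hC₂⟩ := ContDiffOn.exists_lipschitzOnWith hG.contDiffOn (by simp) hconv hcomp
  obtain ⟨C₃, hC₃⟩ := hcomp.exists_bound_of_continuousOn hG.continuous.continuousOn
  have hne : K₂.Nonempty := ⟨((0, 0), A), by
    refine ⟨⟨⟨le_rfl, zero_le_one⟩, ⟨le_rfl, zero_le_one⟩⟩, ⟨le_rfl, hAB.le⟩⟩⟩
  obtain ⟨w₀, hw₀, hmin⟩ := hcomp.exists_isMinOn hne
    (f := fun w => 1 + (G w).re) (by
      exact (continuous_const.add (Complex.continuous_re.comp hG.continuous)).continuousOn)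
  set m : ℝ := 1 + (G w₀).re with hm
  have hmpos : 0 < m := by
    obtain ⟨p₀, x₀⟩ := w₀
    have h1 := (r p₀).2.pos x₀
    rw [hdr p₀ hw₀.1 x₀] at h1
    exact h1
  set K : ℝ := max C₂ (max C₃ 0) with hK
  have hK0 : 0 ≤ K := le_trans (le_max_right C₃ 0) (le_max_right _ _)
  set Cst : ℝ := 1 + K / m + K * ((1 + K / m) / m) with hCst
  have hCst0 : 0 < Cst := by positivity
  set D : ℝ := max (C₁ : ℝ) C₂ with hD
  have hD0 : 0 ≤ D := le_trans C₁.coe_nonneg (le_max_left _ _)
  refine ⟨δ / ((D + 1) * Cst), by positivity, ?_⟩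
  intro p hp q hq hpq
  have hmain := inc_small (r p) (r q) m K (D * dist p q) hmpos hK0 (by positivity) ?_ ?_ ?_ ?_ ?_
  · refine hmain.mono ?_
    calc D * dist p q * Cst ≤ (D + 1) * (δ / ((D + 1) * Cst)) * Cst := by
          apply mul_le_mul_of_nonneg_right _ hCst0.le
          apply mul_le_mul (by linarith) hpq dist_nonneg (by positivity)
      _ = δ := by field_simp
  · intro t ht
    rw [hdr p hp t]
    exact hmin (show (p, t) ∈ K₂ from ⟨hp, ht⟩)
  · intro t ht
    rw [hdr p hp t]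
    exact le_trans (hC₃ (p, t) ⟨hp, ht⟩) (le_trans (le_max_left C₃ 0) (le_max_right _ _))
  · intro s hs t ht
    rw [hdr p hp s, hdr p hp t]
    have h1 := hC₂.dist_le_mul (p, s) ⟨hp, hs⟩ (p, t) ⟨hp, ht⟩
    rw [dist_eq_norm] at h1
    have h2 : dist ((p, s) : (ℝ × ℝ) × ℝ) (p, t) = |s - t| := by
      rw [Prod.dist_eq, dist_self, Real.dist_eq]
      exact max_eq_right (abs_nonneg _)
    rw [h2] at h1
    exact le_trans h1 (mul_le_mul_of_nonneg_right (le_max_left _ _) (abs_nonneg _))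
  · intro t ht
    rw [hr q hq t, hr p hp t]
    have h1 := hC₁.dist_le_mul (q, t) ⟨hq, ht⟩ (p, t) ⟨hp, ht⟩
    rw [dist_eq_norm] at h1
    have h2 : dist ((q, t) : (ℝ × ℝ) × ℝ) (p, t) = dist p q := by
      rw [Prod.dist_eq, dist_self, dist_comm q p]
      exact max_eq_left dist_nonneg
    rw [h2] at h1
    exact le_trans h1 (mul_le_mul_of_nonneg_right (le_max_left _ _) dist_nonneg)
  · intro t ht
    rw [hdr q hq t, hdr p hp t]
    have h1 := hC₂.dist_le_mul (q, t) ⟨hq, ht⟩ (p, t) ⟨hp, ht⟩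
    rw [dist_eq_norm] at h1
    have h2 : dist ((q, t) : (ℝ × ℝ) × ℝ) (p, t) = dist p q := by
      rw [Prod.dist_eq, dist_self, dist_comm q p]
      exact max_eq_left dist_nonneg
    rw [h2] at h1
    exact le_trans h1 (mul_le_mul_of_nonneg_right (le_max_right _ _) dist_nonneg)

end Pool.Agent.H45F
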