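import Mathlib

set_option autoImplicit false

open scoped commutatorElement
open Set

namespace Pool.Agent.H45F

section abstract_part

variable {E G : Type*} [Group E] [Group G]

/-- the central subgroup `{(κ, κ²)}` -/
def diagSq (p : E →* G) (hc : p.ker ≤ Subgroup.center E) : Subgroup (E × E) where
  carrier := {q | q.1 ∈ p.ker ∧ q.2 = q.1 * q.1}
  mul_mem' := by
    rintro ⟨a, a'⟩ ⟨b, b'⟩ ⟨ha, ha'⟩ ⟨hb, hb'⟩
    simp only at ha ha' hb hb'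
    refine ⟨p.ker.mul_mem ha hb, ?_⟩
    have h1 : a * b = b * a := Subgroup.mem_center_iff.mp (hc hb) a
    simp only [Prod.mk_mul_mk]
    rw [ha', hb']
    calc a * a * (b * b) = a * (a * b) * b := by group
      _ = a * (b * a) * b := by rw [h1]
      _ = a * b * (a * b) := by group
  one_mem' := ⟨p.ker.one_mem, by simp⟩
  inv_mem' := by
    rintro ⟨a, a'⟩ ⟨ha, ha'⟩
    simp only at ha ha'
    refine ⟨p.ker.inv_mem ha, ?_⟩
    simp only [Prod.fst_inv, Prod.snd_inv]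
    rw [ha']; group

theorem diagSq_le_center (p : E →* G) (hc : p.ker ≤ Subgroup.center E) :
    diagSq p hc ≤ Subgroup.center (E × E) := by
  rintro ⟨a, a'⟩ ⟨ha, ha'⟩
  simp only at ha ha'
  rw [Subgroup.mem_center_iff]
  rintro ⟨b, b'⟩
  have h1 : ∀ c : E, c * a = a * c := fun c => Subgroup.mem_center_iff.mp (hc ha) c
  ext
  · exact h1 b
  · change b' * a' = a' * b'
    rw [ha']
    calc b' * (a * a) = (b' * a) * a := by group
      _ = a * b' * a := by rw [h1 b']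
      _ = a * (b' * a) := by group
      _ = a * (a * b') := by rw [h1 b']
      _ = a * a * b' := by group

instance diagSq_normal (p : E →* G) (hc : p.ker ≤ Subgroup.center E) :
    (diagSq p hc).Normal := by
  constructor
  intro n hn g
  have h1 := Subgroup.mem_center_iff.mp (diagSq_le_center p hc hn) g
  rw [h1, mul_assoc, mul_inv_cancel, mul_one]
  exact hn

/-- data for the transport: three big subgroups, three small ones, three maps -/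
structure Transport (p : E →* G) where
  hp : Function.Surjective p
  hc : p.ker ≤ Subgroup.center E
  DJ : Fin 3 → Subgroup G
  DA : Fin 3 → Subgroup G
  hA : ∀ i k, i ≠ k → DA i ≤ DJ k
  ψ : Fin 3 → E → E
  ψ_mul : ∀ k e e', p e ∈ DJ k → p e' ∈ DJ k → ψ k (e * e') = ψ k e * ψ k e'
  ψ_ker : ∀ k κ e, p κ = 1 → ψ k (κ * e) = κ * κ * ψ k e
  ψ_agree : ∀ i k k' e, i ≠ k → i ≠ k' → p e ∈ DA i → ψ k e = ψ k' e

namespace Transport

variable {p : E →* G} (D : Transport p)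

/-- the quotient group -/
abbrev Q : Type _ := (E × E) ⧸ diagSq p D.hc

/-- a chosen lift -/
noncomputable def l (x : G) : E := Classical.choose (D.hp x)

theorem p_l (x : G) : p (D.l x) = x := Classical.choose_spec (D.hp x)

/-- the class of a pair -/
def pr (e e' : E) : D.Q := QuotientGroup.mk (e, e')

theorem pr_mul (a a' b b' : E) : D.pr a a' * D.pr b b' = D.pr (a * b) (a' * b') := rfl

theorem pr_eq_iff (a a' b b' : E) :
    D.pr a a' = D.pr b b' ↔ ∃ κ, p κ = 1 ∧ b = a * κ ∧ b' = a' * (κ * κ) := by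
  unfold pr
  rw [QuotientGroup.eq]
  constructor
  · rintro ⟨h1, h2⟩
    simp only [Prod.inv_mk, Prod.mk_mul_mk] at h1 h2
    exact ⟨a⁻¹ * b, MonoidHom.mem_ker.mp h1, by group, by rw [← h2]; group⟩
  · rintro ⟨κ, h1, rfl, rfl⟩
    refine ⟨?_, ?_⟩
    · simp only [Prod.inv_mk, Prod.mk_mul_mk]
      rw [inv_mul_cancel_left]
      exact MonoidHom.mem_ker.mpr h1
    · simp only [Prod.inv_mk, Prod.mk_mul_mk]
      rw [inv_mul_cancel_left, inv_mul_cancel_left]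

include D in
theorem central {κ : E} (h : p κ = 1) (a : E) : a * κ = κ * a :=
  Subgroup.mem_center_iff.mp (D.hc (MonoidHom.mem_ker.mpr h)) a

/-- the local sections -/
noncomputable def s (k : Fin 3) (x : G) : D.Q := D.pr (D.l x) (D.ψ k (D.l x))

theorem s_eq (k : Fin 3) (e : E) : D.s k (p e) = D.pr e (D.ψ k e) := by
  unfold s
  rw [pr_eq_iff]
  set κ := (D.l (p e))⁻¹ * e with hκ
  have h1 : p κ = 1 := by rw [hκ, map_mul, map_inv, D.p_l, inv_mul_cancel]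
  have h2 : e = D.l (p e) * κ := by rw [hκ]; group
  refine ⟨κ, h1, h2, ?_⟩
  have h3 : e = κ * D.l (p e) := by rw [← D.central h1]; exact h2
  have h4 : p (κ * κ) = 1 := by rw [map_mul, h1, one_mul]
  conv_lhs => rw [h3]
  rw [D.ψ_ker k κ _ h1, ← D.central h4]

theorem s_mul (k : Fin 3) (x y : G) (hx : x ∈ D.DJ k) (hy : y ∈ D.DJ k) :
    D.s k (x * y) = D.s k x * D.s k y := by
  have h1 : x * y = p (D.l x * D.l y) := by rw [map_mul, D.p_l, D.p_l]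
  rw [h1, s_eq, D.ψ_mul k _ _ (by rw [D.p_l]; exact hx) (by rw [D.p_l]; exact hy)]
  rfl

theorem s_one (k : Fin 3) : D.s k 1 = 1 := by
  have h := D.s_mul k 1 1 (D.DJ k).one_mem (D.DJ k).one_mem
  rw [mul_one] at h
  exact (mul_eq_left.mp h.symm)

theorem s_inv (k : Fin 3) (x : G) (hx : x ∈ D.DJ k) : D.s k x⁻¹ = (D.s k x)⁻¹ := by
  have h := D.s_mul k x⁻¹ x ((D.DJ k).inv_mem hx) hx
  rw [inv_mul_cancel, s_one] at h
  exact eq_inv_of_mul_eq_one_left h.symm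

theorem s_agree (i k k' : Fin 3) (x : G) (h : i ≠ k) (h' : i ≠ k') (hx : x ∈ D.DA i) :
    D.s k x = D.s k' x := by
  unfold s
  rw [D.ψ_agree i k k' _ h h' (by rw [D.p_l]; exact hx)]

/-- the section over the small subgroups -/
noncomputable def sA (i : Fin 3) (x : G) : D.Q := D.s (i + 1) x

theorem sA_eq (i k : Fin 3) (h : i ≠ k) (x : G) (hx : x ∈ D.DA i) : D.sA i x = D.s k x := by
  refine D.s_agree i (i + 1) k x ?_ h hx
  fin_cases i <;> simp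

/-- transport along a column -/
noncomputable def col (F : ℕ → G) : D.Q :=
  D.sA 0 ((F 0)⁻¹ * F 1) * D.sA 1 ((F 1)⁻¹ * F 2) * D.sA 2 ((F 2)⁻¹ * F 3)

theorem exists_third (i j : Fin 3) : ∃ k : Fin 3, i ≠ k ∧ j ≠ k := by
  fin_cases i <;> fin_cases j <;> decide

theorem cell (i j : Fin 3) (x a b : G) (hx : x ∈ D.DA i) (ha : a ∈ D.DA j) (hb : b ∈ D.DA j)
    (y : G) (hy : y = a⁻¹ * x * b) (hyi : y ∈ D.DA i) :
    D.sA i y = (D.sA j a)⁻¹ * D.sA i x * D.sA j b := by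
  obtain ⟨k, hik, hjk⟩ := exists_third i j
  have hxk := D.hA i k hik hx
  have hak := D.hA j k hjk ha
  have hbk := D.hA j k hjk hb
  rw [D.sA_eq i k hik y hyi, D.sA_eq i k hik x hx, D.sA_eq j k hjk a ha, D.sA_eq j k hjk b hb, hy,
    D.s_mul k _ _ ((D.DJ k).mul_mem ((D.DJ k).inv_mem hak) hxk) hbk,
    D.s_mul k _ _ ((D.DJ k).inv_mem hak) hxk, D.s_inv k _ hak]

theorem col_step (j : Fin 3) (F F' : ℕ → G) (h0 : F 0 = F' 0)
    (hF0 : (F 0)⁻¹ * F 1 ∈ D.DA 0) (hF1 : (F 1)⁻¹ * F 2 ∈ D.DA 1) (hF2 : (F 2)⁻¹ * F 3 ∈ D.DA 2)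
    (hF0' : (F' 0)⁻¹ * F' 1 ∈ D.DA 0) (hF1' : (F' 1)⁻¹ * F' 2 ∈ D.DA 1)
    (hF2' : (F' 2)⁻¹ * F' 3 ∈ D.DA 2)
    (hδ1 : (F 1)⁻¹ * F' 1 ∈ D.DA j) (hδ2 : (F 2)⁻¹ * F' 2 ∈ D.DA j)
    (hδ3 : (F 3)⁻¹ * F' 3 ∈ D.DA j) :
    D.col F' = D.col F * D.sA j ((F 3)⁻¹ * F' 3) := by
  unfold col
  rw [D.cell 0 j ((F 0)⁻¹ * F 1) 1 ((F 1)⁻¹ * F' 1) hF0 (D.DA j).one_mem hδ1
      ((F' 0)⁻¹ * F' 1) (by rw [← h0]; group) hF0',
    D.cell 1 j ((F 1)⁻¹ * F 2) ((F 1)⁻¹ * F' 1) ((F 2)⁻¹ * F' 2) hF1 hδ1 hδ2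
      ((F' 1)⁻¹ * F' 2) (by group) hF1',
    D.cell 2 j ((F 2)⁻¹ * F 3) ((F 2)⁻¹ * F' 2) ((F 3)⁻¹ * F' 3) hF2 hδ2 hδ3
      ((F' 2)⁻¹ * F' 3) (by group) hF2']
  have h1 : D.sA j 1 = 1 := D.s_one _
  rw [h1]
  group

/-- the grid lemma -/
theorem grid (M : ℕ → ℕ → G) (h0 : ∀ j, M 0 j = 1)
    (hF0 : ∀ j, (M 0 j)⁻¹ * M 1 j ∈ D.DA 0) (hF1 : ∀ j, (M 1 j)⁻¹ * M 2 j ∈ D.DA 1)
    (hF2 : ∀ j, (M 2 j)⁻¹ * M 3 j ∈ D.DA 2)
    (hδ0 : ∀ i, (M i 0)⁻¹ * M i 1 ∈ D.DA 0) (hδ1 : ∀ i, (M i 1)⁻¹ * M i 2 ∈ D.DA 1)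
    (hδ2 : ∀ i, (M i 2)⁻¹ * M i 3 ∈ D.DA 2) :
    D.col (fun i => M i 3) = D.col (fun i => M i 0) * D.col (fun j => (M 3 0)⁻¹ * M 3 j) := by
  have e1 := D.col_step 0 (fun i => M i 0) (fun i => M i 1) (by rw [h0, h0]) (hF0 0) (hF1 0)
    (hF2 0) (hF0 1) (hF1 1) (hF2 1) (hδ0 1) (hδ0 2) (hδ0 3)
  have e2 := D.col_step 1 (fun i => M i 1) (fun i => M i 2) (by rw [h0, h0]) (hF0 1) (hF1 1)
    (hF2 1) (hF0 2) (hF1 2) (hF2 2) (hδ1 1) (hδ1 2) (hδ1 3)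
  have e3 := D.col_step 2 (fun i => M i 2) (fun i => M i 3) (by rw [h0, h0]) (hF0 2) (hF1 2)
    (hF2 2) (hF0 3) (hF1 3) (hF2 3) (hδ2 1) (hδ2 2) (hδ2 3)
  rw [e3, e2, e1]
  unfold col
  have a1 : ((M 3 0)⁻¹ * M 3 0)⁻¹ * ((M 3 0)⁻¹ * M 3 1) = (M 3 0)⁻¹ * M 3 1 := by group
  have a2 : ((M 3 0)⁻¹ * M 3 1)⁻¹ * ((M 3 0)⁻¹ * M 3 2) = (M 3 1)⁻¹ * M 3 2 := by group
  have a3 : ((M 3 0)⁻¹ * M 3 2)⁻¹ * ((M 3 0)⁻¹ * M 3 3) = (M 3 2)⁻¹ * M 3 3 := by group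
  simp only [a1, a2, a3, mul_assoc]

end Transport

end abstract_part

end Pool.Agent.H45F
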