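import Pool.Agent.H45F.Branch
import Pool.Agent.H45F.Frag

set_option autoImplicit false

open scoped ContDiff NNReal commutatorElement
open Set

namespace Pool.Agent.H45F

/-- compactly supported diffeomorphisms supported in a compact subset of `U` -/
def suppG (U : Set ℂ) : Subgroup DiffC := suppSubgroup (MonoidHom.id DiffC) U

theorem mem_suppG {U : Set ℂ} {x : DiffC} : x ∈ suppG U ↔ SuppIn U (x : Equiv.Perm ℂ) :=
  Iff.rfl

theorem suppG_mono {U V : Set ℂ} (h : U ⊆ V) : suppG U ≤ suppG V := by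
  rintro x ⟨C, hC, hCU, hf⟩
  exact ⟨C, hC, hCU.trans h, hf⟩

/-- centres of the three arcs -/
noncomputable def cc : Fin 3 → ℂ :=
  ![1, Complex.exp ((2 * Real.pi / 3 : ℝ) * Complex.I), Complex.exp ((-(2 * Real.pi / 3) : ℝ) * Complex.I)]

/-- centres of the three long arcs -/
noncomputable def zz : Fin 3 → ℂ :=
  ![Complex.exp ((Real.pi : ℝ) * Complex.I), Complex.exp ((-(Real.pi / 3) : ℝ) * Complex.I),
    Complex.exp ((Real.pi / 3 : ℝ) * Complex.I)]

/-- square roots of the centres of the long arcs -/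
noncomputable def ee : Fin 3 → ℂ :=
  ![Complex.exp ((Real.pi / 2 : ℝ) * Complex.I), Complex.exp ((-(Real.pi / 6) : ℝ) * Complex.I),
    Complex.exp ((Real.pi / 6 : ℝ) * Complex.I)]

theorem norm_cc (i : Fin 3) : ‖cc i‖ = 1 := by
  fin_cases i
  · simp [cc]
  · exact Complex.norm_exp_ofReal_mul_I _
  · exact Complex.norm_exp_ofReal_mul_I _

theorem norm_zz (i : Fin 3) : ‖zz i‖ = 1 := by
  fin_cases i
  · exact Complex.norm_exp_ofReal_mul_I _
  · exact Complex.norm_exp_ofReal_mul_I _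
  · exact Complex.norm_exp_ofReal_mul_I _

theorem norm_ee (i : Fin 3) : ‖ee i‖ = 1 := by
  fin_cases i
  · exact Complex.norm_exp_ofReal_mul_I _
  · exact Complex.norm_exp_ofReal_mul_I _
  · exact Complex.norm_exp_ofReal_mul_I _

theorem ee_sq (i : Fin 3) : ee i * ee i = zz i := by
  fin_cases i
  · change Complex.exp _ * Complex.exp _ = Complex.exp _
    rw [← Complex.exp_add]; congr 1; push_cast; ring
  · change Complex.exp _ * Complex.exp _ = Complex.exp _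
    rw [← Complex.exp_add]; congr 1; push_cast; ring
  · change Complex.exp _ * Complex.exp _ = Complex.exp _
    rw [← Complex.exp_add]; congr 1; push_cast; ring

theorem cc_rel (i k : Fin 3) (h : i ≠ k) :
    ∃ κ : ℝ, |κ| ≤ Real.pi / 3 ∧ cc i = zz k * Complex.exp (κ * Complex.I) := by
  have hpi := Real.pi_pos
  have key : ∀ x : ℝ, |x| ≤ Real.pi / 3 ∨ True := fun _ => Or.inr trivial
  have a1 : |Real.pi / 3| ≤ Real.pi / 3 := by rw [abs_of_pos (by positivity)]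
  have a2 : |-(Real.pi / 3)| ≤ Real.pi / 3 := by rw [abs_neg]; exact a1
  fin_cases i <;> fin_cases k
  · exact absurd rfl h
  · refine ⟨Real.pi / 3, a1, ?_⟩
    change (1 : ℂ) = Complex.exp _ * Complex.exp _
    rw [← Complex.exp_add, ← Complex.exp_zero]; congr 1; push_cast; ring
  · refine ⟨-(Real.pi / 3), a2, ?_⟩
    change (1 : ℂ) = Complex.exp _ * Complex.exp _
    rw [← Complex.exp_add, ← Complex.exp_zero]; congr 1; push_cast; ring
  · refine ⟨-(Real.pi / 3), a2, ?_⟩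
    change Complex.exp _ = Complex.exp _ * Complex.exp _
    rw [← Complex.exp_add]; congr 1; push_cast; ring
  · exact absurd rfl h
  · refine ⟨Real.pi / 3, a1, ?_⟩
    change Complex.exp _ = Complex.exp _ * Complex.exp _
    rw [← Complex.exp_add]; congr 1; push_cast; ring
  · refine ⟨Real.pi / 3, a1, ?_⟩
    change Complex.exp _ = Complex.exp _ * Complex.exp _
    rw [← Complex.exp_add, ← mul_one (Complex.exp ((-(2 * Real.pi / 3) : ℝ) * Complex.I)),
      ← Complex.exp_two_pi_mul_I, ← Complex.exp_add]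
    congr 1; push_cast; ring
  · refine ⟨-(Real.pi / 3), a2, ?_⟩
    change Complex.exp _ = Complex.exp _ * Complex.exp _
    rw [← Complex.exp_add]; congr 1; push_cast; ring
  · exact absurd rfl h

theorem arg_shift {c ζ z : ℂ} {a b κ φ : ℝ} (hζ : ‖ζ‖ = 1) (hκ : |κ| ≤ Real.pi / 3)
    (hc : c = ζ * Complex.exp (κ * Complex.I)) (ha : 0 < a) (hφ : φ ≤ Real.pi / 2)
    (hz : z ∈ Sec c a b φ) : Complex.arg (z / ζ) = Complex.arg (z / c) + κ := by
  have hpi := Real.pi_pos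
  have hζ0 := ne_zero_of_norm_one hζ
  have hc1 : ‖c‖ = 1 := by rw [hc, norm_mul, hζ, Complex.norm_exp_ofReal_mul_I, one_mul]
  have hc0 := ne_zero_of_norm_one hc1
  have hz0 : 0 < ‖z‖ := lt_trans ha hz.1
  have h1 := polar_eq (z / c)
  rw [norm_div, hc1, div_one] at h1
  have h2 : z / ζ = (‖z‖ : ℝ) * Complex.exp ((Complex.arg (z / c) + κ : ℝ) * Complex.I) := by
    have e1 : z / ζ = (z / c) * (c / ζ) := by field_simp
    have e2 : c / ζ = Complex.exp (κ * Complex.I) := by rw [hc, mul_div_cancel_left₀ _ hζ0]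
    rw [e1, e2]
    conv_lhs => rw [← h1]
    rw [mul_assoc, ← Complex.exp_add]
    congr 2
    push_cast
    ring
  rw [h2, arg_polar hz0]
  calc |Complex.arg (z / c) + κ| ≤ |Complex.arg (z / c)| + |κ| := abs_add_le _ _
    _ < Real.pi := by linarith [hz.2.2]

theorem sec_sub {c ζ : ℂ} {a b κ : ℝ} (hζ : ‖ζ‖ = 1) (hκ : |κ| ≤ Real.pi / 3)
    (hc : c = ζ * Complex.exp (κ * Complex.I)) (ha : 0 < a) :
    Sec c a b (Real.pi / 2) ⊆ Sec ζ a b (5 * Real.pi / 6) := by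
  intro z hz
  refine ⟨hz.1, hz.2.1, ?_⟩
  rw [arg_shift hζ hκ hc ha le_rfl hz]
  calc |Complex.arg (z / c) + κ| ≤ |Complex.arg (z / c)| + |κ| := abs_add_le _ _
    _ < 5 * Real.pi / 6 := by linarith [hz.2.2]

/-- the branch `η‖z‖exp(i arg(z/ζ)/2)` -/
noncomputable def br (η ζ z : ℂ) : ℂ :=
  η * (‖z‖ * Complex.exp ((Complex.arg (z / ζ) / 2 : ℝ) * Complex.I))

theorem br_norm {η ζ : ℂ} (hη : ‖η‖ = 1) (z : ℂ) : ‖br η ζ z‖ = ‖z‖ := by
  unfold br
  rw [norm_mul, hη, one_mul, norm_polar (norm_nonneg _)]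

theorem br_mem {η ζ : ℂ} (hη : ‖η‖ = 1) {a b φ : ℝ} (ha : 0 < a) (hφ : φ ≤ Real.pi) {z : ℂ}
    (hz : z ∈ Sec ζ a b φ) : br η ζ z ∈ Sec η a b (φ / 2) := by
  have hη0 := ne_zero_of_norm_one hη
  have hz0 : 0 < ‖z‖ := lt_trans ha hz.1
  refine ⟨by rw [br_norm hη]; exact hz.1, by rw [br_norm hη]; exact hz.2.1, ?_⟩
  unfold br
  have h1 : |Complex.arg (z / ζ) / 2| < φ / 2 := by
    rw [abs_div, abs_two]
    have := hz.2.2
    linarith
  rw [mul_div_cancel_left₀ _ hη0, arg_polar hz0]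
  · exact h1
  · linarith [Real.pi_pos]

theorem sec_disjoint {η : ℂ} {a b φ : ℝ} (ha : 0 < a) (hφ : φ ≤ Real.pi / 2) (hη : ‖η‖ = 1)
    {z : ℂ} (hz : z ∈ Sec η a b φ) : z ∉ Sec (-η) a b φ := by
  intro hz'
  have hz0 : z / η ≠ 0 := by
    refine div_ne_zero ?_ (ne_zero_of_norm_one hη)
    intro h
    have := hz.1
    rw [h, norm_zero] at this
    linarith
  have h1 : |Complex.arg (z / η)| < Real.pi / 2 := lt_of_lt_of_le hz.2.2 hφ
  have h2 : |Complex.arg (z / (-η))| < Real.pi / 2 := lt_of_lt_of_le hz'.2.2 hφ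
  rw [Complex.abs_arg_lt_pi_div_two_iff] at h1 h2
  rw [div_neg] at h2
  rcases h1 with h1 | h1
  · rcases h2 with h2 | h2
    · rw [Complex.neg_re] at h2
      linarith
    · exact hz0 (neg_eq_zero.mp h2)
  · exact hz0 h1

theorem br_agree {c ζ ζ' η η' : ℂ} {a b κ κ' : ℝ} (hζ : ‖ζ‖ = 1) (hζ' : ‖ζ'‖ = 1)
    (hκ : |κ| ≤ Real.pi / 3) (hκ' : |κ'| ≤ Real.pi / 3)
    (hc : c = ζ * Complex.exp (κ * Complex.I)) (hc' : c = ζ' * Complex.exp (κ' * Complex.I))
    (hη : η * η = ζ) (hη' : η' * η' = ζ') (ha : 0 < a) :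
    (∀ z ∈ Sec c a b (Real.pi / 2), br η ζ z = br η' ζ' z) ∨
    (∀ z ∈ Sec c a b (Real.pi / 2), br η ζ z = br (-η') ζ' z) := by
  have key : ∀ (ζ η : ℂ) (κ : ℝ), ‖ζ‖ = 1 → |κ| ≤ Real.pi / 3 →
      c = ζ * Complex.exp (κ * Complex.I) → ∀ z ∈ Sec c a b (Real.pi / 2),
      br η ζ z = (η * Complex.exp ((κ / 2 : ℝ) * Complex.I)) *
        (‖z‖ * Complex.exp ((Complex.arg (z / c) / 2 : ℝ) * Complex.I)) := by
    intro ζ η κ hζ hκ hc z hz
    unfold br
    rw [arg_shift hζ hκ hc ha le_rfl hz]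
    have e1 : Complex.exp (((Complex.arg (z / c) + κ) / 2 : ℝ) * Complex.I) =
        Complex.exp ((κ / 2 : ℝ) * Complex.I) *
          Complex.exp ((Complex.arg (z / c) / 2 : ℝ) * Complex.I) := by
      rw [← Complex.exp_add]; congr 1; push_cast; ring
    rw [e1]
    ring
  have hsq : (η * Complex.exp ((κ / 2 : ℝ) * Complex.I)) ^ 2 =
      (η' * Complex.exp ((κ' / 2 : ℝ) * Complex.I)) ^ 2 := by
    have e2 : ∀ x : ℝ, Complex.exp ((x / 2 : ℝ) * Complex.I) ^ 2 = Complex.exp (x * Complex.I) := by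
      intro x
      rw [← Complex.exp_nat_mul]; congr 1; push_cast; ring
    rw [mul_pow, mul_pow, e2, e2, pow_two, pow_two, hη, hη', ← hc, ← hc']
  rcases sq_eq_sq_iff_eq_or_eq_neg.mp hsq with h | h
  · left
    intro z hz
    rw [key ζ η κ hζ hκ hc z hz, key ζ' η' κ' hζ' hκ' hc' z hz, h]
  · right
    intro z hz
    rw [key ζ η κ hζ hκ hc z hz, key ζ' (-η') κ' hζ' hκ' hc' z hz, h]
    ring

end Pool.Agent.H45F
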