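import Pool.Agent.H45F.Inst

set_option autoImplicit false

open scoped ContDiff NNReal commutatorElement
open Set

namespace Pool.Agent.H45F

/-- the norm preserving squaring map -/
noncomputable def qq (z : ℂ) : ℂ := z * z / ‖z‖

theorem sec_sub_ksec {ζ : ℂ} {a b φ : ℝ} : Sec ζ a b φ ⊆ KSec ζ a b φ :=
  fun _ hz => ⟨hz.1.le, hz.2.1.le, hz.2.2.le⟩

theorem qq_br {η ζ : ℂ} (hζ : ‖ζ‖ = 1) (hη : η * η = ζ) {z : ℂ} (hz : z ≠ 0) :
    qq (br η ζ z) = z := by
  have hζ0 := ne_zero_of_norm_one hζ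
  have hη1 : ‖η‖ = 1 := by
    have h := congrArg norm hη
    rw [norm_mul, hζ] at h
    nlinarith [norm_nonneg η]
  have hz0 : (‖z‖ : ℂ) ≠ 0 := by
    exact_mod_cast (norm_pos_iff.mpr hz).ne'
  unfold qq
  rw [br_norm hη1]
  unfold br
  have h1 := polar_eq (z / ζ)
  rw [norm_div, hζ, div_one] at h1
  have h2 : Complex.exp ((Complex.arg (z / ζ) / 2 : ℝ) * Complex.I) *
      Complex.exp ((Complex.arg (z / ζ) / 2 : ℝ) * Complex.I) =
      Complex.exp (Complex.arg (z / ζ) * Complex.I) := by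
    rw [← Complex.exp_add]; congr 1; push_cast; ring
  have h3 : η * (‖z‖ * Complex.exp ((Complex.arg (z / ζ) / 2 : ℝ) * Complex.I)) *
      (η * (‖z‖ * Complex.exp ((Complex.arg (z / ζ) / 2 : ℝ) * Complex.I))) =
      (η * η) * (‖z‖ * (‖z‖ * (Complex.exp ((Complex.arg (z / ζ) / 2 : ℝ) * Complex.I) *
        Complex.exp ((Complex.arg (z / ζ) / 2 : ℝ) * Complex.I)))) := by ring
  rw [h3, h2, h1, hη]
  field_simp

/-- all the data attached to an extension, an annulus and the three long arcs -/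
structure BranchData {E : Type*} [Group E] (p : E →* DiffC) (a b : ℝ) where
  gp : Fin 3 → E
  gm : Fin 3 → E
  hgp : ∀ k, ∀ z ∈ Sec (zz k) a b (5 * Real.pi / 6),
    ((p (gp k) : DiffC) : Equiv.Perm ℂ) z = br (ee k) (zz k) z
  hgm : ∀ k, ∀ z ∈ Sec (zz k) a b (5 * Real.pi / 6),
    ((p (gm k) : DiffC) : Equiv.Perm ℂ) z = br (-(ee k)) (zz k) z

theorem exists_branchData {E : Type*} [Group E] (p : E →* DiffC) (hp : Function.Surjective p)
    (a b : ℝ) (ha : 0 < a) : Nonempty (BranchData p a b) := by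
  have hpi := Real.pi_pos
  have h1 : ∀ k : Fin 3, ∃ g : E, ∀ z ∈ Sec (zz k) a b (5 * Real.pi / 6),
      ((p g : DiffC) : Equiv.Perm ℂ) z = br (ee k) (zz k) z := by
    intro k
    obtain ⟨f, hf, hfz⟩ := exists_branch (b := b) (norm_zz k) (norm_ee k) ha
      (show 0 < 5 * Real.pi / 6 by positivity) (by linarith)
    obtain ⟨g, hg⟩ := hp ⟨f, hf⟩
    exact ⟨g, fun z hz => by rw [hg]; exact hfz z (sec_sub_ksec hz)⟩
  have h2 : ∀ k : Fin 3, ∃ g : E, ∀ z ∈ Sec (zz k) a b (5 * Real.pi / 6),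
      ((p g : DiffC) : Equiv.Perm ℂ) z = br (-(ee k)) (zz k) z := by
    intro k
    obtain ⟨f, hf, hfz⟩ := exists_branch (b := b) (norm_zz k)
      (show ‖-(ee k)‖ = 1 by rw [norm_neg]; exact norm_ee k) ha
      (show 0 < 5 * Real.pi / 6 by positivity) (by linarith)
    obtain ⟨g, hg⟩ := hp ⟨f, hf⟩
    exact ⟨g, fun z hz => by rw [hg]; exact hfz z (sec_sub_ksec hz)⟩
  choose gp hgp using h1
  choose gm hgm using h2
  exact ⟨⟨gp, gm, hgp, hgm⟩⟩

/-- conjugation in the extension, evaluated at a point -/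
theorem conj_apply {E : Type*} [Group E] (p : E →* DiffC) (g e : E) (z : ℂ) :
    ((p (g * e * g⁻¹) : DiffC) : Equiv.Perm ℂ) z =
      ((p g : DiffC) : Equiv.Perm ℂ) (((p e : DiffC) : Equiv.Perm ℂ)
        (((p g : DiffC) : Equiv.Perm ℂ).symm z)) := by
  rw [map_mul, map_mul, map_inv]; rfl

theorem conj_fix {E : Type*} [Group E] (p : E →* DiffC) (g e : E) {U V : Set ℂ}
    (he : SuppIn U (p e : Equiv.Perm ℂ))
    (hgU : ∀ w ∈ U, ((p g : DiffC) : Equiv.Perm ℂ) w ∉ V) (z : ℂ) (hz : z ∈ V) :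
    ((p (g * e * g⁻¹) : DiffC) : Equiv.Perm ℂ) z = z := by
  rw [conj_apply, he.fix, Equiv.apply_symm_apply]
  intro h
  have h1 := hgU _ h
  rw [Equiv.apply_symm_apply] at h1
  exact h1 hz

theorem conj_supp {E : Type*} [Group E] (p : E →* DiffC) (g e : E) {U V : Set ℂ}
    (he : SuppIn U (p e : Equiv.Perm ℂ))
    (hgU : ∀ w ∈ U, ((p g : DiffC) : Equiv.Perm ℂ) w ∈ V) :
    SuppIn V ((p (g * e * g⁻¹) : DiffC) : Equiv.Perm ℂ) := by
  obtain ⟨C, hC, hCU, hCf⟩ := he
  refine ⟨((p g : DiffC) : Equiv.Perm ℂ) '' C, hC.image (p g).2.1.continuous, ?_, ?_⟩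
  · rintro _ ⟨w, hw, rfl⟩
    exact hgU w (hCU hw)
  · intro z hz
    rw [conj_apply, hCf, Equiv.apply_symm_apply]
    intro h
    exact hz ⟨_, h, Equiv.apply_symm_apply _ _⟩

theorem conj_eq_of_agree {E : Type*} [Group E] (p : E →* DiffC)
    (hp : Function.Surjective p) (hc : p.ker ≤ Subgroup.center E) (hE : commutator E = ⊤)
    {U : Set ℂ} (hU : IsChart U) (g g' e : E) (he : SuppIn U (p e : Equiv.Perm ℂ))
    (hg : ∀ z ∈ U, ((p g : DiffC) : Equiv.Perm ℂ) z = ((p g' : DiffC) : Equiv.Perm ℂ) z) :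
    g * e * g⁻¹ = g' * e * g'⁻¹ := by
  have h1 : e * (g'⁻¹ * g) = (g'⁻¹ * g) * e := by
    refine commute_of_chart p hp hc hE hU e _ he ?_
    intro z hz
    rw [map_mul, map_inv]
    change ((p g' : DiffC) : Equiv.Perm ℂ).symm (((p g : DiffC) : Equiv.Perm ℂ) z) = z
    rw [hg z hz, Equiv.symm_apply_apply]
  calc g * e * g⁻¹ = g' * ((g'⁻¹ * g) * e) * g⁻¹ := by group
    _ = g' * (e * (g'⁻¹ * g)) * g⁻¹ := by rw [h1]
    _ = g' * e * g'⁻¹ := by group

/-- the transport data -/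
noncomputable def mkTransport {E : Type*} [Group E] (p : E →* DiffC)
    (hp : Function.Surjective p) (hc : p.ker ≤ Subgroup.center E) (hE : commutator E = ⊤)
    {a b : ℝ} (ha : 0 < a) (hab : a < b) (B : BranchData p a b) : Transport p where
  hp := hp
  hc := hc
  DJ := fun k => suppG (Sec (zz k) a b (5 * Real.pi / 6))
  DA := fun i => suppG (Sec (cc i) a b (Real.pi / 2))
  hA := by
    intro i k hik
    obtain ⟨κ, h1, h2⟩ := cc_rel i k hik
    exact suppG_mono (sec_sub (norm_zz k) h1 h2 ha)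
  ψ := fun k e => B.gp k * e * (B.gp k)⁻¹ * (B.gm k * e * (B.gm k)⁻¹)
  ψ_mul := by
    intro k e e' he he'
    have hpi := Real.pi_pos
    have hη : ‖ee k‖ = 1 := norm_ee k
    have hη' : ‖-(ee k)‖ = 1 := by rw [norm_neg]; exact hη
    have hU : IsChart (Sec (ee k) a b (5 * Real.pi / 6 / 2)) :=
      isChart_sec hη ha hab (by positivity) (by linarith)
    have h1 : (B.gp k * e' * (B.gp k)⁻¹) * (B.gm k * e * (B.gm k)⁻¹) =
        (B.gm k * e * (B.gm k)⁻¹) * (B.gp k * e' * (B.gp k)⁻¹) := by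
      refine commute_of_chart p hp hc hE hU _ _ ?_ ?_
      · refine conj_supp p (B.gp k) e' he' ?_
        intro w hw
        rw [B.hgp k w hw]
        exact br_mem hη ha (by linarith) hw
      · refine conj_fix p (B.gm k) e he ?_
        intro w hw hw'
        rw [B.hgm k w hw] at hw'
        exact sec_disjoint ha (by linarith) hη hw' (br_mem hη' ha (by linarith) hw)
    calc B.gp k * (e * e') * (B.gp k)⁻¹ * (B.gm k * (e * e') * (B.gm k)⁻¹)
        = B.gp k * e * (B.gp k)⁻¹ * ((B.gp k * e' * (B.gp k)⁻¹) * (B.gm k * e * (B.gm k)⁻¹)) *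
          (B.gm k * e' * (B.gm k)⁻¹) := by group
      _ = B.gp k * e * (B.gp k)⁻¹ * ((B.gm k * e * (B.gm k)⁻¹) * (B.gp k * e' * (B.gp k)⁻¹)) *
          (B.gm k * e' * (B.gm k)⁻¹) := by rw [h1]
      _ = _ := by group
  ψ_ker := by
    intro k κ e hκ
    have h1 : ∀ c : E, c * κ = κ * c :=
      fun c => Subgroup.mem_center_iff.mp (hc (MonoidHom.mem_ker.mpr hκ)) c
    calc B.gp k * (κ * e) * (B.gp k)⁻¹ * (B.gm k * (κ * e) * (B.gm k)⁻¹)
        = (B.gp k * κ) * e * (B.gp k)⁻¹ * ((B.gm k * κ) * e * (B.gm k)⁻¹) := by group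
      _ = (κ * B.gp k) * e * (B.gp k)⁻¹ * ((κ * B.gm k) * e * (B.gm k)⁻¹) := by rw [h1, h1]
      _ = κ * ((B.gp k * e * (B.gp k)⁻¹) * κ) * (B.gm k * e * (B.gm k)⁻¹) := by group
      _ = κ * (κ * (B.gp k * e * (B.gp k)⁻¹)) * (B.gm k * e * (B.gm k)⁻¹) := by rw [h1]
      _ = κ * κ * (B.gp k * e * (B.gp k)⁻¹ * (B.gm k * e * (B.gm k)⁻¹)) := by group
  ψ_agree := by
    intro i k k' e hik hik' he
    have hpi := Real.pi_pos
    obtain ⟨κ, h1, h2⟩ := cc_rel i k hik
    obtain ⟨κ', h1', h2'⟩ := cc_rel i k' hik'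
    have hU : IsChart (Sec (cc i) a b (Real.pi / 2)) :=
      isChart_sec (norm_cc i) ha hab (by positivity) (by linarith)
    have hs := sec_sub (b := b) (norm_zz k) h1 h2 ha
    have hs' := sec_sub (b := b) (norm_zz k') h1' h2' ha
    have hs3 : ∀ (k' : Fin 3), Sec (cc i) a b (Real.pi / 2) ⊆ Sec (zz k') a b (5 * Real.pi / 6) →
        (B.gp k' * e * (B.gp k')⁻¹) * (B.gm k' * e * (B.gm k')⁻¹) =
        (B.gm k' * e * (B.gm k')⁻¹) * (B.gp k' * e * (B.gp k')⁻¹) := by
      intro k' hs'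
      have hη : ‖ee k'‖ = 1 := norm_ee k'
      have hη' : ‖-(ee k')‖ = 1 := by rw [norm_neg]; exact hη
      have hU : IsChart (Sec (ee k') a b (5 * Real.pi / 6 / 2)) :=
        isChart_sec hη ha hab (by positivity) (by linarith)
      have he' : SuppIn (Sec (zz k') a b (5 * Real.pi / 6)) (p e : Equiv.Perm ℂ) :=
        suppG_mono hs' he
      refine commute_of_chart p hp hc hE hU _ _ ?_ ?_
      · refine conj_supp p (B.gp k') e he' ?_
        intro w hw
        rw [B.hgp k' w hw]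
        exact br_mem hη ha (by linarith) hw
      · refine conj_fix p (B.gm k') e he' ?_
        intro w hw hw'
        rw [B.hgm k' w hw] at hw'
        exact sec_disjoint ha (by linarith) hη hw' (br_mem hη' ha (by linarith) hw)
    have hbr := br_agree (b := b) (norm_zz k) (norm_zz k') h1 h1' h2 h2' (ee_sq k) (ee_sq k') ha
    have hneg : ∀ z, br (-(ee k)) (zz k) z = -(br (ee k) (zz k) z) := by
      intro z; unfold br; ring
    have hneg' : ∀ z, br (-(ee k')) (zz k') z = -(br (ee k') (zz k') z) := by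
      intro z; unfold br; ring
    rcases hbr with hbr | hbr
    · have e1 : B.gp k * e * (B.gp k)⁻¹ = B.gp k' * e * (B.gp k')⁻¹ := by
        refine conj_eq_of_agree p hp hc hE hU _ _ e he ?_
        intro z hz
        rw [B.hgp k z (hs hz), B.hgp k' z (hs' hz), hbr z hz]
      have e2 : B.gm k * e * (B.gm k)⁻¹ = B.gm k' * e * (B.gm k')⁻¹ := by
        refine conj_eq_of_agree p hp hc hE hU _ _ e he ?_
        intro z hz
        rw [B.hgm k z (hs hz), B.hgm k' z (hs' hz), hneg, hneg', hbr z hz]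
      rw [e1, e2]
    · have e1 : B.gp k * e * (B.gp k)⁻¹ = B.gm k' * e * (B.gm k')⁻¹ := by
        refine conj_eq_of_agree p hp hc hE hU _ _ e he ?_
        intro z hz
        rw [B.hgp k z (hs hz), B.hgm k' z (hs' hz), hbr z hz]
      have e2 : B.gm k * e * (B.gm k)⁻¹ = B.gp k' * e * (B.gp k')⁻¹ := by
        refine conj_eq_of_agree p hp hc hE hU _ _ e he ?_
        intro z hz
        rw [B.hgm k z (hs hz), B.hgp k' z (hs' hz), hneg, hbr z hz, hneg', neg_neg]
      rw [e1, e2, hs3 k' hs']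

/-- half of the imaginary part -/
noncomputable def mh (w : ℂ) : ℂ := (w.re : ℂ) + ((w.im / 2 : ℝ) : ℂ) * Complex.I

theorem qq_mul_exp (z w : ℂ) (hz : z ≠ 0) : qq (z * Complex.exp (mh w)) = qq z * Complex.exp w := by
  unfold qq
  have h1 : ‖z * Complex.exp (mh w)‖ = ‖z‖ * Real.exp w.re := by
    rw [norm_mul, Complex.norm_exp]
    simp [mh]
  have h2 : (‖z‖ : ℂ) ≠ 0 := by exact_mod_cast (norm_pos_iff.mpr hz).ne'
  have h3 : Complex.exp (mh w) * Complex.exp (mh w) = (Real.exp w.re : ℝ) * Complex.exp w := by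
    rw [← Complex.exp_add, Complex.ofReal_exp, ← Complex.exp_add]
    congr 1
    calc mh w + mh w = (w.re : ℂ) + ((w.re : ℂ) + (w.im : ℂ) * Complex.I) := by
          unfold mh; push_cast; ring
      _ = (w.re : ℂ) + w := by rw [Complex.re_add_im]
  have h4 : ((Real.exp w.re : ℝ) : ℂ) ≠ 0 := by exact_mod_cast (Real.exp_pos _).ne'
  have h5 : z * Complex.exp (mh w) * (z * Complex.exp (mh w)) =
      z * z * (Complex.exp (mh w) * Complex.exp (mh w)) := by ring
  rw [h1, h5, h3, Complex.ofReal_mul]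
  generalize ((Real.exp w.re : ℝ) : ℂ) = X at h4 ⊢
  field_simp

/-- the projection of the transport is the lift through the double cover -/
theorem psi_proj {E : Type*} [Group E] (p : E →* DiffC)
    (hp : Function.Surjective p) (hc : p.ker ≤ Subgroup.center E) (hE : commutator E = ⊤)
    {a b : ℝ} (ha : 0 < a) (hab : a < b) (B : BranchData p a b) (k : Fin 3) (e : E)
    (he : p e ∈ (mkTransport p hp hc hE ha hab B).DJ k) (Λ : ℂ → ℂ)
    (hΛ : ∀ z, ((p e : DiffC) : Equiv.Perm ℂ) z = z * Complex.exp (Λ z))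
    (hsm : ∀ z, |(Λ z).im| < Real.pi / 6) (z : ℂ) (hz : z ≠ 0) :
    ((p ((mkTransport p hp hc hE ha hab B).ψ k e) : DiffC) : Equiv.Perm ℂ) z =
      z * Complex.exp (mh (Λ (qq z))) := by
  have hpi := Real.pi_pos
  have hη : ‖ee k‖ = 1 := norm_ee k
  have hη' : ‖-(ee k)‖ = 1 := by rw [norm_neg]; exact hη
  have hη0 := ne_zero_of_norm_one hη
  have hζ0 := ne_zero_of_norm_one (norm_zz k)
  have he' : SuppIn (Sec (zz k) a b (5 * Real.pi / 6)) (p e : Equiv.Perm ℂ) := he
  have hzn : (‖z‖ : ℂ) ≠ 0 := by exact_mod_cast (norm_pos_iff.mpr hz).ne'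
  have hψ : ((p ((mkTransport p hp hc hE ha hab B).ψ k e) : DiffC) : Equiv.Perm ℂ) z =
      ((p (B.gp k * e * (B.gp k)⁻¹) : DiffC) : Equiv.Perm ℂ)
        (((p (B.gm k * e * (B.gm k)⁻¹) : DiffC) : Equiv.Perm ℂ) z) := by
    change ((p (B.gp k * e * (B.gp k)⁻¹ * (B.gm k * e * (B.gm k)⁻¹)) : DiffC) :
      Equiv.Perm ℂ) z = _
    rw [map_mul]; rfl
  rw [hψ]
  set w : ℂ := qq z with hw
  have hw0 : w ≠ 0 := by
    rw [hw]; unfold qq
    exact div_ne_zero (mul_ne_zero hz hz) hzn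
  -- inverse images of points outside the sector
  have hout : ∀ (g : E) (η : ℂ), η * η = zz k → (∀ u ∈ Sec (zz k) a b (5 * Real.pi / 6),
      ((p g : DiffC) : Equiv.Perm ℂ) u = br η (zz k) u) → ∀ v : ℂ, qq v ∉
      Sec (zz k) a b (5 * Real.pi / 6) → ((p (g * e * g⁻¹) : DiffC) : Equiv.Perm ℂ) v = v := by
    intro g η hηη hg v hv
    rw [conj_apply, he'.fix, Equiv.apply_symm_apply]
    intro h
    apply hv
    have h1 := hg _ h
    rw [Equiv.apply_symm_apply] at h1
    have h2 : (((p g : DiffC) : Equiv.Perm ℂ).symm v) ≠ 0 := by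
      intro h3
      have := h.1
      rw [h3, norm_zero] at this
      linarith
    rw [h1, qq_br (norm_zz k) hηη h2]
    exact h
  have hnegsq : -(ee k) * -(ee k) = zz k := by rw [neg_mul_neg]; exact ee_sq k
  by_cases hwS : w ∈ Sec (zz k) a b (5 * Real.pi / 6)
  swap
  · rw [hout (B.gm k) (-(ee k)) hnegsq (B.hgm k) z hwS,
      hout (B.gp k) (ee k) (ee_sq k) (B.hgp k) z hwS]
    have h1 := hΛ w
    rw [he'.fix hwS] at h1
    have h2 : Complex.exp (Λ w) = 1 := by
      have h3 : w * Complex.exp (Λ w) = w * 1 := by rw [← h1, mul_one]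
      exact mul_left_cancel₀ hw0 h3
    obtain ⟨n, hn⟩ := Complex.exp_eq_one_iff.mp h2
    have h4 : (Λ w).im = n * (2 * Real.pi) := by rw [hn]; simp
    have h5 : (Λ w).re = 0 := by rw [hn]; simp
    have h6 := hsm w
    rw [h4] at h6
    have h7 : n = 0 := by
      by_contra hne
      have h8 : (1 : ℝ) ≤ |(n : ℝ)| := by
        have := Int.one_le_abs hne
        exact_mod_cast this
      rw [abs_mul, abs_of_pos (show 0 < 2 * Real.pi by positivity)] at h6
      nlinarith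
    have h9 : mh (Λ w) = 0 := by
      unfold mh
      rw [h5, h4, h7]; simp
    rw [h9, Complex.exp_zero, mul_one]
  -- inside the sector
  set θ : ℝ := Complex.arg (w / zz k) with hθ
  have hθb : |θ| < 5 * Real.pi / 6 := hwS.2.2
  have hwn : ‖w‖ = ‖z‖ := by
    rw [hw]; unfold qq
    rw [norm_div, norm_mul, Complex.norm_real, norm_norm]
    field_simp
  -- `z` is one of the two branch values
  have hzz : z * z = w * ‖z‖ := by
    rw [hw]; unfold qq; field_simp
  have hbrsq : br (ee k) (zz k) w * br (ee k) (zz k) w = w * ‖z‖ := by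
    have h1 := qq_br (norm_zz k) (ee_sq k) hw0
    unfold qq at h1
    rw [br_norm hη, hwn, div_eq_iff hzn] at h1
    exact h1
  have hcase : z = br (ee k) (zz k) w ∨ z = br (-(ee k)) (zz k) w := by
    have h1 : z ^ 2 = (br (ee k) (zz k) w) ^ 2 := by rw [pow_two, pow_two, hzz, hbrsq]
    rcases sq_eq_sq_iff_eq_or_eq_neg.mp h1 with h | h
    · left; exact h
    · right; rw [h]; unfold br; ring
  -- the image point
  set x := ((p e : DiffC) : Equiv.Perm ℂ) with hx
  have hxw : x w ∈ Sec (zz k) a b (5 * Real.pi / 6) := by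
    by_contra h
    have h1 := he'.fix h
    have h2 := x.injective h1
    rw [h2] at h
    exact h hwS
  have hargx : Complex.arg (x w / zz k) = θ + (Λ w).im := by
    have h1 := polar_eq (w / zz k)
    rw [norm_div, norm_zz, div_one] at h1
    have h2 : x w / zz k = ((‖w‖ * Real.exp (Λ w).re : ℝ) : ℂ) *
        Complex.exp ((θ + (Λ w).im : ℝ) * Complex.I) := by
      rw [hΛ w, mul_div_right_comm, ← h1]
      have h3 : Complex.exp (Λ w) = Complex.exp ((Λ w).re : ℂ) *
          Complex.exp ((Λ w).im * Complex.I) := by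
        rw [← Complex.exp_add, Complex.re_add_im]
      rw [h3]
      push_cast
      rw [add_mul, Complex.exp_add]
      ring
    rw [h2]
    apply arg_polar
    · exact mul_pos (norm_pos_iff.mpr hw0) (Real.exp_pos _)
    · calc |θ + (Λ w).im| ≤ |θ| + |(Λ w).im| := abs_add_le _ _
        _ < Real.pi := by linarith [hsm w]
  have hnormx : ‖x w‖ = ‖w‖ * Real.exp (Λ w).re := by
    rw [hΛ w, norm_mul, Complex.norm_exp]
  have hbrx : ∀ η : ℂ, br η (zz k) (x w) = br η (zz k) w * Complex.exp (mh (Λ w)) := by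
    intro η
    unfold br
    rw [hargx, hnormx]
    have h3 : Complex.exp (mh (Λ w)) = Complex.exp ((Λ w).re : ℂ) *
        Complex.exp (((Λ w).im / 2 : ℝ) * Complex.I) := by
      rw [← Complex.exp_add]; rfl
    have h4 : Complex.exp (((θ + (Λ w).im) / 2 : ℝ) * Complex.I) =
        Complex.exp ((θ / 2 : ℝ) * Complex.I) * Complex.exp (((Λ w).im / 2 : ℝ) * Complex.I) := by
      rw [← Complex.exp_add]; congr 1; push_cast; ring
    rw [h3, h4, hθ]
    push_cast
    ring
  have hin : ∀ (g : E) (η : ℂ), (∀ u ∈ Sec (zz k) a b (5 * Real.pi / 6),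
      ((p g : DiffC) : Equiv.Perm ℂ) u = br η (zz k) u) →
      ((p (g * e * g⁻¹) : DiffC) : Equiv.Perm ℂ) (br η (zz k) w) =
        br η (zz k) w * Complex.exp (mh (Λ w)) := by
    intro g η hg
    rw [conj_apply, ← hg w hwS, Equiv.symm_apply_apply, hg _ hxw, hbrx, hg w hwS]
  have hother : ∀ (g : E) (η η' : ℂ), ‖η‖ = 1 → η' = -η →
      (∀ u ∈ Sec (zz k) a b (5 * Real.pi / 6),
        ((p g : DiffC) : Equiv.Perm ℂ) u = br η' (zz k) u) →
      ∀ v ∈ Sec (zz k) a b (5 * Real.pi / 6),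
      ((p (g * e * g⁻¹) : DiffC) : Equiv.Perm ℂ) (br η (zz k) v) = br η (zz k) v := by
    intro g η η' hη1 hηη hg v hv
    refine conj_fix p g e (V := Sec η a b (5 * Real.pi / 6 / 2)) he' ?_ _
      (br_mem hη1 ha (by linarith) hv)
    intro u hu hu'
    rw [hg u hu] at hu'
    have h1 : br η' (zz k) u ∈ Sec η' a b (5 * Real.pi / 6 / 2) :=
      br_mem (by rw [hηη, norm_neg]; exact hη1) ha (by linarith) hu
    rw [hηη] at h1
    rw [hηη] at hu'
    exact sec_disjoint ha (by linarith) hη1 hu' h1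
  rcases hcase with hcase | hcase
  · rw [hcase, hother (B.gm k) (ee k) (-(ee k)) hη rfl (B.hgm k) w hwS,
      hin (B.gp k) (ee k) (B.hgp k)]
  · rw [hcase, hin (B.gm k) (-(ee k)) (B.hgm k), ← hbrx]
    rw [hother (B.gp k) (-(ee k)) (ee k) hη' (by rw [neg_neg]) (B.hgp k) (x w) hxw, hbrx]

end Pool.Agent.H45F
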