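import Pool.Agent.H45F.Part

set_option autoImplicit false

open scoped ContDiff NNReal commutatorElement
open Set

namespace Pool.Agent.H45F

/-- admissible exponents: smooth, supported in the annulus, Lipschitz with constant `ε` -/
structure Sm (a b ε : ℝ) (Λ : ℂ → ℂ) : Prop where
  smooth : ContDiff ℝ ∞ Λ
  supp : ∀ z : ℂ, ¬ (a ≤ ‖z‖ ∧ ‖z‖ ≤ b) → Λ z = 0
  lip : ∀ z w, ‖Λ z - Λ w‖ ≤ ε * ‖z - w‖

theorem Sm.eps_nonneg {a b ε : ℝ} {Λ : ℂ → ℂ} (h : Sm a b ε Λ) : 0 ≤ ε := by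
  have h1 := h.lip 1 0
  rw [sub_zero, norm_one, mul_one] at h1
  exact le_trans (norm_nonneg _) h1

theorem Sm.bound {a b ε : ℝ} (hb : 0 < b) {Λ : ℂ → ℂ} (h : Sm a b ε Λ) (z : ℂ) :
    ‖Λ z‖ ≤ 3 * b * ε := by
  have hε := h.eps_nonneg
  by_cases hz : ‖z‖ ≤ b
  · have h1 := h.lip z (z + ((3 * b : ℝ) : ℂ))
    have h2 : Λ (z + ((3 * b : ℝ) : ℂ)) = 0 := by
      apply h.supp
      rintro ⟨-, h3⟩
      have h4 := norm_sub_le (z + ((3 * b : ℝ) : ℂ)) z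
      rw [add_sub_cancel_left, Complex.norm_real, Real.norm_eq_abs,
        abs_of_pos (by positivity)] at h4
      linarith
    rw [h2, sub_zero] at h1
    have h5 : ‖z - (z + ((3 * b : ℝ) : ℂ))‖ = 3 * b := by
      rw [sub_add_cancel_left, norm_neg, Complex.norm_real, Real.norm_eq_abs,
        abs_of_pos (by positivity)]
    rw [h5] at h1
    linarith
  · rw [h.supp z (fun h' => hz h'.2), norm_zero]
    positivity

theorem Sm.expLip {a b ε : ℝ} (hb : 0 < b) (hε : 16 * b * ε ≤ 1) {Λ : ℂ → ℂ} (h : Sm a b ε Λ)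
    (z w : ℂ) : ‖z * (Complex.exp (Λ z) - 1) - w * (Complex.exp (Λ w) - 1)‖ ≤
      (3 / 4) * ‖z - w‖ := by
  have hε0 := h.eps_nonneg
  have hbε : 0 ≤ b * ε := mul_nonneg hb.le hε0
  have key : ∀ z w : ℂ, ‖w‖ ≤ b → ‖z * (Complex.exp (Λ z) - 1) - w * (Complex.exp (Λ w) - 1)‖ ≤
      (3 / 4) * ‖z - w‖ := by
    intro z w hw
    have e1 : z * (Complex.exp (Λ z) - 1) - w * (Complex.exp (Λ w) - 1) =
        (z - w) * (Complex.exp (Λ z) - 1) +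
        w * (Complex.exp (Λ w) * (Complex.exp (Λ z - Λ w) - 1)) := by
      rw [Complex.exp_sub]
      have := Complex.exp_ne_zero (Λ w)
      field_simp
      ring
    have b1 := h.bound hb z
    have b2 := h.bound hb w
    have h1 : ‖Complex.exp (Λ z) - 1‖ ≤ 2 * (3 * b * ε) :=
      le_trans (Complex.norm_exp_sub_one_le (by linarith)) (by linarith)
    have h2 := h.lip z w
    have h2' : ‖Λ z - Λ w‖ ≤ 1 := by
      have := norm_sub_le (Λ z) (Λ w)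
      linarith
    have h3 : ‖Complex.exp (Λ z - Λ w) - 1‖ ≤ 2 * (ε * ‖z - w‖) :=
      le_trans (Complex.norm_exp_sub_one_le h2') (by linarith)
    have h4 : ‖Complex.exp (Λ w)‖ ≤ 2 := by
      have h5 : ‖Complex.exp (Λ w) - 1‖ ≤ 2 * (3 * b * ε) :=
        le_trans (Complex.norm_exp_sub_one_le (by linarith)) (by linarith)
      have h6 := norm_add_le (Complex.exp (Λ w) - 1) 1
      rw [sub_add_cancel, norm_one] at h6
      linarith
    rw [e1]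
    refine le_trans (norm_add_le _ _) ?_
    rw [norm_mul, norm_mul, norm_mul]
    have h7 : ‖z - w‖ * ‖Complex.exp (Λ z) - 1‖ ≤ ‖z - w‖ * (2 * (3 * b * ε)) :=
      mul_le_mul_of_nonneg_left h1 (norm_nonneg _)
    have h8 : ‖w‖ * (‖Complex.exp (Λ w)‖ * ‖Complex.exp (Λ z - Λ w) - 1‖) ≤
        b * (2 * (2 * (ε * ‖z - w‖))) := by
      apply mul_le_mul hw _ (by positivity) hb.le
      exact mul_le_mul h4 h3 (norm_nonneg _) (by norm_num)
    calc _ ≤ ‖z - w‖ * (2 * (3 * b * ε)) + b * (2 * (2 * (ε * ‖z - w‖))) := by linarith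
      _ = (10 * (b * ε)) * ‖z - w‖ := by ring
      _ ≤ (3 / 4) * ‖z - w‖ := mul_le_mul_of_nonneg_right (by linarith) (norm_nonneg _)
  rcases le_or_gt ‖w‖ b with hw | hw
  · exact key z w hw
  · rcases le_or_gt ‖z‖ b with hz | hz
    · rw [norm_sub_rev (z * _), norm_sub_rev z]
      exact key w z hz
    · rw [h.supp z (fun h' => absurd h'.2 (not_le.mpr hz)),
        h.supp w (fun h' => absurd h'.2 (not_le.mpr hw))]
      simp

theorem Sm.exists_perm {a b ε : ℝ} (hb : 0 < b) (hε : 16 * b * ε ≤ 1) {Λ : ℂ → ℂ}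
    (h : Sm a b ε Λ) : ∃ f : Equiv.Perm ℂ, f ∈ DiffC ∧ ∀ z, f z = z * Complex.exp (Λ z) := by
  have hu : ContDiff ℝ ∞ (fun z : ℂ => z * (Complex.exp (Λ z) - 1)) :=
    contDiff_id.mul ((h.smooth.cexp).sub contDiff_const)
  have hL : LipschitzWith (3 / 4 : ℝ≥0) (fun z : ℂ => z * (Complex.exp (Λ z) - 1)) := by
    refine LipschitzWith.of_dist_le_mul (fun z w => ?_)
    rw [dist_eq_norm, dist_eq_norm]
    have hc : ((3 / 4 : ℝ≥0) : ℝ) = 3 / 4 := by norm_num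
    rw [hc]
    exact h.expLip hb hε z w
  obtain ⟨f, hf, hfz⟩ := exists_diffC_of_lipschitz _ hu (3 / 4)
    (by rw [← NNReal.coe_lt_coe]; norm_num) hL (b + 1) (by
      intro z hz
      rw [h.supp z (fun h' => by linarith [h'.2])]
      simp)
  refine ⟨f, hf, fun z => ?_⟩
  rw [hfz z]
  ring

theorem Sm.add {a b ε ε' : ℝ} {Λ Μ : ℂ → ℂ} (h : Sm a b ε Λ) (h' : Sm a b ε' Μ) :
    Sm a b (ε + ε') (fun z => Λ z + Μ z) where
  smooth := h.smooth.add h'.smooth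
  supp := fun z hz => by rw [h.supp z hz, h'.supp z hz, add_zero]
  lip := by
    intro z w
    have e : Λ z + Μ z - (Λ w + Μ w) = (Λ z - Λ w) + (Μ z - Μ w) := by ring
    rw [e]
    refine le_trans (norm_add_le _ _) ?_
    linarith [h.lip z w, h'.lip z w]

theorem Sm.smul_fun {a b ε L : ℝ} (hb : 0 < b) {Λ : ℂ → ℂ} (h : Sm a b ε Λ)
    (ρ : ℂ → ℝ) (hρ : ContDiff ℝ ∞ ρ) (h0 : ∀ z, 0 ≤ ρ z) (h1 : ∀ z, ρ z ≤ 1)
    (hL : ∀ z w, |ρ z - ρ w| ≤ L * ‖z - w‖) :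
    Sm a b ((1 + 3 * b * L) * ε) (fun z => (ρ z : ℂ) * Λ z) where
  smooth := (Complex.ofRealCLM.contDiff.comp hρ).mul h.smooth
  supp := fun z hz => by rw [h.supp z hz, mul_zero]
  lip := by
    intro z w
    have hε := h.eps_nonneg
    have e : (ρ z : ℂ) * Λ z - (ρ w : ℂ) * Λ w =
        (ρ z : ℂ) * (Λ z - Λ w) + ((ρ z - ρ w : ℝ) : ℂ) * Λ w := by push_cast; ring
    rw [e]
    refine le_trans (norm_add_le _ _) ?_
    rw [norm_mul, norm_mul, Complex.norm_real, Complex.norm_real, Real.norm_eq_abs,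
      Real.norm_eq_abs, abs_of_nonneg (h0 z)]
    have a1 : ρ z * ‖Λ z - Λ w‖ ≤ 1 * (ε * ‖z - w‖) :=
      mul_le_mul (h1 z) (h.lip z w) (norm_nonneg _) zero_le_one
    have a2 : |ρ z - ρ w| * ‖Λ w‖ ≤ (L * ‖z - w‖) * (3 * b * ε) :=
      mul_le_mul (hL z w) (h.bound hb w) (norm_nonneg _)
        (le_trans (abs_nonneg _) (hL z w))
    calc _ ≤ 1 * (ε * ‖z - w‖) + (L * ‖z - w‖) * (3 * b * ε) := by linarith
      _ = (1 + 3 * b * L) * ε * ‖z - w‖ := by ring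

theorem Sm.comp {a b ε : ℝ} {Λ : ℂ → ℂ} (h : Sm a b ε Λ) (f : ℂ → ℂ) (hf : ContDiff ℝ ∞ f)
    (hL : ∀ z w, ‖f z - f w‖ ≤ 2 * ‖z - w‖) (hfix : ∀ z : ℂ, ¬ (a ≤ ‖z‖ ∧ ‖z‖ ≤ b) → f z = z) :
    Sm a b (2 * ε) (fun z => Λ (f z)) where
  smooth := h.smooth.comp hf
  supp := fun z hz => by rw [hfix z hz, h.supp z hz]
  lip := by
    intro z w
    have hε := h.eps_nonneg
    refine le_trans (h.lip _ _) ?_
    calc ε * ‖f z - f w‖ ≤ ε * (2 * ‖z - w‖) := mul_le_mul_of_nonneg_left (hL z w) hε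
      _ = 2 * ε * ‖z - w‖ := by ring

theorem Sm.expMap {a b ε : ℝ} (hb : 0 < b) (hε : 16 * b * ε ≤ 1) {Λ : ℂ → ℂ} (h : Sm a b ε Λ) :
    ContDiff ℝ ∞ (fun z => z * Complex.exp (Λ z)) ∧
    (∀ z w, ‖z * Complex.exp (Λ z) - w * Complex.exp (Λ w)‖ ≤ 2 * ‖z - w‖) ∧
    ∀ z : ℂ, ¬ (a ≤ ‖z‖ ∧ ‖z‖ ≤ b) → z * Complex.exp (Λ z) = z := by
  refine ⟨contDiff_id.mul h.smooth.cexp, fun z w => ?_, fun z hz => ?_⟩
  · have e : z * Complex.exp (Λ z) - w * Complex.exp (Λ w) =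
        (z - w) + (z * (Complex.exp (Λ z) - 1) - w * (Complex.exp (Λ w) - 1)) := by ring
    rw [e]
    refine le_trans (norm_add_le _ _) ?_
    have := h.expLip hb hε z w
    have h2 := norm_nonneg (z - w)
    linarith
  · rw [h.supp z hz, Complex.exp_zero, mul_one]

theorem diffC_ext (x y : DiffC) (h : ∀ z, (x : Equiv.Perm ℂ) z = (y : Equiv.Perm ℂ) z) : x = y := by
  ext1; ext1 z; exact h z

open Classical in
/-- the diffeomorphism `z ↦ z exp (Λ z)` when it is one -/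
noncomputable def toG (Λ : ℂ → ℂ) : DiffC :=
  if h : ∃ f : DiffC, ∀ z, (f : Equiv.Perm ℂ) z = z * Complex.exp (Λ z) then h.choose else 1

theorem toG_spec' {Λ : ℂ → ℂ} (h : ∃ f : Equiv.Perm ℂ, f ∈ DiffC ∧ ∀ z, f z = z * Complex.exp (Λ z))
    (z : ℂ) : (toG Λ : Equiv.Perm ℂ) z = z * Complex.exp (Λ z) := by
  have h' : ∃ f : DiffC, ∀ z, (f : Equiv.Perm ℂ) z = z * Complex.exp (Λ z) := by
    obtain ⟨f, hf, hfz⟩ := h
    exact ⟨⟨f, hf⟩, hfz⟩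
  unfold toG
  rw [dif_pos h']
  exact h'.choose_spec z

theorem Sm.toG_spec {a b ε : ℝ} (hb : 0 < b) (hε : 16 * b * ε ≤ 1) {Λ : ℂ → ℂ} (h : Sm a b ε Λ)
    (z : ℂ) : (toG Λ : Equiv.Perm ℂ) z = z * Complex.exp (Λ z) :=
  toG_spec' (h.exists_perm hb hε) z

/-- cumulative sums of the partition of unity -/
def PP (ρ : Fin 3 → ℂ → ℝ) : ℕ → ℂ → ℝ
  | 0 => fun _ => 0
  | 1 => fun z => ρ 0 z
  | 2 => fun z => ρ 0 z + ρ 1 z
  | _ + 3 => fun z => ρ 0 z + ρ 1 z + ρ 2 z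

theorem PP_props (ρ : Fin 3 → ℂ → ℝ) (h1 : ∀ i, ContDiff ℝ ∞ (ρ i))
    (h2 : ∀ i, IsCompact (tsupport (ρ i))) (h3 : ∀ i z, 0 ≤ ρ i z)
    (h4 : ∀ z, ρ 0 z + ρ 1 z + ρ 2 z ≤ 1) :
    (∀ i, ContDiff ℝ ∞ (PP ρ i)) ∧ (∀ i z, 0 ≤ PP ρ i z) ∧ (∀ i z, PP ρ i z ≤ 1) ∧
    ∃ L : ℝ, 0 ≤ L ∧ ∀ i z w, |PP ρ i z - PP ρ i w| ≤ L * ‖z - w‖ := by
  have hL : ∀ i, ∃ C : ℝ≥0, LipschitzWith C (ρ i) := fun i =>
    ContDiff.lipschitzWith_of_hasCompactSupport (h2 i) (h1 i) (by simp)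
  choose C hC using hL
  have hC' : ∀ i z w, |ρ i z - ρ i w| ≤ C i * ‖z - w‖ := by
    intro i z w
    have := (hC i).dist_le_mul z w
    rwa [dist_eq_norm, dist_eq_norm, Real.norm_eq_abs] at this
  refine ⟨?_, ?_, ?_, C 0 + C 1 + C 2, by positivity, ?_⟩
  · intro i
    match i with
    | 0 => exact contDiff_const
    | 1 => exact h1 0
    | 2 => exact (h1 0).add (h1 1)
    | _ + 3 => exact ((h1 0).add (h1 1)).add (h1 2)
  · intro i z
    match i with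
    | 0 => exact le_refl _
    | 1 => exact h3 0 z
    | 2 => exact add_nonneg (h3 0 z) (h3 1 z)
    | _ + 3 => exact add_nonneg (add_nonneg (h3 0 z) (h3 1 z)) (h3 2 z)
  · intro i z
    have a0 := h3 0 z
    have a1 := h3 1 z
    have a2 := h3 2 z
    have a3 := h4 z
    match i with
    | 0 => exact zero_le_one
    | 1 => change ρ 0 z ≤ 1; linarith
    | 2 => change ρ 0 z + ρ 1 z ≤ 1; linarith
    | _ + 3 => exact a3
  · intro i z w
    have a0 := hC' 0 z w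
    have a1 := hC' 1 z w
    have a2 := hC' 2 z w
    have n0 : 0 ≤ ‖z - w‖ := norm_nonneg _
    have c0 : (0 : ℝ) ≤ C 0 := (C 0).coe_nonneg
    have c1 : (0 : ℝ) ≤ C 1 := (C 1).coe_nonneg
    have c2 : (0 : ℝ) ≤ C 2 := (C 2).coe_nonneg
    have m0 := mul_nonneg c0 n0
    have m1 := mul_nonneg c1 n0
    have m2 := mul_nonneg c2 n0
    rw [abs_le] at a0 a1 a2
    match i with
    | 0 => change |(0 : ℝ) - 0| ≤ _; rw [sub_zero, abs_zero]; nlinarith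
    | 1 => change |ρ 0 z - ρ 0 w| ≤ _; rw [abs_le]; constructor <;> nlinarith
    | 2 => change |ρ 0 z + ρ 1 z - (ρ 0 w + ρ 1 w)| ≤ _; rw [abs_le]; constructor <;> nlinarith
    | _ + 3 =>
      change |ρ 0 z + ρ 1 z + ρ 2 z - (ρ 0 w + ρ 1 w + ρ 2 w)| ≤ _
      rw [abs_le]; constructor <;> nlinarith

end Pool.Agent.H45F
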