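import Pool.Agent.H45F.Loc

set_option autoImplicit false

open scoped ContDiff NNReal commutatorElement
open Set

namespace Pool.Agent.H45F

theorem mh_add (v w : ℂ) : mh (v + w) = mh v + mh w := by
  unfold mh
  rw [Complex.add_re, Complex.add_im]
  push_cast
  ring

theorem mh_zero : mh 0 = 0 := by unfold mh; simp

/-- all choices fixed once and for all for an annulus `a ≤ |z| ≤ b` -/
structure Setup {E : Type*} [Group E] (p : E →* DiffC) (a b : ℝ) where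
  hp : Function.Surjective p
  hc : p.ker ≤ Subgroup.center E
  hE : commutator E = ⊤
  ha : 0 < a
  hab : a < b
  B : BranchData p (a / 2) (b + 1)
  ρ : Fin 3 → ℂ → ℝ
  ρ_smooth : ∀ i, ContDiff ℝ ∞ (ρ i)
  ρ_compact : ∀ i, IsCompact (tsupport (ρ i))
  ρ_supp : ∀ i, tsupport (ρ i) ⊆ Sec (cc i) (a / 2) (b + 1) (Real.pi / 2)
  ρ_nonneg : ∀ i z, 0 ≤ ρ i z
  ρ_le : ∀ z, ρ 0 z + ρ 1 z + ρ 2 z ≤ 1
  ρ_one : ∀ z, a ≤ ‖z‖ → ‖z‖ ≤ b → ρ 0 z + ρ 1 z + ρ 2 z = 1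
  L : ℝ
  hL0 : 0 ≤ L
  hL : ∀ i z w, |PP ρ i z - PP ρ i w| ≤ L * ‖z - w‖

theorem exists_setup {E : Type*} [Group E] (p : E →* DiffC) (hp : Function.Surjective p)
    (hc : p.ker ≤ Subgroup.center E) (hE : commutator E = ⊤) {a b : ℝ} (ha : 0 < a)
    (hab : a < b) : Nonempty (Setup p a b) := by
  obtain ⟨B⟩ := exists_branchData p hp (a / 2) (b + 1) (by positivity)
  obtain ⟨ρ, h1, h2, h3, h4, h5, h6⟩ := exists_partition (b := b) ha
  obtain ⟨-, -, -, L, hL0, hL⟩ := PP_props ρ h1 h2 h4 h5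
  exact ⟨⟨hp, hc, hE, ha, hab, B, ρ, h1, h2, h3, h4, h5, h6, L, hL0, hL⟩⟩

namespace Setup

variable {E : Type*} [Group E] {p : E →* DiffC} {a b : ℝ} (S : Setup p a b)

/-- the transport structure -/
noncomputable def D : Transport p :=
  mkTransport p S.hp S.hc S.hE (a := a / 2) (b := b + 1) (by linarith [S.ha])
    (by linarith [S.ha, S.hab]) S.B

include S in
theorem hb : 0 < b := lt_trans S.ha S.hab

/-- the smallness constant -/
noncomputable def ε₀ : ℝ := 1 / (16 * b * ((1 + 3 * b * S.L) * ((1 + 3 * b * S.L) + 2)))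

theorem eps_pos : 0 < S.ε₀ := by
  have hb := S.hb
  have hL := S.hL0
  unfold ε₀
  positivity

theorem eps_mul : 16 * b * ((1 + 3 * b * S.L) * ((1 + 3 * b * S.L) + 2) * S.ε₀) ≤ 1 := by
  have hb := S.hb
  have hL := S.hL0
  unfold ε₀
  have : 0 < 16 * b * ((1 + 3 * b * S.L) * ((1 + 3 * b * S.L) + 2)) := by positivity
  rw [← mul_assoc, mul_one_div, div_self this.ne']

/-- the `i`-th cut-off of the exponent -/
noncomputable def cut (i : ℕ) (Λ : ℂ → ℂ) : ℂ → ℂ := fun z => (PP S.ρ i z : ℂ) * Λ z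

theorem cut_sm {ε : ℝ} {Λ : ℂ → ℂ} (h : Sm a b ε Λ) (i : ℕ) :
    Sm a b ((1 + 3 * b * S.L) * ε) (S.cut i Λ) := by
  obtain ⟨h1, h2, h3, -⟩ := PP_props S.ρ S.ρ_smooth S.ρ_compact S.ρ_nonneg S.ρ_le
  exact h.smul_fun S.hb _ (h1 i) (h2 i) (h3 i) (S.hL i)

theorem cut_three {ε : ℝ} {Λ : ℂ → ℂ} (h : Sm a b ε Λ) : S.cut 3 Λ = Λ := by
  ext z
  unfold cut
  by_cases hz : a ≤ ‖z‖ ∧ ‖z‖ ≤ b
  · have h1 : PP S.ρ 3 z = 1 := S.ρ_one z hz.1 hz.2
    rw [h1]; simp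
  · rw [h.supp z hz, mul_zero]

theorem cut_zero (Λ : ℂ → ℂ) : S.cut 0 Λ = fun _ => 0 := by
  ext z
  unfold cut
  have : PP S.ρ 0 z = 0 := rfl
  rw [this]; simp

theorem PP_succ (i : Fin 3) (z : ℂ) (hz : z ∉ tsupport (S.ρ i)) :
    PP S.ρ ((i : ℕ) + 1) z = PP S.ρ i z := by
  have h : S.ρ i z = 0 := image_eq_zero_of_notMem_tsupport hz
  fin_cases i
  · exact h
  · change S.ρ 0 z + S.ρ 1 z = S.ρ 0 z
    have h' : S.ρ 1 z = 0 := h
    rw [h', add_zero]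
  · change S.ρ 0 z + S.ρ 1 z + S.ρ 2 z = S.ρ 0 z + S.ρ 1 z
    have h' : S.ρ 2 z = 0 := h
    rw [h', add_zero]

/-- two elements agreeing outside the support of `ρ i` differ by an element of `DA i` -/
theorem mem_DA (i : Fin 3) (x y : DiffC)
    (h : ∀ z, z ∉ tsupport (S.ρ i) → (x : Equiv.Perm ℂ) z = (y : Equiv.Perm ℂ) z) :
    x⁻¹ * y ∈ S.D.DA i := by
  refine ⟨tsupport (S.ρ i), S.ρ_compact i, S.ρ_supp i, fun z hz => ?_⟩
  change ((x : Equiv.Perm ℂ).symm) ((y : Equiv.Perm ℂ) z) = z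
  rw [← h z hz, Equiv.symm_apply_apply]

/-- the local section -/
noncomputable def c (Λ : ℂ → ℂ) : S.D.Q := S.D.col (fun i => toG (S.cut i Λ))

theorem loc_hom {Λ Μ : ℂ → ℂ} (hΛ : Sm a b S.ε₀ Λ) (hΜ : Sm a b S.ε₀ Μ) :
    S.c (fun z => Μ z + Λ (z * Complex.exp (Μ z))) = S.c Λ * S.c Μ := by
  have hb := S.hb
  have hL := S.hL0
  have hε := S.eps_pos
  have hεm := S.eps_mul
  set K₁ : ℝ := 1 + 3 * b * S.L with hK₁
  have hK₁1 : 1 ≤ K₁ := by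
    have : 0 ≤ 3 * b * S.L := by positivity
    linarith
  have hsmall1 : 16 * b * (K₁ * S.ε₀) ≤ 1 := by
    have h1 : K₁ * S.ε₀ ≤ K₁ * (K₁ + 2) * S.ε₀ := by
      have : 0 < K₁ * S.ε₀ := by positivity
      nlinarith
    have h2 : 16 * b * (K₁ * S.ε₀) ≤ 16 * b * (K₁ * (K₁ + 2) * S.ε₀) :=
      mul_le_mul_of_nonneg_left h1 (by positivity)
    linarith
  -- the exponents
  have hcutΜ : ∀ j, Sm a b (K₁ * S.ε₀) (S.cut j Μ) := fun j => S.cut_sm hΜ j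
  have hcutΛ : ∀ j, Sm a b (K₁ * S.ε₀) (S.cut j Λ) := fun j => S.cut_sm hΛ j
  let W : ℕ → ℂ → ℂ := fun j z => z * Complex.exp (S.cut j Μ z)
  have hW : ∀ j, ContDiff ℝ ∞ (W j) ∧ (∀ z w, ‖W j z - W j w‖ ≤ 2 * ‖z - w‖) ∧
      ∀ z : ℂ, ¬ (a ≤ ‖z‖ ∧ ‖z‖ ≤ b) → W j z = z := fun j => (hcutΜ j).expMap hb hsmall1
  let N : ℕ → ℂ → ℂ := fun j z => S.cut j Μ z + Λ (W j z)
  have hN : ∀ j, Sm a b (K₁ * S.ε₀ + 2 * S.ε₀) (N j) := fun j =>
    (hcutΜ j).add (hΛ.comp (W j) (hW j).1 (hW j).2.1 (hW j).2.2)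
  have hcN : ∀ i j, Sm a b (K₁ * (K₁ * S.ε₀ + 2 * S.ε₀)) (S.cut i (N j)) :=
    fun i j => S.cut_sm (hN j) i
  have hsmall2 : 16 * b * (K₁ * (K₁ * S.ε₀ + 2 * S.ε₀)) ≤ 1 := by
    have : K₁ * (K₁ * S.ε₀ + 2 * S.ε₀) = K₁ * (K₁ + 2) * S.ε₀ := by ring
    rw [this]; exact hεm
  let M : ℕ → ℕ → DiffC := fun i j => toG (S.cut i (N j))
  have hM : ∀ i j z, (M i j : Equiv.Perm ℂ) z = z * Complex.exp (S.cut i (N j) z) :=
    fun i j z => (hcN i j).toG_spec hb hsmall2 z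
  have hrow : ∀ (i : Fin 3) (j : ℕ), (M i j)⁻¹ * M ((i : ℕ) + 1) j ∈ S.D.DA i := by
    intro i j
    refine S.mem_DA i _ _ (fun z hz => ?_)
    rw [hM, hM]
    unfold cut
    rw [S.PP_succ i z hz]
  have hNeq : ∀ (j : Fin 3) (z : ℂ), z ∉ tsupport (S.ρ j) → N j z = N ((j : ℕ) + 1) z := by
    intro j z hz
    have h1 : S.cut ((j : ℕ) + 1) Μ z = S.cut j Μ z := by
      unfold cut
      rw [S.PP_succ j z hz]
    simp only [N, W, h1]
  have hcol : ∀ (i : ℕ) (j : Fin 3), (M i j)⁻¹ * M i ((j : ℕ) + 1) ∈ S.D.DA j := by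
    intro i j
    refine S.mem_DA j _ _ (fun z hz => ?_)
    rw [hM, hM]
    unfold cut
    rw [hNeq j z hz]
  have hgrid := S.D.grid M (by
      intro j
      apply diffC_ext
      intro z
      rw [hM, S.cut_zero]
      simp) (fun j => hrow 0 j) (fun j => hrow 1 j) (fun j => hrow 2 j)
    (fun i => hcol i 0) (fun i => hcol i 1) (fun i => hcol i 2)
  -- identify the three columns
  have e3 : N 3 = fun z => Μ z + Λ (z * Complex.exp (Μ z)) := by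
    ext z
    simp only [N, W]
    rw [S.cut_three hΜ]
  have e0 : N 0 = Λ := by
    ext z
    simp only [N, W]
    rw [S.cut_zero]
    simp
  have hM30 : ∀ z, (M 3 0 : Equiv.Perm ℂ) z = z * Complex.exp (Λ z) := by
    intro z
    rw [hM, e0, S.cut_three hΛ]
  have hM3 : ∀ j z, (M 3 j : Equiv.Perm ℂ) z = z * Complex.exp (N j z) := by
    intro j z
    rw [hM, S.cut_three (hN j)]
  have hlast : (fun j => (M 3 0)⁻¹ * M 3 j) = fun j => toG (S.cut j Μ) := by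
    funext j
    rw [inv_mul_eq_iff_eq_mul]
    apply diffC_ext
    intro z
    rw [hM3]
    change z * Complex.exp (N j z) = (M 3 0 : Equiv.Perm ℂ) ((toG (S.cut j Μ) : Equiv.Perm ℂ) z)
    rw [(hcutΜ j).toG_spec hb hsmall1 z, hM30, mul_assoc, ← Complex.exp_add]
  unfold c
  rw [hlast] at hgrid
  simp only [M, e3, e0] at hgrid
  exact hgrid

/-- the two components of the local section -/
theorem c_spec {Λ : ℂ → ℂ} (hΛ : Sm a b S.ε₀ Λ) : ∃ e e' : E, S.c Λ = S.D.pr e e' ∧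
    (∀ z, ((p e : DiffC) : Equiv.Perm ℂ) z = z * Complex.exp (Λ z)) ∧
    ∀ z, z ≠ 0 → ((p e' : DiffC) : Equiv.Perm ℂ) z = z * Complex.exp (mh (Λ (qq z))) := by
  have hb := S.hb
  have hL := S.hL0
  have hε := S.eps_pos
  have hεm := S.eps_mul
  have hpi := Real.pi_gt_three
  set K₁ : ℝ := 1 + 3 * b * S.L with hK₁
  have hK₁1 : 1 ≤ K₁ := by
    have : 0 ≤ 3 * b * S.L := by positivity
    linarith
  have hsmall1 : 16 * b * (K₁ * S.ε₀) ≤ 1 := by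
    have h1 : K₁ * S.ε₀ ≤ K₁ * (K₁ + 2) * S.ε₀ := by
      have : 0 < K₁ * S.ε₀ := by positivity
      nlinarith
    have h2 : 16 * b * (K₁ * S.ε₀) ≤ 16 * b * (K₁ * (K₁ + 2) * S.ε₀) :=
      mul_le_mul_of_nonneg_left h1 (by positivity)
    linarith
  have hcut : ∀ j, Sm a b (K₁ * S.ε₀) (S.cut j Λ) := fun j => S.cut_sm hΛ j
  let F : ℕ → DiffC := fun i => toG (S.cut i Λ)
  have hF : ∀ i z, (F i : Equiv.Perm ℂ) z = z * Complex.exp (S.cut i Λ z) :=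
    fun i z => (hcut i).toG_spec hb hsmall1 z
  have hF0 : F 0 = 1 := by
    apply diffC_ext
    intro z
    rw [hF, S.cut_zero]
    simp
  let x : Fin 3 → DiffC := fun i => (F i)⁻¹ * F ((i : ℕ) + 1)
  have hxA : ∀ i, x i ∈ S.D.DA i := by
    intro i
    refine S.mem_DA i _ _ (fun z hz => ?_)
    rw [hF, hF]
    unfold cut
    rw [S.PP_succ i z hz]
  have hFx : ∀ (i : Fin 3) (z : ℂ), (F i : Equiv.Perm ℂ) ((x i : Equiv.Perm ℂ) z) =
      (F ((i : ℕ) + 1) : Equiv.Perm ℂ) z := by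
    intro i z
    change (F i : Equiv.Perm ℂ) ((F i : Equiv.Perm ℂ).symm ((F ((i : ℕ) + 1) : Equiv.Perm ℂ) z)) = _
    rw [Equiv.apply_symm_apply]
  -- exponent of the fragments
  let ξ : Fin 3 → ℂ → ℂ := fun i z => S.cut ((i : ℕ) + 1) Λ z - S.cut i Λ ((x i : Equiv.Perm ℂ) z)
  have hξ : ∀ i z, (x i : Equiv.Perm ℂ) z = z * Complex.exp (ξ i z) := by
    intro i z
    have h1 := hFx i z
    rw [hF, hF] at h1
    simp only [ξ]
    rw [Complex.exp_sub, mul_div_assoc', ← h1, mul_div_assoc, div_self (Complex.exp_ne_zero _),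
      mul_one]
  have hcutb : ∀ i z, ‖S.cut i Λ z‖ ≤ 3 / 16 := by
    intro i z
    refine le_trans ((hcut i).bound hb z) ?_
    linarith
  have hξb : ∀ i z, |(ξ i z).im| < Real.pi / 6 := by
    intro i z
    refine lt_of_le_of_lt (Complex.abs_im_le_norm _) ?_
    simp only [ξ]
    refine lt_of_le_of_lt (norm_sub_le _ _) ?_
    have := hcutb ((i : ℕ) + 1) z
    have := hcutb i ((x i : Equiv.Perm ℂ) z)
    linarith
  have hproj : ∀ (i : Fin 3) (z : ℂ), z ≠ 0 →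
      ((p (S.D.ψ (i + 1) (S.D.l (x i))) : DiffC) : Equiv.Perm ℂ) z =
        z * Complex.exp (mh (ξ i (qq z))) := by
    intro i z hz
    have hik : i ≠ i + 1 := by fin_cases i <;> simp
    refine psi_proj p S.hp S.hc S.hE (a := a / 2) (b := b + 1) (by linarith [S.ha])
      (by linarith [S.ha, S.hab]) S.B (i + 1) (S.D.l (x i)) ?_ (ξ i) ?_ (hξb i) z hz
    · rw [S.D.p_l]
      exact S.D.hA i (i + 1) hik (hxA i)
    · intro z
      rw [S.D.p_l]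
      exact hξ i z
  -- the lifted maps
  let LF : ℕ → ℂ → ℂ := fun i z => z * Complex.exp (mh (S.cut i Λ (qq z)))
  have hLF : ∀ (i : Fin 3) (z : ℂ), z ≠ 0 →
      LF i (z * Complex.exp (mh (ξ i (qq z)))) = LF ((i : ℕ) + 1) z := by
    intro i z hz
    simp only [LF]
    rw [qq_mul_exp z _ hz, ← hξ i (qq z), mul_assoc, ← Complex.exp_add, ← mh_add]
    have : ξ i (qq z) + S.cut i Λ ((x i : Equiv.Perm ℂ) (qq z)) =
        S.cut ((i : ℕ) + 1) Λ (qq z) := by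
      simp only [ξ]; ring
    rw [this]
  refine ⟨S.D.l (x 0) * S.D.l (x 1) * S.D.l (x 2),
    S.D.ψ 1 (S.D.l (x 0)) * S.D.ψ 2 (S.D.l (x 1)) * S.D.ψ 0 (S.D.l (x 2)), rfl, ?_, ?_⟩
  · intro z
    rw [map_mul, map_mul, S.D.p_l, S.D.p_l, S.D.p_l]
    have h1 : x 0 * x 1 * x 2 = F 3 := by
      change (F 0)⁻¹ * F 1 * ((F 1)⁻¹ * F 2) * ((F 2)⁻¹ * F 3) = F 3
      rw [hF0]; group
    rw [h1, hF, S.cut_three hΛ]
  · intro z hz
    have hne : ∀ (v w : ℂ), v ≠ 0 → v * Complex.exp w ≠ 0 :=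
      fun v w hv => mul_ne_zero hv (Complex.exp_ne_zero _)
    rw [map_mul, map_mul]
    change ((p (S.D.ψ 1 (S.D.l (x 0))) : DiffC) : Equiv.Perm ℂ)
      (((p (S.D.ψ 2 (S.D.l (x 1))) : DiffC) : Equiv.Perm ℂ)
        (((p (S.D.ψ 0 (S.D.l (x 2))) : DiffC) : Equiv.Perm ℂ) z)) = _
    have g2 := hproj 2 z hz
    have g1 := hproj 1 (z * Complex.exp (mh (ξ 2 (qq z)))) (hne _ _ hz)
    have e2 : ((2 : Fin 3) + 1) = 0 := rfl
    have e1 : ((1 : Fin 3) + 1) = 2 := rfl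
    have e0 : ((0 : Fin 3) + 1) = 1 := rfl
    rw [e2] at g2
    rw [e1] at g1
    rw [g2, g1]
    have g0 := hproj 0 _ (hne _ (mh (ξ 1 (qq (z * Complex.exp (mh (ξ 2 (qq z)))))))
      (hne z (mh (ξ 2 (qq z))) hz))
    rw [e0] at g0
    rw [g0]
    have k0 := hLF 0 _ (hne _ (mh (ξ 1 (qq (z * Complex.exp (mh (ξ 2 (qq z)))))))
      (hne z (mh (ξ 2 (qq z))) hz))
    have k1 := hLF 1 _ (hne z (mh (ξ 2 (qq z))) hz)
    have k2 := hLF 2 z hz
    have k3 : ∀ v : ℂ, LF ((0 : Fin 3) : ℕ) v = v := by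
      intro v
      change v * Complex.exp (mh (S.cut 0 Λ (qq v))) = v
      rw [S.cut_zero]
      simp [mh_zero]
    rw [k3] at k0
    rw [k0]
    change LF ((1 : Fin 3) : ℕ) _ = _
    rw [k1]
    change LF ((2 : Fin 3) : ℕ) _ = _
    rw [k2]
    change z * Complex.exp (mh (S.cut 3 Λ (qq z))) = _
    rw [S.cut_three hΛ]

end Setup

end Pool.Agent.H45F
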