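import Pool.Agent.H45F.Inst2

set_option autoImplicit false

open scoped ContDiff NNReal commutatorElement Manifold
open Set

namespace Pool.Agent.H45F

theorem cover_sec {z : ℂ} (hz : z ≠ 0) : ∃ i : Fin 3, |Complex.arg (z / cc i)| < Real.pi / 2 := by
  have hre : ∀ i : Fin 3, (z / cc i).re = z.re * (cc i).re + z.im * (cc i).im := by
    intro i
    have h1 : z / cc i = z * (starRingEnd ℂ) (cc i) := by
      rw [div_eq_mul_inv, Complex.inv_def, Complex.normSq_eq_norm_sq, norm_cc]
      simp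
    rw [h1, Complex.mul_re, Complex.conj_re, Complex.conj_im]
    ring
  have hcos : Real.cos (2 * Real.pi / 3) = -(1 / 2) := by
    have : 2 * Real.pi / 3 = Real.pi - Real.pi / 3 := by ring
    rw [this, Real.cos_pi_sub, Real.cos_pi_div_three]
  have hsin : 0 < Real.sin (2 * Real.pi / 3) := by
    apply Real.sin_pos_of_pos_of_lt_pi <;> linarith [Real.pi_pos]
  have h0 : (z / cc 0).re = z.re := by simp [cc]
  have h1 : (z / cc 1).re = -(1 / 2) * z.re + Real.sin (2 * Real.pi / 3) * z.im := by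
    rw [hre]
    have e1 : (cc 1).re = Real.cos (2 * Real.pi / 3) := Complex.exp_ofReal_mul_I_re _
    have e2 : (cc 1).im = Real.sin (2 * Real.pi / 3) := Complex.exp_ofReal_mul_I_im _
    rw [e1, e2, hcos]
    ring
  have h2 : (z / cc 2).re = -(1 / 2) * z.re - Real.sin (2 * Real.pi / 3) * z.im := by
    rw [hre]
    have e1 : (cc 2).re = Real.cos (-(2 * Real.pi / 3)) := Complex.exp_ofReal_mul_I_re _
    have e2 : (cc 2).im = Real.sin (-(2 * Real.pi / 3)) := Complex.exp_ofReal_mul_I_im _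
    rw [e1, e2, Real.cos_neg, Real.sin_neg, hcos]
    ring
  by_contra hcon
  simp only [not_exists, not_lt] at hcon
  have hle : ∀ i : Fin 3, (z / cc i).re ≤ 0 := by
    intro i
    by_contra h
    have := Complex.abs_arg_lt_pi_div_two_iff.mpr (Or.inl (not_le.mp h))
    linarith [hcon i]
  have a0 := hle 0
  have a1 := hle 1
  have a2 := hle 2
  rw [h0] at a0
  rw [h1] at a1
  rw [h2] at a2
  have hx : z.re = 0 := by linarith
  rw [hx] at a1 a2
  have hy : Real.sin (2 * Real.pi / 3) * z.im = 0 := by linarith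
  have hy' : z.im = 0 := by
    rcases mul_eq_zero.mp hy with h | h
    · linarith
    · exact h
  exact hz (Complex.ext hx hy')

/-- a partition of unity subordinate to the three arcs -/
theorem exists_partition {a b : ℝ} (ha : 0 < a) : ∃ ρ : Fin 3 → ℂ → ℝ,
    (∀ i, ContDiff ℝ ∞ (ρ i)) ∧ (∀ i, IsCompact (tsupport (ρ i))) ∧
    (∀ i, tsupport (ρ i) ⊆ Sec (cc i) (a / 2) (b + 1) (Real.pi / 2)) ∧
    (∀ i z, 0 ≤ ρ i z) ∧ (∀ z, ρ 0 z + ρ 1 z + ρ 2 z ≤ 1) ∧
    ∀ z, a ≤ ‖z‖ → ‖z‖ ≤ b → ρ 0 z + ρ 1 z + ρ 2 z = 1 := by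
  have hpi := Real.pi_pos
  set s : Set ℂ := {z | a ≤ ‖z‖ ∧ ‖z‖ ≤ b} with hs
  have hsc : IsClosed s :=
    (isClosed_le continuous_const continuous_norm).inter
      (isClosed_le continuous_norm continuous_const)
  obtain ⟨f, hf⟩ := SmoothPartitionOfUnity.exists_isSubordinate (𝓘(ℝ, ℂ)) hsc
    (fun i : Fin 3 => Sec (cc i) (a / 2) (b + 1) (Real.pi / 2))
    (fun i => isOpen_sec (norm_cc i) (by positivity) (by linarith)) (by
      intro z hz
      have hz0 : z ≠ 0 := by
        intro h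
        have h1 := hz.1
        rw [h, norm_zero] at h1
        linarith
      obtain ⟨i, hi⟩ := cover_sec hz0
      exact mem_iUnion.mpr ⟨i, by linarith [hz.1], by linarith [hz.2], hi⟩)
  have hsum : ∀ z, ∑ᶠ i, f i z = f 0 z + f 1 z + f 2 z := by
    intro z
    rw [finsum_eq_sum_of_fintype, Fin.sum_univ_three]
  refine ⟨fun i => f i, fun i => (f i).contMDiff.contDiff, ?_, fun i => hf i, fun i z => f.nonneg i z,
    ?_, ?_⟩
  · intro i
    apply Metric.isCompact_of_isClosed_isBounded (isClosed_tsupport _)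
    refine (Metric.isBounded_closedBall (x := (0 : ℂ)) (r := b + 1)).subset ?_
    intro z hz
    have := (hf i hz).2.1
    simpa using this.le
  · intro z
    rw [← hsum]; exact f.sum_le_one z
  · intro z h1 h2
    rw [← hsum]; exact f.sum_eq_one ⟨h1, h2⟩

end Pool.Agent.H45F
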