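import Mathlib

set_option autoImplicit false

open scoped ContDiff
open Set

namespace Pool.Agent.H45F

/-- exponents of rotation equivariant diffeomorphisms, in the logarithmic radius -/
structure XP (A B : ℝ) (f : ℝ → ℂ) : Prop where
  smooth : ContDiff ℝ ∞ f
  supp : ∀ x, ¬ (A ≤ x ∧ x ≤ B) → f x = 0
  pos : ∀ x, 0 < 1 + (deriv f x).re

/-- the radial map -/
def gg (f : ℝ → ℂ) (x : ℝ) : ℝ := x + (f x).re

theorem hasDerivAt_gg {f : ℝ → ℂ} (hf : ContDiff ℝ ∞ f) (x : ℝ) :
    HasDerivAt (gg f) (1 + (deriv f x).re) x := by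
  have h1 : HasDerivAt f (deriv f x) x := (hf.differentiable (by simp) x).hasDerivAt
  have h2 : HasDerivAt (fun y => (f y).re) (deriv f x).re x := by
    have := (Complex.reCLM.hasFDerivAt (x := f x)).comp_hasDerivAt x h1
    exact this
  exact (hasDerivAt_id x).add h2

theorem contDiff_gg {f : ℝ → ℂ} (hf : ContDiff ℝ ∞ f) : ContDiff ℝ ∞ (gg f) :=
  contDiff_id.add (Complex.reCLM.contDiff.comp hf)

namespace XP

variable {A B : ℝ} {f g : ℝ → ℂ}

theorem deriv_gg_pos (h : XP A B f) (x : ℝ) : 0 < deriv (gg f) x := by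
  rw [(hasDerivAt_gg h.smooth x).deriv]; exact h.pos x

theorem strictMono (h : XP A B f) : StrictMono (gg f) := strictMono_of_deriv_pos h.deriv_gg_pos

theorem gg_out (h : XP A B f) {x : ℝ} (hx : ¬ (A ≤ x ∧ x ≤ B)) : gg f x = x := by
  unfold gg; rw [h.supp x hx]; simp

theorem surj (h : XP A B f) : Function.Surjective (gg f) := by
  intro y
  by_cases hy : A ≤ y ∧ y ≤ B
  · have hc : ContinuousOn (gg f) (Icc (A - 1) (B + 1)) :=
      (contDiff_gg h.smooth).continuous.continuousOn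
    have hAB : A - 1 ≤ B + 1 := by linarith [hy.1, hy.2]
    have h1 : gg f (A - 1) = A - 1 := h.gg_out (fun h' => by linarith [h'.1])
    have h2 : gg f (B + 1) = B + 1 := h.gg_out (fun h' => by linarith [h'.2])
    have h3 := intermediate_value_Icc hAB hc
    rw [h1, h2] at h3
    obtain ⟨x, -, hx⟩ := h3 (show y ∈ Icc (A - 1) (B + 1) from
      ⟨by linarith [hy.1], by linarith [hy.2]⟩)
    exact ⟨x, hx⟩
  · exact ⟨y, h.gg_out hy⟩

/-- the radial map as a homeomorphism -/
noncomputable def homeo (h : XP A B f) : ℝ ≃ₜ ℝ :=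
  (StrictMono.orderIsoOfSurjective (gg f) h.strictMono h.surj).toHomeomorph

theorem homeo_apply (h : XP A B f) (x : ℝ) : h.homeo x = gg f x := rfl

/-- the inverse radial map -/
noncomputable def gi (h : XP A B f) (x : ℝ) : ℝ := h.homeo.symm x

theorem gg_gi (h : XP A B f) (x : ℝ) : gg f (h.gi x) = x := h.homeo.apply_symm_apply x

theorem gi_gg (h : XP A B f) (x : ℝ) : h.gi (gg f x) = x := h.homeo.symm_apply_apply x

theorem gi_smooth (h : XP A B f) : ContDiff ℝ ∞ h.gi := by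
  refine Homeomorph.contDiff_symm_deriv h.homeo (f' := fun x => 1 + (deriv f x).re) ?_ ?_ ?_
  · intro x; exact (h.pos x).ne'
  · intro x; exact hasDerivAt_gg h.smooth x
  · exact contDiff_gg h.smooth

theorem gi_out (h : XP A B f) {x : ℝ} (hx : ¬ (A ≤ x ∧ x ≤ B)) : h.gi x = x := by
  have h1 := h.gi_gg x
  rwa [h.gg_out hx] at h1

theorem gi_deriv_pos (h : XP A B f) (x : ℝ) : 0 < deriv h.gi x := by
  have h1 : HasDerivAt h.gi (deriv h.gi x) x := (h.gi_smooth.differentiable (by simp) x).hasDerivAt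
  have h2 := (hasDerivAt_gg h.smooth (h.gi x)).comp x h1
  have h3 : (gg f ∘ h.gi) = id := by ext y; exact h.gg_gi y
  rw [h3] at h2
  have h4 := h2.unique (hasDerivAt_id x)
  have h5 := h.pos (h.gi x)
  by_contra h6
  have h7 : (1 + (deriv f (h.gi x)).re) * deriv h.gi x ≤ 0 :=
    mul_nonpos_of_nonneg_of_nonpos h5.le (not_lt.mp h6)
  linarith

theorem of_deriv {f : ℝ → ℂ} (h1 : ContDiff ℝ ∞ f) (h2 : ∀ x, ¬ (A ≤ x ∧ x ≤ B) → f x = 0)
    (h3 : ∀ x, 0 < deriv (gg f) x) : XP A B f := by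
  refine ⟨h1, h2, fun x => ?_⟩
  have := h3 x
  rwa [(hasDerivAt_gg h1 x).deriv] at this

/-- the composition law -/
def star (f g : ℝ → ℂ) (x : ℝ) : ℂ := g x + f (gg g x)

theorem gg_star (f g : ℝ → ℂ) (x : ℝ) : gg (star f g) x = gg f (gg g x) := by
  unfold gg star gg
  rw [Complex.add_re]
  ring

theorem mul (hf : XP A B f) (hg : XP A B g) : XP A B (star f g) := by
  refine of_deriv ?_ ?_ ?_
  · exact hg.smooth.add (hf.smooth.comp (contDiff_gg hg.smooth))
  · intro x hx
    unfold star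
    rw [hg.supp x hx, hg.gg_out hx, hf.supp x hx, add_zero]
  · intro x
    have h1 : gg (star f g) = gg f ∘ gg g := by ext y; exact gg_star f g y
    rw [h1, ((hasDerivAt_gg hf.smooth (gg g x)).comp x (hasDerivAt_gg hg.smooth x)).deriv]
    exact mul_pos (hf.pos _) (hg.pos _)

/-- the exponent of the inverse -/
noncomputable def inv' (h : XP A B f) (x : ℝ) : ℂ := -(f (h.gi x))

theorem gg_inv' (h : XP A B f) (x : ℝ) : gg h.inv' x = h.gi x := by
  have h1 := h.gg_gi x
  unfold gg at h1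
  unfold gg inv'
  rw [Complex.neg_re]
  linarith

theorem inv_XP (h : XP A B f) : XP A B h.inv' := by
  refine of_deriv ?_ ?_ ?_
  · exact (h.smooth.comp h.gi_smooth).neg
  · intro x hx
    unfold inv'
    rw [h.gi_out hx, h.supp x hx, neg_zero]
  · intro x
    have h1 : gg h.inv' = h.gi := by ext y; exact h.gg_inv' y
    rw [h1]
    exact h.gi_deriv_pos x

theorem one : XP A B (fun _ => 0) := by
  refine ⟨contDiff_const, fun _ _ => rfl, fun x => ?_⟩
  simp

theorem smul (h : XP A B f) {s : ℝ} (h0 : 0 ≤ s) (h1 : s ≤ 1) : XP A B (fun x => (s : ℂ) * f x) := by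
  refine ⟨contDiff_const.mul h.smooth, fun x hx => by rw [h.supp x hx, mul_zero], fun x => ?_⟩
  have h2 : deriv (fun x => (s : ℂ) * f x) x = (s : ℂ) * deriv f x :=
    deriv_const_mul _ (h.smooth.differentiable (by simp) x)
  rw [h2, Complex.re_ofReal_mul]
  have h3 := h.pos x
  rcases eq_or_lt_of_le h1 with h4 | h4
  · rw [h4, one_mul]; exact h3
  · nlinarith

end XP

/-- the group of exponents -/
def Rad (A B : ℝ) : Type := {f : ℝ → ℂ // XP A B f}

namespace Rad

variable {A B : ℝ}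

noncomputable instance : Group (Rad A B) where
  mul x y := ⟨XP.star x.1 y.1, x.2.mul y.2⟩
  one := ⟨fun _ => 0, XP.one⟩
  inv x := ⟨x.2.inv', x.2.inv_XP⟩
  mul_assoc := by
    rintro ⟨f, hf⟩ ⟨g, hg⟩ ⟨h, hh⟩
    apply Subtype.ext
    funext x
    change h x + (g (gg h x) + f (gg g (gg h x))) = (h x + g (gg h x)) + f (gg (XP.star g h) x)
    rw [XP.gg_star]
    ring
  one_mul := by
    rintro ⟨f, hf⟩
    apply Subtype.ext
    funext x
    change f x + 0 = f x
    rw [add_zero]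
  mul_one := by
    rintro ⟨f, hf⟩
    apply Subtype.ext
    funext x
    change 0 + f (gg (fun _ => 0) x) = f x
    rw [zero_add]
    congr 1
    simp [gg]
  inv_mul_cancel := by
    rintro ⟨f, hf⟩
    apply Subtype.ext
    funext x
    change f x + -(f (hf.gi (gg f x))) = 0
    rw [hf.gi_gg]
    ring

theorem mul_val (x y : Rad A B) (t : ℝ) : (x * y).1 t = y.1 t + x.1 (gg y.1 t) := rfl

theorem one_val (t : ℝ) : (1 : Rad A B).1 t = 0 := rfl

theorem inv_mul_val (x y : Rad A B) (t : ℝ) :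
    (x⁻¹ * y).1 t = y.1 t - x.1 (x.2.gi (gg y.1 t)) := by
  change y.1 t + -(x.1 (x.2.gi (gg y.1 t))) = _
  ring

/-- scaling by a number in `[0,1]` -/
noncomputable def sc (s : ℝ) (h0 : 0 ≤ s) (h1 : s ≤ 1) (x : Rad A B) : Rad A B :=
  ⟨fun t => (s : ℂ) * x.1 t, x.2.smul h0 h1⟩

end Rad

end Pool.Agent.H45F
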