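import Pool.Agent.H45F.Rad
import Pool.Agent.H45F.Loc2

set_option autoImplicit false

open scoped ContDiff NNReal commutatorElement
open Set

namespace Pool.Agent.H45F

/-- the exponent as a function on the plane -/
noncomputable def radL (f : ℝ → ℂ) (z : ℂ) : ℂ := if z = 0 then 0 else f (Real.log ‖z‖)

theorem radL_smooth {A B : ℝ} {f : ℝ → ℂ} (h : XP A B f) : ContDiff ℝ ∞ (radL f) := by
  rw [contDiff_iff_contDiffAt]
  intro z
  by_cases hz : z = 0
  · refine (contDiffAt_const (c := (0 : ℂ))).congr_of_eventuallyEq ?_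
    have h1 : ∀ᶠ w in nhds z, ‖w‖ < Real.exp A := by
      refine continuous_norm.continuousAt.eventually_lt_const ?_
      change ‖z‖ < Real.exp A
      rw [hz, norm_zero]; exact Real.exp_pos A
    filter_upwards [h1] with w hw
    unfold radL
    split_ifs with h0
    · rfl
    · apply h.supp
      rintro ⟨h2, -⟩
      have h3 : Real.log ‖w‖ < A := by
        rw [Real.log_lt_iff_lt_exp (norm_pos_iff.mpr h0)]; exact hw
      linarith
  · have h1 : ContDiffAt ℝ ∞ (fun w : ℂ => f (Real.log ‖w‖)) z := by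
      have h2 : ContDiffAt ℝ ∞ (fun w : ℂ => ‖w‖) z := contDiffAt_norm ℝ hz
      have h3 : ContDiffAt ℝ ∞ Real.log ‖z‖ := Real.contDiffAt_log.mpr (norm_ne_zero_iff.mpr hz)
      exact h.smooth.contDiffAt.comp z (ContDiffAt.comp z h3 h2)
    refine h1.congr_of_eventuallyEq ?_
    filter_upwards [isOpen_ne.mem_nhds hz] with w hw
    unfold radL
    rw [if_neg hw]

theorem radL_out {A B : ℝ} {f : ℝ → ℂ} (h : XP A B f) (z : ℂ)
    (hz : ¬ (Real.exp A ≤ ‖z‖ ∧ ‖z‖ ≤ Real.exp B)) : radL f z = 0 := by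
  unfold radL
  split_ifs with h0
  · rfl
  · apply h.supp
    rintro ⟨h1, h2⟩
    have hp := norm_pos_iff.mpr h0
    exact hz ⟨(Real.le_log_iff_exp_le hp).mp h1, (Real.log_le_iff_le_exp hp).mp h2⟩

/-- the map of the plane with a given exponent -/
noncomputable def radE (f : ℝ → ℂ) (z : ℂ) : ℂ := z * Complex.exp (radL f z)

theorem log_norm_radE (f : ℝ → ℂ) {z : ℂ} (hz : z ≠ 0) :
    Real.log ‖radE f z‖ = gg f (Real.log ‖z‖) := by
  unfold radE radL gg
  rw [if_neg hz, norm_mul, Complex.norm_exp, Real.log_mul (norm_ne_zero_iff.mpr hz)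
    (Real.exp_pos _).ne', Real.log_exp]

theorem radE_ne_zero (f : ℝ → ℂ) {z : ℂ} (hz : z ≠ 0) : radE f z ≠ 0 :=
  mul_ne_zero hz (Complex.exp_ne_zero _)

theorem radL_star (f g : ℝ → ℂ) (z : ℂ) : radL (XP.star f g) z = radL g z + radL f (radE g z) := by
  by_cases hz : z = 0
  · have h1 : radE g z = 0 := by unfold radE; rw [hz, zero_mul]
    rw [h1]
    unfold radL
    simp [hz]
  · have h1 := log_norm_radE g hz
    unfold radL
    rw [if_neg hz, if_neg hz, if_neg (radE_ne_zero g hz), h1]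
    rfl

theorem radE_comp (f g : ℝ → ℂ) (z : ℂ) : radE f (radE g z) = radE (XP.star f g) z := by
  have h1 := radL_star f g z
  unfold radE at h1 ⊢
  rw [h1, Complex.exp_add]
  ring

theorem radE_zero (z : ℂ) : radE (fun _ => 0) z = z := by
  unfold radE radL
  simp

namespace Rad

variable {A B : ℝ}

/-- the permutation attached to an exponent -/
noncomputable def perm (x : Rad A B) : Equiv.Perm ℂ where
  toFun := radE x.1
  invFun := radE (x⁻¹).1
  left_inv := by
    intro z
    rw [radE_comp]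
    have h : XP.star (x⁻¹).1 x.1 = (1 : Rad A B).1 := congrArg Subtype.val (inv_mul_cancel x)
    rw [h]
    exact radE_zero z
  right_inv := by
    intro z
    rw [radE_comp]
    have h : XP.star x.1 (x⁻¹).1 = (1 : Rad A B).1 := congrArg Subtype.val (mul_inv_cancel x)
    rw [h]
    exact radE_zero z

theorem perm_apply (x : Rad A B) (z : ℂ) : x.perm z = z * Complex.exp (radL x.1 z) := rfl

theorem perm_mem (x : Rad A B) : x.perm ∈ DiffC := by
  refine ⟨contDiff_id.mul (radL_smooth x.2).cexp, contDiff_id.mul (radL_smooth (x⁻¹).2).cexp,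
    Real.exp B + 1, fun z hz => ?_⟩
  rw [perm_apply, radL_out x.2 z (fun h => by linarith [h.2]), Complex.exp_zero, mul_one]

/-- the homomorphism to the diffeomorphism group -/
noncomputable def toGr : Rad A B →* DiffC where
  toFun x := ⟨x.perm, x.perm_mem⟩
  map_one' := by
    apply diffC_ext
    intro z
    exact radE_zero z
  map_mul' := by
    intro x y
    apply diffC_ext
    intro z
    exact (radE_comp x.1 y.1 z).symm

theorem toGr_apply (x : Rad A B) (z : ℂ) :
    ((toGr x : DiffC) : Equiv.Perm ℂ) z = z * Complex.exp (radL x.1 z) := rfl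

end Rad

theorem XP.left_zero {A B : ℝ} {f : ℝ → ℂ} (h : XP A B f) : f A = 0 := by
  have h1 : IsClosed {x | f x = 0} := isClosed_eq h.smooth.continuous continuous_const
  have h2 : Iio A ⊆ {x | f x = 0} := fun x hx => h.supp x (fun h' => absurd h'.1 (not_le.mpr hx))
  have h3 := h1.closure_subset_iff.mpr h2
  rw [closure_Iio] at h3
  exact h3 (mem_Iic.mpr le_rfl)

theorem log_lip {a u v : ℝ} (ha : 0 < a) (hu : a ≤ u) (hv : a ≤ v) :
    |Real.log u - Real.log v| ≤ |u - v| / a := by
  have key : ∀ u v : ℝ, a ≤ u → a ≤ v → u ≤ v → Real.log v - Real.log u ≤ (v - u) / a := by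
    intro u v hu hv huv
    have hu0 : 0 < u := lt_of_lt_of_le ha hu
    have hv0 : 0 < v := lt_of_lt_of_le ha hv
    rw [← Real.log_div hv0.ne' hu0.ne']
    have h1 := Real.log_le_sub_one_of_pos (div_pos hv0 hu0)
    have h2 : v / u - 1 = (v - u) / u := by field_simp
    rw [h2] at h1
    refine le_trans h1 ?_
    exact div_le_div_of_nonneg_left (by linarith) ha hu
  rcases le_total u v with h | h
  · have h1 := key u v hu hv h
    have h2 : Real.log u ≤ Real.log v := Real.log_le_log (lt_of_lt_of_le ha hu) h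
    rw [abs_sub_comm, abs_of_nonneg (by linarith), abs_sub_comm u v, abs_of_nonneg (by linarith)]
    exact h1
  · have h1 := key v u hv hu h
    have h2 : Real.log v ≤ Real.log u := Real.log_le_log (lt_of_lt_of_le ha hv) h
    rw [abs_of_nonneg (by linarith), abs_of_nonneg (by linarith)]
    exact h1

theorem radL_eq_max {A B : ℝ} {f : ℝ → ℂ} (h : XP A B f) (z : ℂ) :
    radL f z = f (Real.log (max ‖z‖ (Real.exp A))) := by
  rcases le_or_gt (Real.exp A) ‖z‖ with hz | hz
  · have h0 : z ≠ 0 := by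
      intro h0
      rw [h0, norm_zero] at hz
      exact absurd hz (not_le.mpr (Real.exp_pos A))
    rw [max_eq_left hz]
    unfold radL
    rw [if_neg h0]
  · rw [max_eq_right hz.le, Real.log_exp, h.left_zero]
    exact radL_out h z (fun h' => absurd h'.1 (not_le.mpr hz))

theorem sm_of_lip {A B δ : ℝ} {f : ℝ → ℂ} (h : XP A B f)
    (hδ : ∀ x y, ‖f x - f y‖ ≤ δ * |x - y|) :
    Sm (Real.exp A) (Real.exp B) (δ / Real.exp A) (radL f) := by
  have hδ0 : 0 ≤ δ := by
    have h1 := hδ 1 0
    rw [sub_zero, abs_one, mul_one] at h1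
    exact le_trans (norm_nonneg _) h1
  refine ⟨radL_smooth h, radL_out h, fun z w => ?_⟩
  rw [radL_eq_max h z, radL_eq_max h w]
  refine le_trans (hδ _ _) ?_
  have h1 := log_lip (Real.exp_pos A) (le_max_right ‖z‖ (Real.exp A)) (le_max_right ‖w‖ (Real.exp A))
  have h2 : |max ‖z‖ (Real.exp A) - max ‖w‖ (Real.exp A)| ≤ ‖z - w‖ :=
    le_trans (abs_max_sub_max_le_abs _ _ _) (abs_norm_sub_norm_le z w)
  calc δ * |Real.log (max ‖z‖ (Real.exp A)) - Real.log (max ‖w‖ (Real.exp A))|
      ≤ δ * (|max ‖z‖ (Real.exp A) - max ‖w‖ (Real.exp A)| / Real.exp A) :=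
        mul_le_mul_of_nonneg_left h1 hδ0
    _ ≤ δ * (‖z - w‖ / Real.exp A) := by
        apply mul_le_mul_of_nonneg_left _ hδ0
        exact div_le_div_of_nonneg_right h2 (Real.exp_pos A).le
    _ = δ / Real.exp A * ‖z - w‖ := by ring

theorem Sm.mono {a b ε ε' : ℝ} {f : ℂ → ℂ} (h : Sm a b ε f) (hε : ε ≤ ε') : Sm a b ε' f :=
  ⟨h.smooth, h.supp, fun z w => le_trans (h.lip z w)
    (mul_le_mul_of_nonneg_right hε (norm_nonneg _))⟩

theorem mh_re (w : ℂ) : (mh w).re = w.re := by
  unfold mh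
  simp

theorem mh_smooth : ContDiff ℝ ∞ mh := by
  unfold mh
  exact (Complex.ofRealCLM.contDiff.comp Complex.reCLM.contDiff).add
    ((Complex.ofRealCLM.contDiff.comp (Complex.imCLM.contDiff.div_const 2)).mul contDiff_const)

namespace Rad

variable {A B : ℝ}

theorem gg_mh (f : ℝ → ℂ) (x : ℝ) : gg (fun y => mh (f y)) x = gg f x := by
  unfold gg; rw [mh_re]

/-- halving the rotation part -/
noncomputable def sig : Rad A B →* Rad A B where
  toFun x := ⟨fun y => mh (x.1 y), XP.of_deriv (mh_smooth.comp x.2.smooth)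
    (fun y hy => by rw [x.2.supp y hy, mh_zero]) (fun y => by
      have h : gg (fun y => mh (x.1 y)) = gg x.1 := by ext t; exact gg_mh x.1 t
      rw [h]
      exact x.2.deriv_gg_pos y)⟩
  map_one' := by
    apply Subtype.ext
    funext y
    exact mh_zero
  map_mul' := by
    intro x y
    apply Subtype.ext
    funext t
    change mh (y.1 t + x.1 (gg y.1 t)) = mh (y.1 t) + mh (x.1 (gg (fun s => mh (y.1 s)) t))
    rw [mh_add, gg_mh]

theorem sig_val (x : Rad A B) (t : ℝ) : (sig x).1 t = mh (x.1 t) := rfl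

end Rad

/-- smallness of an exponent -/
def Rad.Small {A B : ℝ} (δ : ℝ) (x : Rad A B) : Prop := ∀ s t, ‖x.1 s - x.1 t‖ ≤ δ * |s - t|

section local_part

variable {E : Type*} [Group E] {p : E →* DiffC} {A B : ℝ}
  (S : Setup p (Real.exp A) (Real.exp B))

/-- the smallness threshold -/
noncomputable def Setup.thr : ℝ := S.ε₀ * Real.exp A

theorem Setup.thr_pos : 0 < S.thr := mul_pos S.eps_pos (Real.exp_pos A)

theorem Setup.sm_small (x : Rad A B) (hx : x.Small S.thr) :
    Sm (Real.exp A) (Real.exp B) S.ε₀ (radL x.1) := by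
  have h := sm_of_lip x.2 hx
  have e : S.thr / Real.exp A = S.ε₀ := by
    unfold Setup.thr
    rw [mul_div_assoc, div_self (Real.exp_pos A).ne', mul_one]
  rwa [e] at h

/-- the local section on exponents -/
noncomputable def Setup.cr (x : Rad A B) : S.D.Q := S.c (radL x.1)

theorem Setup.cr_mul (x y : Rad A B) (hx : x.Small S.thr) (hy : y.Small S.thr) :
    S.cr (x * y) = S.cr x * S.cr y := by
  have h := S.loc_hom (S.sm_small x hx) (S.sm_small y hy)
  unfold Setup.cr
  rw [← h]
  congr 1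
  funext z
  exact radL_star x.1 y.1 z

/-- a class of pairs lifts a given exponent -/
def Setup.Spec (x : Rad A B) (q : S.D.Q) : Prop :=
  ∃ e e' : E, q = S.D.pr e e' ∧ p e = Rad.toGr x ∧ p e' = Rad.toGr (Rad.sig x)

theorem perm_eq_of_ne_zero (f g : Equiv.Perm ℂ) (h : ∀ z, z ≠ 0 → f z = g z)
    (hg : g 0 = 0) : f = g := by
  ext1 z
  by_cases hz : z = 0
  · rw [hz, hg]
    by_contra h0
    have h1 : g.symm (f 0) ≠ 0 := by
      intro h2
      have h3 := congrArg g h2
      rw [Equiv.apply_symm_apply, hg] at h3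
      exact h0 h3
    have h4 := h _ h1
    rw [Equiv.apply_symm_apply] at h4
    exact h1 (f.injective h4)
  · exact h z hz

theorem norm_qq {z : ℂ} (hz : z ≠ 0) : ‖qq z‖ = ‖z‖ := by
  unfold qq
  rw [norm_div, norm_mul, Complex.norm_real, norm_norm]
  have := norm_ne_zero_iff.mpr hz
  field_simp

theorem Setup.cr_spec (x : Rad A B) (hx : x.Small S.thr) : S.Spec x (S.cr x) := by
  obtain ⟨e, e', h1, h2, h3⟩ := S.c_spec (S.sm_small x hx)
  refine ⟨e, e', h1, ?_, ?_⟩
  · apply diffC_ext
    intro z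
    exact h2 z
  · ext1
    refine perm_eq_of_ne_zero _ _ (fun z hz => ?_) ?_
    · rw [h3 z hz, Rad.toGr_apply]
      congr 2
      have hq : qq z ≠ 0 := by
        rw [← norm_ne_zero_iff, norm_qq hz]
        exact norm_ne_zero_iff.mpr hz
      unfold radL
      rw [if_neg hq, if_neg hz, norm_qq hz]
      rfl
    · rw [Rad.toGr_apply, zero_mul]

theorem Setup.spec_mul {x y : Rad A B} {q r : S.D.Q} (hx : S.Spec x q) (hy : S.Spec y r) :
    S.Spec (x * y) (q * r) := by
  obtain ⟨e, e', rfl, h1, h2⟩ := hx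
  obtain ⟨f, f', rfl, h3, h4⟩ := hy
  refine ⟨e * f, e' * f', rfl, ?_, ?_⟩
  · rw [map_mul, h1, h3, map_mul]
  · rw [map_mul, h2, h4, map_mul, map_mul]

theorem Setup.spec_one : S.Spec (1 : Rad A B) 1 :=
  ⟨1, 1, rfl, by rw [map_one, map_one], by rw [map_one, map_one, map_one]⟩

end local_part

end Pool.Agent.H45F
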