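import Pool.Agent.H45F.Sector

set_option autoImplicit false

open scoped ContDiff NNReal commutatorElement
open Set

namespace Pool.Agent.H45F

theorem exists_expMap (Λ : ℂ → ℂ) (hΛ : ContDiff ℝ ∞ Λ) (b : ℝ)
    (hb : ∀ z : ℂ, b ≤ ‖z‖ → Λ z = 0) :
    ∃ δ₀ : ℝ, 0 < δ₀ ∧ ∀ t : ℝ, |t| ≤ δ₀ → ∃ f : Equiv.Perm ℂ, f ∈ DiffC ∧
      ∀ z, f z = z * Complex.exp ((t : ℂ) * Λ z) := by
  have hcs : HasCompactSupport Λ := by
    refine HasCompactSupport.intro (isCompact_closedBall (0 : ℂ) b) (fun z hz => hb z ?_)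
    have : ¬ ‖z‖ ≤ b := by simpa using hz
    exact le_of_lt (not_le.mp this)
  obtain ⟨C, hC⟩ := ContDiff.lipschitzWith_of_hasCompactSupport hcs hΛ (by simp)
  obtain ⟨M₀, hM₀⟩ := hcs.exists_bound_of_continuous hΛ.continuous
  set M : ℝ := max M₀ 0 with hM
  have hM0 : 0 ≤ M := le_max_right _ _
  have hMb : ∀ z, ‖Λ z‖ ≤ M := fun z => le_trans (hM₀ z) (le_max_left _ _)
  set B : ℝ := max b 0 with hB
  have hB0 : 0 ≤ B := le_max_right _ _
  have hBb : ∀ z : ℂ, B ≤ ‖z‖ → Λ z = 0 := fun z hz => hb z (le_trans (le_max_left _ _) hz)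
  have hC0 : (0 : ℝ) ≤ C := C.coe_nonneg
  have hCd : ∀ z w, ‖Λ z - Λ w‖ ≤ C * ‖z - w‖ := by
    intro z w
    have := hC.dist_le_mul z w
    rwa [dist_eq_norm, dist_eq_norm] at this
  have hden : 0 < 8 * M + 8 * B * C + 8 := by positivity
  refine ⟨1 / (8 * M + 8 * B * C + 8), by positivity, fun t ht => ?_⟩
  have ht' : |t| * (8 * M + 8 * B * C + 8) ≤ 1 := by
    rw [← le_div_iff₀ hden]; exact ht
  have ht0 : 0 ≤ |t| := abs_nonneg t
  have htM : |t| * M ≤ 1 / 8 := by nlinarith [mul_nonneg ht0 hM0, mul_nonneg ht0 (mul_nonneg hB0 hC0)]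
  have htBC : |t| * (B * C) ≤ 1 / 8 := by
    nlinarith [mul_nonneg ht0 hM0, mul_nonneg ht0 (mul_nonneg hB0 hC0)]
  have hsum : |t| * (2 * M) + |t| * (4 * (B * C)) ≤ 1 / 2 := by
    nlinarith [mul_nonneg ht0 hM0, mul_nonneg ht0 (mul_nonneg hB0 hC0)]
  have hnt : ∀ z, ‖(t : ℂ) * Λ z‖ ≤ |t| * M := by
    intro z
    rw [norm_mul, Complex.norm_real, Real.norm_eq_abs]
    exact mul_le_mul_of_nonneg_left (hMb z) ht0
  let u : ℂ → ℂ := fun z => z * (Complex.exp ((t : ℂ) * Λ z) - 1)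
  have hu : ContDiff ℝ ∞ u :=
    contDiff_id.mul (((contDiff_const.mul hΛ).cexp).sub contDiff_const)
  have hu0 : ∀ z : ℂ, B ≤ ‖z‖ → u z = 0 := by
    intro z hz
    simp [u, hBb z hz]
  have hkey : ∀ z w : ℂ, ‖w‖ ≤ B → ‖u z - u w‖ ≤ (1 / 2) * ‖z - w‖ := by
    intro z w hw
    have e1 : u z - u w = (z - w) * (Complex.exp ((t : ℂ) * Λ z) - 1) +
        w * (Complex.exp ((t : ℂ) * Λ w) *
          (Complex.exp ((t : ℂ) * Λ z - (t : ℂ) * Λ w) - 1)) := by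
      rw [Complex.exp_sub]
      have := Complex.exp_ne_zero ((t : ℂ) * Λ w)
      simp only [u]
      field_simp
      ring
    have h1 : ‖Complex.exp ((t : ℂ) * Λ z) - 1‖ ≤ 2 * (|t| * M) := by
      refine le_trans (Complex.norm_exp_sub_one_le (by linarith [hnt z])) ?_
      linarith [hnt z]
    have h2 : ‖(t : ℂ) * Λ z - (t : ℂ) * Λ w‖ ≤ |t| * (C * ‖z - w‖) := by
      rw [← mul_sub, norm_mul, Complex.norm_real, Real.norm_eq_abs]
      exact mul_le_mul_of_nonneg_left (hCd z w) ht0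
    have h2' : ‖(t : ℂ) * Λ z - (t : ℂ) * Λ w‖ ≤ 1 := by
      have := norm_sub_le ((t : ℂ) * Λ z) ((t : ℂ) * Λ w)
      linarith [hnt z, hnt w]
    have h3 : ‖Complex.exp ((t : ℂ) * Λ z - (t : ℂ) * Λ w) - 1‖ ≤ 2 * (|t| * (C * ‖z - w‖)) := by
      refine le_trans (Complex.norm_exp_sub_one_le h2') ?_
      linarith
    have h4 : ‖Complex.exp ((t : ℂ) * Λ w)‖ ≤ 2 := by
      have h5 : ‖Complex.exp ((t : ℂ) * Λ w) - 1‖ ≤ 2 * (|t| * M) := by
        refine le_trans (Complex.norm_exp_sub_one_le (by linarith [hnt w])) ?_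
        linarith [hnt w]
      have h6 := norm_add_le (Complex.exp ((t : ℂ) * Λ w) - 1) 1
      rw [sub_add_cancel, norm_one] at h6
      linarith
    rw [e1]
    refine le_trans (norm_add_le _ _) ?_
    rw [norm_mul, norm_mul, norm_mul]
    have h7 : ‖z - w‖ * ‖Complex.exp ((t : ℂ) * Λ z) - 1‖ ≤ ‖z - w‖ * (2 * (|t| * M)) :=
      mul_le_mul_of_nonneg_left h1 (norm_nonneg _)
    have h8 : ‖w‖ * (‖Complex.exp ((t : ℂ) * Λ w)‖ *
        ‖Complex.exp ((t : ℂ) * Λ z - (t : ℂ) * Λ w) - 1‖) ≤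
        B * (2 * (2 * (|t| * (C * ‖z - w‖)))) := by
      apply mul_le_mul hw _ (by positivity) hB0
      exact mul_le_mul h4 h3 (norm_nonneg _) (by norm_num)
    have h9 : ‖z - w‖ * (2 * (|t| * M)) + B * (2 * (2 * (|t| * (C * ‖z - w‖)))) =
        (|t| * (2 * M) + |t| * (4 * (B * C))) * ‖z - w‖ := by ring
    calc _ ≤ ‖z - w‖ * (2 * (|t| * M)) + B * (2 * (2 * (|t| * (C * ‖z - w‖)))) := by linarith
      _ = (|t| * (2 * M) + |t| * (4 * (B * C))) * ‖z - w‖ := h9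
      _ ≤ (1 / 2) * ‖z - w‖ := mul_le_mul_of_nonneg_right hsum (norm_nonneg _)
  have hL : LipschitzWith (1 / 2 : ℝ≥0) u := by
    refine LipschitzWith.of_dist_le_mul (fun z w => ?_)
    rw [dist_eq_norm, dist_eq_norm]
    have hc : ((1 / 2 : ℝ≥0) : ℝ) = 1 / 2 := by norm_num
    rw [hc]
    rcases le_or_gt ‖w‖ B with hw | hw
    · exact hkey z w hw
    · rcases le_or_gt ‖z‖ B with hz | hz
      · rw [norm_sub_rev (u z), norm_sub_rev z]
        exact hkey w z hz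
      · rw [hu0 z hz.le, hu0 w hw.le, sub_zero, norm_zero]
        positivity
  obtain ⟨f, hf, hfz⟩ := exists_diffC_of_lipschitz u hu (1 / 2)
    (by rw [← NNReal.coe_lt_coe]; norm_num) hL B hu0
  refine ⟨f, hf, fun z => ?_⟩
  rw [hfz z]
  simp only [u]
  ring

/-- rotations by any angle are realised on any disc by compactly supported diffeomorphisms -/
theorem exists_rotation (α b : ℝ) : ∃ f : Equiv.Perm ℂ, f ∈ DiffC ∧
    ∀ z : ℂ, ‖z‖ ≤ b → f z = z * Complex.exp (α * Complex.I) := by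
  set B : ℝ := max b 1 with hB
  have hB0 : 0 < B := lt_of_lt_of_le one_pos (le_max_right _ _)
  let χ : ContDiffBump (0 : ℂ) := ⟨B, B + 1, hB0, by linarith⟩
  let Λ : ℂ → ℂ := fun z => ((χ z : ℝ) : ℂ) * (α * Complex.I)
  have hΛ : ContDiff ℝ ∞ Λ := (Complex.ofRealCLM.contDiff.comp χ.contDiff).mul contDiff_const
  have hΛ0 : ∀ z : ℂ, B + 1 ≤ ‖z‖ → Λ z = 0 := by
    intro z hz
    have h1 : χ z = 0 := by
      apply χ.zero_of_le_dist
      rw [dist_zero_right]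
      exact hz
    simp [Λ, h1]
  obtain ⟨δ₀, hδ₀, hδ⟩ := exists_expMap Λ hΛ (B + 1) hΛ0
  obtain ⟨n, hn⟩ := exists_nat_gt (1 / δ₀)
  have hn0 : (0 : ℝ) < n := lt_trans (by positivity) hn
  have hnδ : |1 / (n : ℝ)| ≤ δ₀ := by
    rw [abs_of_pos (by positivity), div_le_iff₀ hn0]
    rw [div_lt_iff₀ hδ₀] at hn
    linarith
  obtain ⟨f, hf, hfz⟩ := hδ (1 / n) hnδ
  have hstep : ∀ z : ℂ, ‖z‖ ≤ B → f z = z * Complex.exp ((1 / n : ℝ) * (α * Complex.I)) := by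
    intro z hz
    have h1 : χ z = 1 := by
      apply χ.one_of_mem_closedBall
      rw [Metric.mem_closedBall, dist_zero_right]
      exact hz
    rw [hfz z]
    simp [Λ, h1]
  have hnorm : ∀ z : ℂ, ‖z * Complex.exp ((1 / n : ℝ) * (α * Complex.I))‖ = ‖z‖ := by
    intro z
    rw [norm_mul, Complex.norm_exp]
    simp
  have hiter : ∀ k : ℕ, ∀ z : ℂ, ‖z‖ ≤ B → ‖(f ^ k) z‖ = ‖z‖ ∧
      (f ^ k) z = z * Complex.exp ((k : ℂ) * ((1 / n : ℝ) * (α * Complex.I))) := by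
    intro k
    induction k with
    | zero => intro z _; simp
    | succ k ih =>
      intro z hz
      obtain ⟨h1, h2⟩ := ih z hz
      have h3 : (f ^ (k + 1)) z = f ((f ^ k) z) := by
        rw [pow_succ', Equiv.Perm.mul_apply]
      have h4 := hstep ((f ^ k) z) (by rw [h1]; exact hz)
      refine ⟨?_, ?_⟩
      · rw [h3, h4, hnorm, h1]
      · rw [h3, h4, h2, mul_assoc, ← Complex.exp_add]
        congr 2
        push_cast
        ring
  refine ⟨f ^ n, DiffC.pow_mem hf n, fun z hz => ?_⟩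
  rw [(hiter n z (le_trans hz (le_max_left _ _))).2]
  congr 2
  have : (n : ℂ) ≠ 0 := by
    have : (n : ℝ) ≠ 0 := hn0.ne'
    exact_mod_cast this
  push_cast
  field_simp

end Pool.Agent.H45F
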