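import Pool.Agent.H45F.Genus

set_option autoImplicit false

open scoped ContDiff NNReal commutatorElement
open Set

namespace Pool.Agent.H45F

/-- the open bounded sector with axis direction `ζ` and half opening `φ` -/
def Sec (ζ : ℂ) (a b φ : ℝ) : Set ℂ := {z | a < ‖z‖ ∧ ‖z‖ < b ∧ |Complex.arg (z / ζ)| < φ}

theorem ne_zero_of_norm_one {ζ : ℂ} (hζ : ‖ζ‖ = 1) : ζ ≠ 0 := by
  intro h; rw [h, norm_zero] at hζ; exact zero_ne_one hζ

theorem Sec.slit {ζ : ℂ} {a b φ : ℝ} (hζ : ‖ζ‖ = 1) (ha : 0 < a) (hφ : φ ≤ Real.pi) {z : ℂ}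
    (hz : z ∈ Sec ζ a b φ) : z / ζ ∈ Complex.slitPlane := by
  rw [Complex.mem_slitPlane_iff_arg]
  refine ⟨fun h => ?_, ?_⟩
  · have h1 := hz.2.2
    rw [h, abs_of_pos Real.pi_pos] at h1
    linarith
  · have h1 : z ≠ 0 := by
      intro h
      have := hz.1
      rw [h, norm_zero] at this
      linarith
    exact div_ne_zero h1 (ne_zero_of_norm_one hζ)

theorem isOpen_sec {ζ : ℂ} {a b φ : ℝ} (hζ : ‖ζ‖ = 1) (ha : 0 < a) (hφ : φ ≤ Real.pi) :
    IsOpen (Sec ζ a b φ) := by
  rw [isOpen_iff_mem_nhds]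
  intro z hz
  have hs := Sec.slit hζ ha hφ hz
  have h1 : ContinuousAt (fun w : ℂ => |Complex.arg (w / ζ)|) z := by
    have h2 : ContinuousAt (fun w : ℂ => w / ζ) z := (continuous_id.div_const ζ).continuousAt
    have h3 : ContinuousAt Complex.arg (z / ζ) := Complex.continuousAt_arg hs
    exact (ContinuousAt.comp (f := fun w : ℂ => w / ζ) h3 h2).abs
  have e1 : ∀ᶠ w in nhds z, a < ‖w‖ := continuous_norm.continuousAt.eventually_const_lt hz.1
  have e2 : ∀ᶠ w in nhds z, ‖w‖ < b := continuous_norm.continuousAt.eventually_lt_const hz.2.1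
  have e3 : ∀ᶠ w in nhds z, |Complex.arg (w / ζ)| < φ := h1.eventually_lt_const hz.2.2
  filter_upwards [e1, e2, e3] with w w1 w2 w3
  exact ⟨w1, w2, w3⟩

theorem isChart_sec {ζ : ℂ} {a b φ : ℝ} (hζ : ‖ζ‖ = 1) (ha : 0 < a) (hab : a < b) (hφ0 : 0 < φ)
    (hφ : φ ≤ Real.pi) : IsChart (Sec ζ a b φ) := by
  have hζ0 := ne_zero_of_norm_one hζ
  set m : ℝ := (Real.log a + Real.log b) / 2 with hm
  set ρ : ℝ := (Real.log b - Real.log a) / 2 with hρ
  have hlog : Real.log a < Real.log b := Real.log_lt_log ha hab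
  have hρ0 : 0 < ρ := by rw [hρ]; linarith
  set A := OpenPartialHomeomorph.univBall (E := ℝ) m ρ with hA
  set B := OpenPartialHomeomorph.univBall (E := ℝ) (0 : ℝ) φ with hB
  have hAs : ∀ x : ℝ, x ∈ A.source := by
    intro x; rw [hA, OpenPartialHomeomorph.univBall_source]; exact mem_univ _
  have hBs : ∀ x : ℝ, x ∈ B.source := by
    intro x; rw [hB, OpenPartialHomeomorph.univBall_source]; exact mem_univ _
  have hAt : A.target = Metric.ball m ρ := OpenPartialHomeomorph.univBall_target m hρ0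
  have hBt : B.target = Metric.ball 0 φ := OpenPartialHomeomorph.univBall_target 0 hφ0
  have hAsm : ContDiff ℝ ∞ A := OpenPartialHomeomorph.contDiff_univBall
  have hBsm : ContDiff ℝ ∞ B := OpenPartialHomeomorph.contDiff_univBall
  have hAsm' : ContDiffOn ℝ ∞ A.symm (Metric.ball m ρ) :=
    OpenPartialHomeomorph.contDiffOn_univBall_symm
  have hBsm' : ContDiffOn ℝ ∞ B.symm (Metric.ball 0 φ) :=
    OpenPartialHomeomorph.contDiffOn_univBall_symm
  have hAm : ∀ x : ℝ, |A x - m| < ρ := by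
    intro x
    have h := A.map_source (hAs x)
    rw [hAt, Metric.mem_ball, Real.dist_eq] at h
    exact h
  have hBm : ∀ x : ℝ, |B x| < φ := by
    intro x
    have h := B.map_source (hBs x)
    rw [hBt, Metric.mem_ball, Real.dist_eq, sub_zero] at h
    exact h
  -- logarithm of points of the sector
  have hre : ∀ z : ℂ, z ∈ Sec ζ a b φ → (Complex.log (z / ζ)).re ∈ Metric.ball m ρ := by
    intro z hz
    have h0 : 0 < ‖z‖ := lt_trans ha hz.1
    rw [Complex.log_re, norm_div, hζ, div_one, Metric.mem_ball, Real.dist_eq, abs_lt]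
    have h1 := Real.log_lt_log ha hz.1
    have h2 := Real.log_lt_log h0 hz.2.1
    rw [hm, hρ]
    constructor <;> linarith
  have him : ∀ z : ℂ, z ∈ Sec ζ a b φ → (Complex.log (z / ζ)).im ∈ Metric.ball (0 : ℝ) φ := by
    intro z hz
    rw [Complex.log_im, Metric.mem_ball, Real.dist_eq, sub_zero]
    exact hz.2.2
  refine ⟨isOpen_sec hζ ha hφ,
    fun z => ((A.symm (Complex.log (z / ζ)).re : ℝ) : ℂ) +
      ((B.symm (Complex.log (z / ζ)).im : ℝ) : ℂ) * Complex.I,
    fun w => ζ * Complex.exp (((A w.re : ℝ) : ℂ) + ((B w.im : ℝ) : ℂ) * Complex.I), ?_, ?_, ?_,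
    ?_, ?_⟩
  · intro z hz
    have hs := Sec.slit hζ ha hφ hz
    have h1 : ContDiffAt ℝ ∞ (fun w : ℂ => Complex.log (w / ζ)) z := by
      have h2 : ContDiffAt ℝ ∞ (fun w : ℂ => w / ζ) z := contDiffAt_id.div_const ζ
      have h3 : ContDiffAt ℝ ∞ Complex.log (z / ζ) :=
        (Complex.contDiffAt_log hs).restrict_scalars ℝ
      exact ContDiffAt.comp z h3 h2
    have h4 : ContDiffAt ℝ ∞ (fun w : ℂ => (Complex.log (w / ζ)).re) z :=
      Complex.reCLM.contDiff.contDiffAt.comp z h1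
    have h5 : ContDiffAt ℝ ∞ (fun w : ℂ => (Complex.log (w / ζ)).im) z :=
      Complex.imCLM.contDiff.contDiffAt.comp z h1
    have h6 : ContDiffAt ℝ ∞ A.symm (Complex.log (z / ζ)).re :=
      hAsm'.contDiffAt (Metric.isOpen_ball.mem_nhds (hre z hz))
    have h7 : ContDiffAt ℝ ∞ B.symm (Complex.log (z / ζ)).im :=
      hBsm'.contDiffAt (Metric.isOpen_ball.mem_nhds (him z hz))
    have h8 : ContDiffAt ℝ ∞ (fun w : ℂ => ((A.symm (Complex.log (w / ζ)).re : ℝ) : ℂ)) z :=
      Complex.ofRealCLM.contDiff.contDiffAt.comp z (ContDiffAt.comp z h6 h4)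
    have h9 : ContDiffAt ℝ ∞ (fun w : ℂ => ((B.symm (Complex.log (w / ζ)).im : ℝ) : ℂ)) z :=
      Complex.ofRealCLM.contDiff.contDiffAt.comp z (ContDiffAt.comp z h7 h5)
    exact (h8.add (h9.mul contDiffAt_const)).contDiffWithinAt
  · have h1 : ContDiff ℝ ∞ (fun w : ℂ => ((A w.re : ℝ) : ℂ)) :=
      Complex.ofRealCLM.contDiff.comp (hAsm.comp Complex.reCLM.contDiff)
    have h2 : ContDiff ℝ ∞ (fun w : ℂ => ((B w.im : ℝ) : ℂ)) :=
      Complex.ofRealCLM.contDiff.comp (hBsm.comp Complex.imCLM.contDiff)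
    exact contDiff_const.mul ((h1.add (h2.mul contDiff_const)).cexp)
  · intro w
    have h1 := hAm w.re
    have h2 := hBm w.im
    rw [abs_lt] at h1
    have hn : ‖ζ * Complex.exp (((A w.re : ℝ) : ℂ) + ((B w.im : ℝ) : ℂ) * Complex.I)‖ =
        Real.exp (A w.re) := by
      rw [norm_mul, hζ, one_mul, Complex.norm_exp]
      simp
    refine ⟨?_, ?_, ?_⟩
    · rw [hn, ← Real.exp_log ha]
      apply Real.exp_lt_exp.mpr
      rw [hm, hρ] at h1
      linarith [h1.1]
    · rw [hn]
      have hb : 0 < b := lt_trans ha hab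
      rw [← Real.exp_log hb]
      apply Real.exp_lt_exp.mpr
      rw [hm, hρ] at h1
      linarith [h1.2]
    · rw [mul_div_cancel_left₀ _ hζ0, ← Complex.log_im, Complex.log_exp]
      · simpa using h2
      · simp only [Complex.add_im, Complex.ofReal_im, Complex.mul_im, Complex.ofReal_re,
          Complex.I_im, mul_one, Complex.I_re, mul_zero, zero_add, add_zero]
        rw [abs_lt] at h2
        linarith [h2.1]
      · simp only [Complex.add_im, Complex.ofReal_im, Complex.mul_im, Complex.ofReal_re,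
          Complex.I_im, mul_one, Complex.I_re, mul_zero, zero_add, add_zero]
        rw [abs_lt] at h2
        linarith [h2.2]
  · intro w
    have h2 := hBm w.im
    rw [abs_lt] at h2
    have hl : Complex.log (ζ * Complex.exp (((A w.re : ℝ) : ℂ) +
        ((B w.im : ℝ) : ℂ) * Complex.I) / ζ) =
        ((A w.re : ℝ) : ℂ) + ((B w.im : ℝ) : ℂ) * Complex.I := by
      rw [mul_div_cancel_left₀ _ hζ0, Complex.log_exp]
      · simp only [Complex.add_im, Complex.ofReal_im, Complex.mul_im, Complex.ofReal_re,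
          Complex.I_im, mul_one, Complex.I_re, mul_zero, zero_add, add_zero]
        linarith [h2.1]
      · simp only [Complex.add_im, Complex.ofReal_im, Complex.mul_im, Complex.ofReal_re,
          Complex.I_im, mul_one, Complex.I_re, mul_zero, zero_add, add_zero]
        linarith [h2.2]
    change ((A.symm (Complex.log (ζ * Complex.exp (((A w.re : ℝ) : ℂ) +
        ((B w.im : ℝ) : ℂ) * Complex.I) / ζ)).re : ℝ) : ℂ) +
      ((B.symm (Complex.log (ζ * Complex.exp (((A w.re : ℝ) : ℂ) +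
        ((B w.im : ℝ) : ℂ) * Complex.I) / ζ)).im : ℝ) : ℂ) * Complex.I = w
    rw [hl]
    have e1 : (((A w.re : ℝ) : ℂ) + ((B w.im : ℝ) : ℂ) * Complex.I).re = A w.re := by simp
    have e2 : (((A w.re : ℝ) : ℂ) + ((B w.im : ℝ) : ℂ) * Complex.I).im = B w.im := by simp
    rw [e1, e2, A.left_inv (hAs _), B.left_inv (hBs _), Complex.re_add_im]
  · intro z hz
    have hz0 : z / ζ ≠ 0 := by
      have h1 : z ≠ 0 := by
        intro h
        have := hz.1
        rw [h, norm_zero] at this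
        linarith
      exact div_ne_zero h1 hζ0
    change ζ * Complex.exp (((A (((A.symm (Complex.log (z / ζ)).re : ℝ) : ℂ) +
      ((B.symm (Complex.log (z / ζ)).im : ℝ) : ℂ) * Complex.I).re : ℝ) : ℂ) +
      ((B (((A.symm (Complex.log (z / ζ)).re : ℝ) : ℂ) +
      ((B.symm (Complex.log (z / ζ)).im : ℝ) : ℂ) * Complex.I).im : ℝ) : ℂ) * Complex.I) = z
    have e1 : (((A.symm (Complex.log (z / ζ)).re : ℝ) : ℂ) +
      ((B.symm (Complex.log (z / ζ)).im : ℝ) : ℂ) * Complex.I).re =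
        A.symm (Complex.log (z / ζ)).re := by simp
    have e2 : (((A.symm (Complex.log (z / ζ)).re : ℝ) : ℂ) +
      ((B.symm (Complex.log (z / ζ)).im : ℝ) : ℂ) * Complex.I).im =
        B.symm (Complex.log (z / ζ)).im := by simp
    rw [e1, e2, A.right_inv (by rw [hAt]; exact hre z hz),
      B.right_inv (by rw [hBt]; exact him z hz), Complex.re_add_im, Complex.exp_log hz0,
      mul_div_cancel₀ _ hζ0]

end Pool.Agent.H45F
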