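import Pool.Agent.H45F.Ext
import Pool.Agent.H45F.Alg

set_option autoImplicit false

open scoped ContDiff NNReal commutatorElement
open Set

namespace Pool.Agent.H45F

namespace Rad

variable {A B : ℝ}

theorem gg_re (f : ℝ → ℂ) (x : ℝ) : gg (fun y => (((f y).re : ℝ) : ℂ)) x = gg f x := by
  unfold gg
  rw [Complex.ofReal_re]

/-- the radial part -/
noncomputable def rp : Rad A B →* Rad A B where
  toFun x := ⟨fun y => (((x.1 y).re : ℝ) : ℂ), XP.of_deriv
    (Complex.ofRealCLM.contDiff.comp (Complex.reCLM.contDiff.comp x.2.smooth))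
    (fun y hy => by rw [x.2.supp y hy]; simp) (fun y => by
      have h : gg (fun y => (((x.1 y).re : ℝ) : ℂ)) = gg x.1 := by ext t; exact gg_re x.1 t
      rw [h]
      exact x.2.deriv_gg_pos y)⟩
  map_one' := by
    apply Subtype.ext
    funext y
    change (((0 : ℂ).re : ℝ) : ℂ) = 0
    simp
  map_mul' := by
    intro x y
    apply Subtype.ext
    funext t
    change (((y.1 t + x.1 (gg y.1 t)).re : ℝ) : ℂ) =
      (((y.1 t).re : ℝ) : ℂ) + (((x.1 (gg (fun s => (((y.1 s).re : ℝ) : ℂ)) t)).re : ℝ) : ℂ)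
    rw [gg_re, Complex.add_re]
    push_cast
    ring

theorem rp_val (x : Rad A B) (t : ℝ) : (rp x).1 t = (((x.1 t).re : ℝ) : ℂ) := rfl

theorem rp_eq_one {x : Rad A B} (h : rp x = 1) (t : ℝ) : (x.1 t).re = 0 := by
  have h1 : (rp x).1 t = (1 : Rad A B).1 t := by rw [h]
  rw [rp_val, one_val] at h1
  exact_mod_cast h1

theorem rp_one_of {x : Rad A B} (h : ∀ t, (x.1 t).re = 0) : rp x = 1 := by
  apply Subtype.ext
  funext t
  rw [rp_val, h]
  rfl

theorem mul_val_of {x y : Rad A B} (hy : rp y = 1) (t : ℝ) : (x * y).1 t = y.1 t + x.1 t := by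
  rw [mul_val]
  congr 2
  unfold gg
  rw [rp_eq_one hy, add_zero]

theorem pow_val_of {x : Rad A B} (hx : rp x = 1) (n : ℕ) (t : ℝ) : (x ^ n).1 t = n * x.1 t := by
  induction n with
  | zero => rw [pow_zero, one_val]; simp
  | succ n ih =>
    rw [pow_succ, mul_val_of hx, ih]
    push_cast
    ring

theorem exists_root (n : ℕ) (hn : 0 < n) (x : Rad A B) (hx : rp x = 1) :
    ∃ y : Rad A B, rp y = 1 ∧ y ^ n = x := by
  have hn1 : (0 : ℝ) < n := by exact_mod_cast hn
  have h0 : (0 : ℝ) ≤ 1 / n := by positivity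
  have h1 : (1 : ℝ) / n ≤ 1 := by
    rw [div_le_one hn1]
    exact_mod_cast hn
  have e : rp (sc (1 / n) h0 h1 x) = 1 := by
    apply rp_one_of
    intro t
    change (((1 / n : ℝ) : ℂ) * x.1 t).re = 0
    rw [Complex.re_ofReal_mul, rp_eq_one hx, mul_zero]
  refine ⟨sc (1 / n) h0 h1 x, e, ?_⟩
  apply Subtype.ext
  funext t
  rw [pow_val_of e]
  change (n : ℂ) * (((1 / n : ℝ) : ℂ) * x.1 t) = x.1 t
  have hn2 : (n : ℂ) ≠ 0 := by exact_mod_cast hn.ne'
  push_cast
  field_simp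

theorem root_unique (n : ℕ) (hn : 0 < n) (x y : Rad A B) (hx : rp x = 1) (hy : rp y = 1)
    (h : x ^ n = y ^ n) : x = y := by
  apply Subtype.ext
  funext t
  have h1 : (x ^ n).1 t = (y ^ n).1 t := by rw [h]
  rw [pow_val_of hx, pow_val_of hy] at h1
  have hn2 : (n : ℂ) ≠ 0 := by exact_mod_cast hn.ne'
  exact mul_left_cancel₀ hn2 h1

theorem sig_rp (x : Rad A B) : sig (rp x) = rp x := by
  apply Subtype.ext
  funext t
  rw [sig_val, rp_val]
  unfold mh
  simp

theorem rp_rp (x : Rad A B) : rp (rp x) = rp x := by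
  apply Subtype.ext
  funext t
  rw [rp_val, rp_val, Complex.ofReal_re]

theorem rp_sig (x : Rad A B) : rp (sig x) = rp x := by
  apply Subtype.ext
  funext t
  rw [rp_val, rp_val, sig_val, mh_re]

theorem comm_of (v w : Rad A B) (hv : rp v = 1) (hw : rp w = 1) : v * w = w * v := by
  apply Subtype.ext
  funext t
  rw [mul_val_of hw, mul_val_of hv, add_comm]

theorem sig_sq (v : Rad A B) (hv : rp v = 1) : sig v * sig v = v := by
  apply Subtype.ext
  funext t
  have h1 : rp (sig v) = 1 := by rw [rp_sig, hv]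
  rw [mul_val_of h1, sig_val]
  have h2 := rp_eq_one hv t
  apply Complex.ext
  · rw [Complex.add_re, mh_re, h2, add_zero]
  · unfold mh
    simp

end Rad

variable {E : Type*} [Group E] (p : E →* DiffC) (A B : ℝ)

/-- the extension pulled back to the exponents -/
def PB : Subgroup (Rad A B × E) where
  carrier := {u | p u.2 = Rad.toGr u.1}
  mul_mem' := by
    intro u v hu hv
    change p (u.2 * v.2) = Rad.toGr (u.1 * v.1)
    rw [map_mul, map_mul, hu, hv]
  one_mem' := by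
    change p 1 = Rad.toGr 1
    rw [map_one, map_one]
  inv_mem' := by
    intro u hu
    change p u.2⁻¹ = Rad.toGr u.1⁻¹
    rw [map_inv, map_inv, hu]

/-- **Splitting**: a perfect central extension of the group of compactly supported diffeomorphisms
of the plane splits over the rotation equivariant diffeomorphisms of an annulus. -/
theorem rad_split (hp : Function.Surjective p) (hc : p.ker ≤ Subgroup.center E)
    (hE : commutator E = ⊤) (hAB : A < B) :
    ∃ s : Rad A B →* E, ∀ x, p (s x) = Rad.toGr x := by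
  obtain ⟨S⟩ := exists_setup p hp hc hE (Real.exp_pos A) (Real.exp_lt_exp.mpr hAB)
  obtain ⟨C, hC⟩ := S.exists_hom hAB
  have hex : ∀ u : PB p A B, ∃ e' : E, C u.1.1 = S.D.pr u.1.2 e' := by
    rintro ⟨⟨x, e⟩, hu⟩
    obtain ⟨e₀, e₀', h1, h2, h3⟩ := hC x
    refine ⟨e₀' * (e₀⁻¹ * e * (e₀⁻¹ * e)), ?_⟩
    rw [h1]
    rw [S.D.pr_eq_iff]
    refine ⟨e₀⁻¹ * e, ?_, ?_, rfl⟩
    · have hu' : p e = Rad.toGr x := hu
      rw [map_mul, map_inv, h2, hu', inv_mul_cancel]
    · change e = e₀ * (e₀⁻¹ * e)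
      rw [mul_inv_cancel_left]
  have hun : ∀ e a b : E, S.D.pr e a = S.D.pr e b → a = b := by
    intro e a b h
    rw [S.D.pr_eq_iff] at h
    obtain ⟨κ, -, h2, h3⟩ := h
    have h4 : κ = 1 := left_eq_mul.mp h2
    rw [h3, h4, mul_one, mul_one]
  choose ψ hψ using hex
  have hmem : ∀ u : PB p A B, ((Rad.sig u.1.1, ψ u) : Rad A B × E) ∈ PB p A B := by
    intro u
    obtain ⟨e₀, e₀', h1, h2, h3⟩ := hC u.1.1
    have h4 := hψ u
    rw [h1, S.D.pr_eq_iff] at h4
    obtain ⟨κ, h5, h6, h7⟩ := h4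
    change p (ψ u) = Rad.toGr (Rad.sig u.1.1)
    rw [h7, map_mul, map_mul, h5, h3, mul_one, mul_one]
  let Ψ : PB p A B →* PB p A B := MonoidHom.mk' (fun u => ⟨(Rad.sig u.1.1, ψ u), hmem u⟩) (by
    intro u v
    apply Subtype.ext
    apply Prod.ext
    · exact map_mul Rad.sig u.1.1 v.1.1
    · change ψ (u * v) = ψ u * ψ v
      apply hun (u * v).1.2
      rw [← hψ (u * v)]
      change C (u.1.1 * v.1.1) = S.D.pr (u.1.2 * v.1.2) (ψ u * ψ v)
      rw [map_mul, hψ u, hψ v, S.D.pr_mul])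
  let q : PB p A B →* Rad A B := (MonoidHom.fst (Rad A B) E).comp (PB p A B).subtype
  have hker : ∀ κ : PB p A B, q κ = 1 → p κ.1.2 = 1 := by
    intro κ hκ
    have h1 : p κ.1.2 = Rad.toGr κ.1.1 := κ.2
    have h2 : κ.1.1 = 1 := hκ
    rw [h1, h2, map_one]
  have g1 : Function.Surjective q := by
    intro x
    obtain ⟨e, he⟩ := hp (Rad.toGr x)
    exact ⟨⟨(x, e), he⟩, rfl⟩
  have g2 : ∀ κ, q κ = 1 → ∀ x, x * κ = κ * x := by
    intro κ hκ x
    have h1 := hker κ hκ
    apply Subtype.ext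
    apply Prod.ext
    · change x.1.1 * κ.1.1 = κ.1.1 * x.1.1
      have h2 : κ.1.1 = 1 := hκ
      rw [h2, mul_one, one_mul]
    · exact S.D.central h1 x.1.2
  have g3 : ∀ f, q (Ψ f) = Rad.sig (q f) := fun f => rfl
  have g4 : ∀ κ, q κ = 1 → Ψ κ = κ * κ := by
    intro κ hκ
    have h1 := hker κ hκ
    have h2 : κ.1.1 = 1 := hκ
    apply Subtype.ext
    apply Prod.ext
    · change Rad.sig κ.1.1 = κ.1.1 * κ.1.1
      rw [h2, map_one, mul_one]
    · change ψ κ = κ.1.2 * κ.1.2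
      apply hun κ.1.2
      rw [← hψ κ, h2, map_one]
      have h3 : (1 : S.D.Q) = S.D.pr 1 1 := rfl
      rw [h3, S.D.pr_eq_iff]
      exact ⟨κ.1.2, h1, (one_mul _).symm, (one_mul _).symm⟩
  obtain ⟨s, hs⟩ := split_aux q g1 g2 Ψ Rad.sig Rad.rp g3 g4 Rad.sig_rp Rad.rp_rp Rad.rp_sig
    Rad.comm_of Rad.sig_sq (Rad.exists_root 7 (by norm_num)) (Rad.exists_root 3 (by norm_num))
    (Rad.root_unique 3 (by norm_num))
  refine ⟨((MonoidHom.snd (Rad A B) E).comp (PB p A B).subtype).comp s, fun x => ?_⟩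
  have h1 : p (s x).1.2 = Rad.toGr (s x).1.1 := (s x).2
  have h2 : (s x).1.1 = x := hs x
  rw [h2] at h1
  exact h1

end Pool.Agent.H45F
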