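import Pool.Agent.H45F.Split

set_option autoImplicit false

open scoped ContDiff NNReal commutatorElement
open Set

namespace Pool.Agent.H45F

/-- rotation of every circle about the origin, with angle `κ` in the logarithmic radius -/
noncomputable def tw (κ : ℝ → ℝ) (z : ℂ) : ℂ :=
  z * Complex.exp ((κ (Real.log ‖z‖) : ℂ) * Complex.I)

theorem norm_tw (κ : ℝ → ℝ) (z : ℂ) : ‖tw κ z‖ = ‖z‖ := by
  unfold tw
  rw [norm_mul, Complex.norm_exp_ofReal_mul_I, mul_one]

theorem tw_tw (κ μ : ℝ → ℝ) (z : ℂ) : tw κ (tw μ z) = tw (fun t => κ t + μ t) z := by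
  have h := norm_tw μ z
  unfold tw at h ⊢
  rw [h, Complex.ofReal_add, add_mul, Complex.exp_add]
  ring

theorem tw_zero_fun (z : ℂ) : tw (fun _ => 0) z = z := by
  unfold tw
  simp

/-- as a permutation -/
noncomputable def twP (κ : ℝ → ℝ) : Equiv.Perm ℂ where
  toFun := tw κ
  invFun := tw (fun t => -κ t)
  left_inv := by
    intro z
    rw [tw_tw]
    simp only [neg_add_cancel]
    exact tw_zero_fun z
  right_inv := by
    intro z
    rw [tw_tw]
    simp only [add_neg_cancel]
    exact tw_zero_fun z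

theorem twP_apply (κ : ℝ → ℝ) (z : ℂ) : twP κ z = tw κ z := rfl

theorem twP_mul (κ μ : ℝ → ℝ) : twP κ * twP μ = twP (fun t => κ t + μ t) := by
  ext1 z
  exact tw_tw κ μ z

theorem twP_comm (κ μ : ℝ → ℝ) : twP κ * twP μ = twP μ * twP κ := by
  rw [twP_mul, twP_mul]
  congr 1
  funext t
  ring

theorem twP_zero : twP (fun _ => 0) = 1 := by
  ext1 z
  exact tw_zero_fun z

theorem twP_zpow (κ : ℝ → ℝ) (n : ℤ) : twP κ ^ n = twP (fun t => n * κ t) := by
  have hnat : ∀ m : ℕ, twP κ ^ m = twP (fun t => m * κ t) := by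
    intro m
    induction m with
    | zero =>
      rw [pow_zero, ← twP_zero]
      congr 1
      funext t
      simp
    | succ m ih =>
      rw [pow_succ, ih, twP_mul]
      congr 1
      funext t
      push_cast
      ring
  cases n with
  | ofNat m =>
    rw [Int.ofNat_eq_natCast, zpow_natCast, hnat]
    congr 1
  | negSucc m =>
    rw [zpow_negSucc, hnat, inv_eq_iff_mul_eq_one, twP_mul, ← twP_zero]
    congr 1
    funext t
    push_cast
    ring

/-- the exponents which are a multiple of a full turn near the origin and vanish far away -/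
structure Tw (A B : ℝ) (n : ℤ) (κ : ℝ → ℝ) : Prop where
  smooth : ContDiff ℝ ∞ κ
  left : ∀ t, t < A → κ t = 2 * Real.pi * n
  right : ∀ t, B < t → κ t = 0

theorem tw_fix {κ : ℝ → ℝ} {n : ℤ} {z : ℂ} (h : κ (Real.log ‖z‖) = 2 * Real.pi * n) :
    tw κ z = z := by
  unfold tw
  rw [h]
  have e : ((2 * Real.pi * (n : ℝ) : ℝ) : ℂ) * Complex.I = (n : ℂ) * (2 * Real.pi * Complex.I) := by
    push_cast
    ring
  rw [e, Complex.exp_int_mul_two_pi_mul_I, mul_one]

theorem Tw.fix_left {A B : ℝ} {n : ℤ} {κ : ℝ → ℝ} (h : Tw A B n κ) {z : ℂ}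
    (hz : ‖z‖ < Real.exp A) : tw κ z = z := by
  by_cases h0 : z = 0
  · rw [h0]; unfold tw; rw [zero_mul]
  · apply tw_fix (n := n)
    apply h.left
    rwa [Real.log_lt_iff_lt_exp (norm_pos_iff.mpr h0)]

theorem Tw.fix_right {A B : ℝ} {n : ℤ} {κ : ℝ → ℝ} (h : Tw A B n κ) {z : ℂ}
    (hz : Real.exp B < ‖z‖) : tw κ z = z := by
  have h0 : 0 < ‖z‖ := lt_trans (Real.exp_pos B) hz
  apply tw_fix (n := 0)
  rw [h.right _ ((Real.lt_log_iff_exp_lt h0).mpr hz)]
  simp

theorem Tw.tw_smooth {A B : ℝ} {n : ℤ} {κ : ℝ → ℝ} (h : Tw A B n κ) : ContDiff ℝ ∞ (tw κ) := by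
  rw [contDiff_iff_contDiffAt]
  intro z
  by_cases hz : z = 0
  · refine (contDiffAt_id (x := z)).congr_of_eventuallyEq ?_
    have h1 : ∀ᶠ w in nhds z, ‖w‖ < Real.exp A := by
      refine continuous_norm.continuousAt.eventually_lt_const ?_
      change ‖z‖ < Real.exp A
      rw [hz, norm_zero]; exact Real.exp_pos A
    filter_upwards [h1] with w hw
    exact h.fix_left hw
  · have h2 : ContDiffAt ℝ ∞ (fun w : ℂ => ‖w‖) z := contDiffAt_norm ℝ hz
    have h3 : ContDiffAt ℝ ∞ Real.log ‖z‖ := Real.contDiffAt_log.mpr (norm_ne_zero_iff.mpr hz)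
    have h4 : ContDiffAt ℝ ∞ (fun w : ℂ => κ (Real.log ‖w‖)) z :=
      h.smooth.contDiffAt.comp z (ContDiffAt.comp z h3 h2)
    have h5 : ContDiffAt ℝ ∞ (fun w : ℂ => (κ (Real.log ‖w‖) : ℂ) * Complex.I) z :=
      (Complex.ofRealCLM.contDiff.contDiffAt.comp z h4).mul contDiffAt_const
    exact contDiffAt_id.mul h5.cexp

theorem Tw.neg {A B : ℝ} {n : ℤ} {κ : ℝ → ℝ} (h : Tw A B n κ) :
    Tw A B (-n) (fun t => -κ t) := by
  refine ⟨h.smooth.neg, fun t ht => ?_, fun t ht => ?_⟩
  · rw [h.left t ht]; push_cast; ring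
  · rw [h.right t ht, neg_zero]

theorem Tw.mem {A B : ℝ} {n : ℤ} {κ : ℝ → ℝ} (h : Tw A B n κ) : twP κ ∈ DiffC := by
  refine ⟨h.tw_smooth, h.neg.tw_smooth, Real.exp B + 1, fun z hz => ?_⟩
  exact h.fix_right (by linarith)

/-- the standard full turn -/
noncomputable def hD (A B t : ℝ) : ℝ := 2 * Real.pi * Real.smoothTransition ((B - t) / (B - A))

theorem hD_tw {A B : ℝ} (hAB : A < B) : Tw A B 1 (hD A B) := by
  refine ⟨?_, fun t ht => ?_, fun t ht => ?_⟩
  · unfold hD
    exact contDiff_const.mul (Real.smoothTransition.contDiff.comp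
      ((contDiff_const.sub contDiff_id).div_const _))
  · unfold hD
    rw [Real.smoothTransition.one_of_one_le]
    · simp
    · rw [one_le_div (by linarith)]
      linarith
  · unfold hD
    rw [Real.smoothTransition.zero_of_nonpos, mul_zero]
    apply div_nonpos_of_nonpos_of_nonneg <;> linarith

/-- uniqueness of the exponent and of the number of turns -/
theorem toGr_eq_zpow {A B A' B' : ℝ} (hAB : A < B) (D : DiffC)
    (hD' : (D : Equiv.Perm ℂ) = twP (hD A B)) (x : Rad A' B') (k : ℤ)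
    (h : Rad.toGr x = D ^ k) : k = 0 ∧ x = 1 := by
  have hT := hD_tw hAB
  set v : ℝ → ℂ := fun t => x.1 t - ((k * hD A B t : ℝ) : ℂ) * Complex.I with hv
  have hvs : ContDiff ℝ ∞ v := x.2.smooth.sub
    ((Complex.ofRealCLM.contDiff.comp (contDiff_const.mul hT.smooth)).mul contDiff_const)
  have hexp : ∀ t, Complex.exp (v t) = 1 := by
    intro t
    have h1 : ((Rad.toGr x : DiffC) : Equiv.Perm ℂ) (Real.exp t : ℂ) =
        ((D ^ k : DiffC) : Equiv.Perm ℂ) (Real.exp t : ℂ) := by rw [h]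
    have h2 : ((D ^ k : DiffC) : Equiv.Perm ℂ) = twP (fun t => k * hD A B t) := by
      rw [← twP_zpow, ← hD']
      exact SubgroupClass.coe_zpow D k
    have hne : (Real.exp t : ℂ) ≠ 0 := by exact_mod_cast (Real.exp_pos t).ne'
    have hnorm : Real.log ‖(Real.exp t : ℂ)‖ = t := by
      rw [Complex.norm_real, Real.norm_eq_abs, abs_of_pos (Real.exp_pos t), Real.log_exp]
    rw [h2, twP_apply, Rad.toGr_apply] at h1
    unfold tw radL at h1
    rw [if_neg hne, hnorm] at h1
    have h3 := mul_left_cancel₀ hne h1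
    rw [hv]
    change Complex.exp (x.1 t - ((k * hD A B t : ℝ) : ℂ) * Complex.I) = 1
    rw [Complex.exp_sub, h3, div_self (Complex.exp_ne_zero _)]
  have hconst : ∀ s t, v s = v t := by
    apply is_const_of_deriv_eq_zero (hvs.differentiable (by simp))
    intro t
    have h1 : HasDerivAt v (deriv v t) t := (hvs.differentiable (by simp) t).hasDerivAt
    have h2 := h1.cexp
    have h3 : (fun t => Complex.exp (v t)) = fun _ => 1 := funext hexp
    rw [h3, hexp] at h2
    have h4 := h2.unique (hasDerivAt_const t (1 : ℂ))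
    rwa [one_mul] at h4
  have hzero : ∀ t, v t = 0 := by
    intro t
    rw [hconst t (max B B' + 1)]
    change x.1 _ - _ = 0
    rw [x.2.supp _ (fun h' => by linarith [h'.2, le_max_right B B']),
      hT.right _ (by linarith [le_max_left B B'])]
    simp
  have hk : k = 0 := by
    have h1 := hzero (min A A' - 1)
    change x.1 _ - _ = 0 at h1
    rw [x.2.supp _ (fun h' => by linarith [h'.1, min_le_right A A']),
      hT.left _ (by linarith [min_le_left A A'])] at h1
    have h2 := congrArg Complex.im h1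
    simp [Real.pi_ne_zero] at h2
    exact h2
  refine ⟨hk, ?_⟩
  apply Subtype.ext
  funext t
  have h1 := hzero t
  change x.1 t - _ = 0 at h1
  rw [hk] at h1
  rw [Rad.one_val]
  simpa using h1

end Pool.Agent.H45F
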